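import Pool.Agent.H459.CG.Stm

/-!
# S_FLDP (helper721, for helper459): many extensions with full symmetric group and a property
-/

set_option autoImplicit false
set_option linter.all false

open Module NumberField IntermediateField Polynomial Filter Topology
open scoped Classical

namespace Pool.Agent.H721.CG

open Pool.Agent.Helper313LB Pool.Agent.Helper313SN

section cnt

variable (F Ω : Type) [Field F] [NumberField F] [Field Ω] [CharZero Ω] [Algebra F Ω]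

/-- the generators of extensions with full symmetric group and the property -/
def SFP (P : IntermediateField F Ω → Prop) (n : ℕ) (R : ℝ) : Set Ω :=
  {α | α ∈ SF F Ω n R ∧ P F⟮α⟯}

/-- the extensions generated by the elements of `SFP` -/
def EFP (P : IntermediateField F Ω → Prop) (n : ℕ) (R : ℝ) : Set (IntermediateField F Ω) :=
  (fun α => F⟮α⟯) '' SFP F Ω P n R

variable {F Ω}

theorem EFP_sub {P : IntermediateField F Ω → Prop} {n : ℕ} {R : ℝ} :
    EFP F Ω P n R ⊆ EF F Ω n R := by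
  rintro _ ⟨α, hα, rfl⟩
  exact ⟨α, hα.1, rfl⟩

theorem EFP_prop {P : IntermediateField F Ω → Prop} {n : ℕ} {R : ℝ} {L : IntermediateField F Ω}
    (hL : L ∈ EFP F Ω P n R) : P L := by
  obtain ⟨α, hα, rfl⟩ := hL
  exact hα.2

variable [IsAlgClosed Ω]

theorem SFP_le {P : IntermediateField F Ω → Prop} {n : ℕ} (hn : 2 ≤ n) {H ρ : ℝ} (hρ : 1 ≤ ρ)
    (hH : ρ ≤ H) :
    ((SFP F Ω P n H).ncard : ℝ) ≤ (1 + 2 * H / ρ) ^ (finrank ℚ F * (n - 1)) *
      (((S F Ω n ρ).ncard : ℝ) + ((EFP F Ω P n H).ncard : ℝ)) := by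
  have hf : (SFP F Ω P n H).Finite :=
    (S_finite_and_card F Ω hn (R := H) (hρ.trans hH)).1.subset fun _ h => h.1.1
  have hfρ := (S_finite_and_card F Ω hn (R := ρ) hρ).1
  have hfE : (EFP F Ω P n H).Finite := hf.image _
  set A := hf.toFinset with hA
  set Aρ := hfρ.toFinset with hAρ
  set E := hfE.toFinset with hE
  have e1 : (SFP F Ω P n H).ncard = A.card := Set.ncard_eq_toFinset_card _ hf
  have e2 : (S F Ω n ρ).ncard = Aρ.card := Set.ncard_eq_toFinset_card _ hfρ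
  have e3 : (EFP F Ω P n H).ncard = E.card := Set.ncard_eq_toFinset_card _ hfE
  have hmA : ∀ α, α ∈ A ↔ α ∈ SFP F Ω P n H := fun α => by rw [hA, Set.Finite.mem_toFinset]
  have hmAρ : ∀ α, α ∈ Aρ ↔ α ∈ S F Ω n ρ := fun α => by rw [hAρ, Set.Finite.mem_toFinset]
  have hmE : ∀ L, L ∈ E ↔ L ∈ EFP F Ω P n H := fun α => by rw [hE, Set.Finite.mem_toFinset]
  have h1 : A.card = ∑ L ∈ E, (A.filter fun α => F⟮α⟯ = L).card :=
    Finset.card_eq_sum_card_fiberwise (fun α hα => by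
      rw [Finset.mem_coe, hmE]
      exact ⟨α, (hmA α).1 (Finset.mem_coe.1 hα), rfl⟩)
  have h2 : ∑ L ∈ E, (Aρ.filter fun α => F⟮α⟯ = L).card ≤ Aρ.card := by
    rw [← Finset.card_biUnion]
    · exact Finset.card_le_card (Finset.biUnion_subset.2 fun L _ => Finset.filter_subset _ _)
    · intro L _ L' _ hne
      rw [Function.onFun, Finset.disjoint_left]
      intro α h3 h4
      rw [Finset.mem_filter] at h3 h4
      exact hne (h3.2.symm.trans h4.2)
  have h3 : ∀ L ∈ E, ((A.filter fun α => F⟮α⟯ = L).card : ℝ) ≤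
      (1 + 2 * H / ρ) ^ (finrank ℚ F * (n - 1)) *
        (((Aρ.filter fun α => F⟮α⟯ = L).card : ℝ) + 1) := by
    intro L hL
    have hLE := (hmE L).1 hL
    have hfin := Ext_finrank (EF_sub (EFP_sub hLE))
    have hfd : FiniteDimensional F L := FiniteDimensional.of_finrank_pos (by omega)
    have hnf := nf_of_fd L
    have h4 := fib_two_scales hn L hfin (EF_full (EFP_sub hLE)) (R := H) (ρ := ρ) (by linarith)
      (by linarith)
    have h5 : {α | α ∈ S F Ω n H ∧ F⟮α⟯ = L} =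
        ((A.filter fun α => F⟮α⟯ = L : Finset Ω) : Set Ω) := by
      ext α
      simp only [Set.mem_setOf_eq, Finset.coe_filter, hmA]
      constructor
      · rintro ⟨h6, h7⟩
        refine ⟨⟨⟨h6, ?_⟩, ?_⟩, h7⟩
        · rw [h7]
          exact EF_full (EFP_sub hLE)
        · rw [h7]
          exact EFP_prop hLE
      · rintro ⟨h6, h7⟩
        exact ⟨h6.1.1, h7⟩
    have h6 : {α | α ∈ S F Ω n ρ ∧ F⟮α⟯ = L} =
        ((Aρ.filter fun α => F⟮α⟯ = L : Finset Ω) : Set Ω) := by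
      ext α
      simp [hmAρ]
    rw [h5, h6, Set.ncard_coe_finset, Set.ncard_coe_finset] at h4
    exact h4
  have h2' : ∑ L ∈ E, ((Aρ.filter fun α => F⟮α⟯ = L).card : ℝ) ≤ (Aρ.card : ℝ) := by
    exact_mod_cast h2
  rw [e1, e2, e3, h1]
  push_cast
  have hM : 0 ≤ (1 + 2 * H / ρ) ^ (finrank ℚ F * (n - 1)) := by
    have : 0 ≤ 2 * H / ρ := div_nonneg (by linarith) (by linarith)
    positivity
  calc ∑ L ∈ E, ((A.filter fun α => F⟮α⟯ = L).card : ℝ)
      ≤ ∑ L ∈ E, (1 + 2 * H / ρ) ^ (finrank ℚ F * (n - 1)) *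
        (((Aρ.filter fun α => F⟮α⟯ = L).card : ℝ) + 1) := Finset.sum_le_sum h3
    _ = (1 + 2 * H / ρ) ^ (finrank ℚ F * (n - 1)) *
        (∑ L ∈ E, ((Aρ.filter fun α => F⟮α⟯ = L).card : ℝ) + E.card) := by
      rw [← Finset.mul_sum, Finset.sum_add_distrib, Finset.sum_const, nsmul_eq_mul, mul_one]
    _ ≤ _ := mul_le_mul_of_nonneg_left (by linarith) hM

end cnt

variable (F Ω : Type) [Field F] [NumberField F] [Field Ω] [CharZero Ω] [Algebra F Ω]
  [IsAlgClosed Ω] [Normal F Ω]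

theorem exists_le_ncard_EFP {n : ℕ} (hn : 3 ≤ n) (P : IntermediateField F Ω → Prop) {c₁ H₁ : ℝ}
    (hc₁ : 0 < c₁) (hH₁ : 1 ≤ H₁)
    (hlow : ∀ H : ℝ, H₁ ≤ H → c₁ * H ^ (finrank ℚ F * ex n) ≤ ((SFP F Ω P n H).ncard : ℝ)) :
    ∃ c H₀ : ℝ, 0 < c ∧ 1 ≤ H₀ ∧ ∀ H : ℝ, H₀ ≤ H →
      (EFP F Ω P n H).Finite ∧ c * H ^ (finrank ℚ F * ex n) ≤ ((EFP F Ω P n H).ncard : ℝ) := by
  have hn2 : 2 ≤ n := by omega
  set d := finrank ℚ F with hd
  have hd0 : 0 < d := finrank_pos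
  set C₂ : ℝ := n * (5 * 2 ^ n) ^ (d * (n - 1)) with hC₂
  have hC₂0 : 0 < C₂ := by
    have : (0 : ℝ) < n := by exact_mod_cast (by omega : 0 < n)
    positivity
  have hex : d * (n - 1) < d * ex n := by
    have h1 := two_mul_ex hn2
    have h3 : n - 1 < ex n := by
      have : (n - 1) * 4 ≤ (n - 1) * (n + 2) := Nat.mul_le_mul_left _ (by omega)
      omega
    exact Nat.mul_lt_mul_of_pos_left h3 hd0
  -- choice of the ratio of the scales
  obtain ⟨t, ht1, ht⟩ : ∃ t : ℝ, 1 ≤ t ∧ 3 ^ (d * (n - 1)) * C₂ * 2 ≤ c₁ * t := by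
    refine ⟨max 1 (3 ^ (d * (n - 1)) * C₂ * 2 / c₁), le_max_left _ _, ?_⟩
    have := le_max_right 1 (3 ^ (d * (n - 1)) * C₂ * 2 / c₁)
    rw [div_le_iff₀ hc₁] at this
    linarith
  have ht0 : 0 < t := by linarith
  refine ⟨c₁ / (2 * (1 + 2 * t) ^ (d * (n - 1))), t * H₁, by positivity, ?_, fun H hH => ?_⟩
  · exact one_le_mul_of_one_le_of_one_le ht1 hH₁
  have hHt : H₁ ≤ H / t := by
    rw [le_div_iff₀ ht0]
    linarith
  have hρ : 1 ≤ H / t := hH₁.trans hHt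
  have hHH : H / t ≤ H := div_le_self (by nlinarith) ht1
  have hH0 : 0 < H := by nlinarith
  have hf : (SFP F Ω P n H).Finite :=
    (S_finite_and_card F Ω hn2 (R := H) (hρ.trans hHH)).1.subset fun _ h => h.1.1
  refine ⟨hf.image _, ?_⟩
  have h1 := SFP_le (F := F) (Ω := Ω) (P := P) hn2 hρ hHH
  have h2 := hlow H (hHt.trans hHH)
  have h3 := (S_finite_and_card F Ω hn2 (R := H / t) hρ).2
  rw [← hC₂, ← hd] at h3
  rw [← hd] at h1
  have e1 : 1 + 2 * H / (H / t) = 1 + 2 * t := by field_simp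
  rw [e1] at h1
  set Y : ℝ := H ^ (d * ex n) with hY
  have hY0 : 0 < Y := by positivity
  set M : ℝ := (1 + 2 * t) ^ (d * (n - 1)) with hM
  have hM0 : 0 < M := by positivity
  have h4 : (H / t) ^ (d * ex n) = Y / t ^ (d * ex n) := by rw [div_pow]
  rw [h4] at h3
  have h5 : M ≤ 3 ^ (d * (n - 1)) * t ^ (d * (n - 1)) := by
    rw [hM, ← mul_pow]
    exact pow_le_pow_left₀ (by positivity) (by linarith) _
  have h6 : M * (C₂ * (Y / t ^ (d * ex n))) ≤ c₁ / 2 * Y := by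
    have h7 : t ^ (d * (n - 1)) * t ≤ t ^ (d * ex n) := by
      rw [← pow_succ]
      exact pow_le_pow_right₀ ht1 hex
    have h8 : 0 < t ^ (d * ex n) := by positivity
    rw [mul_div_assoc', mul_div_assoc', div_le_iff₀ h8]
    calc M * (C₂ * Y) ≤ (3 ^ (d * (n - 1)) * t ^ (d * (n - 1))) * (C₂ * Y) :=
          mul_le_mul_of_nonneg_right h5 (by positivity)
      _ = (3 ^ (d * (n - 1)) * C₂ * 2) * (t ^ (d * (n - 1)) * Y / 2) := by ring
      _ ≤ (c₁ * t) * (t ^ (d * (n - 1)) * Y / 2) := mul_le_mul_of_nonneg_right ht (by positivity)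
      _ = c₁ / 2 * Y * (t ^ (d * (n - 1)) * t) := by ring
      _ ≤ c₁ / 2 * Y * t ^ (d * ex n) := mul_le_mul_of_nonneg_left h7 (by positivity)
  have h9 : c₁ * Y ≤ c₁ / 2 * Y + M * ((EFP F Ω P n H).ncard : ℝ) := by
    calc c₁ * Y ≤ ((SFP F Ω P n H).ncard : ℝ) := h2
      _ ≤ M * (((S F Ω n (H / t)).ncard : ℝ) + ((EFP F Ω P n H).ncard : ℝ)) := h1
      _ ≤ M * (C₂ * (Y / t ^ (d * ex n)) + ((EFP F Ω P n H).ncard : ℝ)) :=
          mul_le_mul_of_nonneg_left (by linarith) hM0.le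
      _ = M * (C₂ * (Y / t ^ (d * ex n))) + M * ((EFP F Ω P n H).ncard : ℝ) := by ring
      _ ≤ _ := by linarith
  rw [div_mul_eq_mul_div, div_le_iff₀ (by positivity)]
  nlinarith

theorem full_lowerP {n : ℕ} (hn : 3 ≤ n) (P : IntermediateField F Ω → Prop) {c H₀ : ℝ}
    (hc : 0 < c) (hH₀ : 1 ≤ H₀) (h1 : ∀ H : ℝ, H₀ ≤ H →
      (EFP F Ω P n H).Finite ∧ c * H ^ (finrank ℚ F * ex n) ≤ ((EFP F Ω P n H).ncard : ℝ)) :
    ∃ c : ℝ, 0 < c ∧ ∀ᶠ X : ℝ in atTop,
    c * X ^ (1 / 2 + 1 / n : ℝ) ≤ ({L ∈ FullFld F Ω n X | P L}.ncard : ℝ) := by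
  obtain ⟨K, hK, h2⟩ := Ext_discr F Ω n
  set d := finrank ℚ F with hd
  have hd0 : 0 < d := finrank_pos
  have hp2 : 2 ≤ n := by omega
  set m : ℕ := d * (n * (n - 1)) with hm
  have hm0 : m ≠ 0 := by
    have : 0 < n * (n - 1) := Nat.mul_pos (by omega) (by omega)
    positivity
  have hmR : (0 : ℝ) < m := by exact_mod_cast Nat.pos_of_ne_zero hm0
  -- the exponent
  have hexp : ((d * ex n : ℕ) : ℝ) / m = 1 / 2 + 1 / n := by
    have h3 : (2 : ℝ) * ex n = ((n : ℝ) - 1) * (n + 2) := by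
      have := two_mul_ex hp2
      have h4 : ((2 * ex n : ℕ) : ℝ) = (((n - 1) * (n + 2) : ℕ) : ℝ) := by rw [this]
      push_cast [Nat.cast_sub (by omega : 1 ≤ n)] at h4
      exact h4
    have hp0 : (0 : ℝ) < n := by exact_mod_cast (by omega : 0 < n)
    have hp1 : (0 : ℝ) < (n : ℝ) - 1 := by
      have : (2 : ℝ) ≤ n := by exact_mod_cast hp2
      linarith
    have hdR : (0 : ℝ) < d := by exact_mod_cast hd0
    rw [hm]
    push_cast [Nat.cast_sub (by omega : 1 ≤ n)]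
    rw [div_eq_iff (by positivity)]
    have h5 : (ex n : ℝ) = ((n : ℝ) - 1) * (n + 2) / 2 := by linarith
    rw [h5]
    field_simp
  have hK' : (0 : ℝ) < K := hK
  refine ⟨c * (1 / K) ^ (1 / 2 + 1 / n : ℝ), by positivity, ?_⟩
  filter_upwards [eventually_ge_atTop (K * H₀ ^ m)] with X hX
  have hX0 : 0 < X := lt_of_lt_of_le (by positivity) hX
  set H : ℝ := (X / K) ^ (1 / (m : ℝ)) with hH
  have hHm : H ^ m = X / K := by
    rw [hH, ← Real.rpow_natCast, ← Real.rpow_mul (by positivity), one_div_mul_cancel hmR.ne',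
      Real.rpow_one]
  have hHH₀ : H₀ ≤ H := by
    have h3 : H₀ ^ m ≤ H ^ m := by
      rw [hHm, le_div_iff₀ hK]
      linarith
    exact le_of_pow_le_pow_left₀ hm0 (by positivity) h3
  obtain ⟨hfin, h4⟩ := h1 H hHH₀
  have h5 : H ^ (d * ex n) = (1 / K) ^ (1 / 2 + 1 / n : ℝ) * X ^ (1 / 2 + 1 / n : ℝ) := by
    rw [← Real.mul_rpow (by positivity) (by positivity), ← hexp, hH, ← Real.rpow_natCast,
      ← Real.rpow_mul (by positivity)]
    congr 1
    · ring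
    · ring
  rw [mul_assoc, ← h5]
  refine h4.trans ?_
  have h6 : EFP F Ω P n H ⊆ {L ∈ FullFld F Ω n X | P L} := by
    intro L hL
    obtain ⟨hnf, h7⟩ := h2 H (hH₀.trans hHH₀) L (EF_sub (EFP_sub hL))
    refine ⟨⟨Ext_finrank (EF_sub (EFP_sub hL)), EF_full (EFP_sub hL), hnf,
      h7.trans (le_of_eq ?_)⟩, EFP_prop hL⟩
    rw [hHm]
    field_simp
  exact_mod_cast Set.ncard_le_ncard h6
    ((finite_FullFld F Ω n X).subset fun _ h => h.1)

/-- **S_FLDP** -/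
theorem fldp : Pool.Agent.H459.CG.S_FLDP := by
  intro F Ω _ _ _ _ _ _ _ n hn
  obtain ⟨c₁, H₀, hc₁, hH₀, hlow⟩ := exists_le_ncard_SF F Ω hn
  refine ⟨c₁ / 2, by positivity, ?_⟩
  rintro P ⟨H₁, hH₁⟩
  have hlow' : ∀ H : ℝ, max H₀ H₁ ≤ H →
      c₁ / 2 * H ^ (finrank ℚ F * ex n) ≤ ((SFP F Ω P n H).ncard : ℝ) := by
    intro H hH
    have ha := hlow H ((le_max_left _ _).trans hH)
    have hb := hH₁ H ((le_max_right _ _).trans hH)
    have hH1 : 1 ≤ H := hH₀.trans ((le_max_left _ _).trans hH)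
    have hf : (SF F Ω n H).Finite :=
      (S_finite_and_card F Ω (by omega : 2 ≤ n) (R := H) hH1).1.subset fun _ h => h.1
    have h1 : (SF F Ω n H).ncard ≤ (SFP F Ω P n H).ncard +
        {α ∈ SF F Ω n H | ¬ P F⟮α⟯}.ncard := by
      have h2 : SF F Ω n H = SFP F Ω P n H ∪ {α ∈ SF F Ω n H | ¬ P F⟮α⟯} := by
        ext α
        constructor
        · intro h
          by_cases hP : P F⟮α⟯
          · exact Or.inl ⟨h, hP⟩
          · exact Or.inr ⟨h, hP⟩
        · rintro (h | h)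
          · exact h.1
          · exact h.1
      calc (SF F Ω n H).ncard = (SFP F Ω P n H ∪ {α ∈ SF F Ω n H | ¬ P F⟮α⟯}).ncard := by
            rw [← h2]
        _ ≤ _ := Set.ncard_union_le _ _
    have h3 : ((SF F Ω n H).ncard : ℝ) ≤ ((SFP F Ω P n H).ncard : ℝ) +
        ({α ∈ SF F Ω n H | ¬ P F⟮α⟯}.ncard : ℝ) := by exact_mod_cast h1
    linarith
  obtain ⟨c, H₂, hc, hH₂, h⟩ := exists_le_ncard_EFP F Ω hn P (by positivity : 0 < c₁ / 2)
    (hH₀.trans (le_max_left _ _)) hlow'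
  exact full_lowerP F Ω hn P hc hH₂ h

end Pool.Agent.H721.CG
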