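import Pool.Agent.H459.CG.Stm

/-!
# CG-POLA: the polynomial of a small generator (helper696 for helper459)
-/

set_option autoImplicit false

open Polynomial IsDedekindDomain NumberField
open scoped Classical IntermediateField

namespace Pool.Agent.H696.CG

open Pool.Agent.N783.PF (Ht IsGen fF)
open Pool.Agent.Helper313LB Pool.Agent.Helper313SN

theorem pow_bd (H : ℝ) (hH : 1 ≤ H) (n k : ℕ) (hk : 1 ≤ k) :
    H ^ k * 2 ^ n ≤ ((⌈(2 : ℝ) ^ n * H⌉₊ : ℕ) : ℝ) ^ k := by
  have h1 : (2 : ℝ) ^ n ≤ ((2 : ℝ) ^ n) ^ k := by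
    have h2 : (1 : ℝ) ≤ (2 : ℝ) ^ n := one_le_pow₀ (by norm_num)
    calc (2 : ℝ) ^ n = ((2 : ℝ) ^ n) ^ 1 := (pow_one _).symm
      _ ≤ ((2 : ℝ) ^ n) ^ k := pow_le_pow_right₀ h2 hk
  have h0 : 0 ≤ H ^ k := by positivity
  calc H ^ k * 2 ^ n ≤ H ^ k * ((2 : ℝ) ^ n) ^ k := mul_le_mul_of_nonneg_left h1 h0
    _ = ((2 : ℝ) ^ n * H) ^ k := by rw [mul_pow, mul_comm]
    _ ≤ _ := by
      refine pow_le_pow_left₀ (by positivity) (Nat.le_ceil _) k

theorem pola : Pool.Agent.H459.CG.S_POLA := by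
  intro F Ω _ _ _ _ _ _ g hg H hH α hα
  obtain ⟨h1, h2, h3, h4⟩ := id hα
  have hsc : IsScalarTower ℚ F Ω := IsScalarTower.of_algebraMap_eq' (Subsingleton.elim _ _)
  have hint : IsIntegral F α := h1.tower_top
  have hlift : minpoly F α ∈ Polynomial.lifts (algebraMap (𝓞 F) F) := by
    rw [Polynomial.lifts_iff_coeff_lifts]
    intro j
    obtain ⟨a, -, ha⟩ := S_coeff F Ω hα j
    exact ⟨a, ha⟩
  obtain ⟨f, hf⟩ := (Polynomial.mem_lifts _).1 hlift
  have hinj : Function.Injective (algebraMap (𝓞 F) F) := RingOfIntegers.coe_injective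
  have hmon : f.Monic := by
    refine Polynomial.monic_of_injective hinj ?_
    rw [hf]
    exact minpoly.monic hint
  have hdeg : f.natDegree = 2 * g + 1 := by
    rw [← Polynomial.natDegree_map_eq_of_injective hinj, hf]
    exact h2
  have hcoef : ∀ j, ((f.coeff j : 𝓞 F) : F) = (minpoly F α).coeff j := by
    intro j
    rw [← hf, Polynomial.coeff_map]
  have htr : f.coeff (2 * g) = 0 := by
    apply hinj
    rw [map_zero]
    have h5 := hcoef (2 * g)
    rw [Polynomial.nextCoeff_of_natDegree_pos (by rw [h2]; omega), h2] at h3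
    rw [show 2 * g + 1 - 1 = 2 * g by omega] at h3
    exact h5.trans h3
  refine ⟨f, ⟨hmon, hdeg, htr, ?_⟩, hf, ?_⟩
  · intro j hj σ
    obtain ⟨a, ha1, ha2⟩ := S_coeff F Ω hα j
    have h6 : a = f.coeff j := hinj (ha2.trans (hcoef j).symm)
    rw [← h6]
    exact (ha1 σ).trans (pow_bd H hH (2 * g + 1) (2 * g + 1 - j) (by omega))
  · intro _
    have hgen : minpoly F (IntermediateField.AdjoinSimple.gen F α) = minpoly F α :=
      IntermediateField.minpoly_gen F α
    refine ⟨hmon, hdeg, ?_, ?_, ?_⟩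
    · show aeval (IntermediateField.AdjoinSimple.gen F α) (f.map (algebraMap (𝓞 F) F)) = 0
      rw [hf, ← hgen]
      exact minpoly.aeval F _
    · rw [IntermediateField.adjoin.finrank hint, h2]
    · intro x
      obtain ⟨p, hp1, hp2⟩ := (IntermediateField.adjoin.powerBasis hint).exists_eq_aeval x
      have hd : (IntermediateField.adjoin.powerBasis hint).dim = 2 * g + 1 := by
        rw [IntermediateField.adjoin.powerBasis_dim, h2]
      rw [hd] at hp1
      rw [IntermediateField.adjoin.powerBasis_gen, Polynomial.aeval_eq_sum_range' hp1,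
        ← Fin.sum_univ_eq_sum_range
          (fun i => p.coeff i • IntermediateField.AdjoinSimple.gen F α ^ i) (2 * g + 1)] at hp2
      refine ⟨fun i => p.coeff i, hp2.trans ?_⟩
      refine Finset.sum_congr rfl fun i _ => ?_
      rw [Algebra.smul_def]

end Pool.Agent.H696.CG
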