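import Pool.Agent.H459.CG.Stm

/-!
# Project CG (helper459): statement of SMD
-/

set_option autoImplicit false
set_option linter.all false

open Polynomial IsDedekindDomain NumberField
open scoped Classical IntermediateField

namespace Pool.Agent.H459.CG

open Pool.Agent.N352.PJ (dd)
open Pool.Agent.N783.PF (Ht IsGen fF)

/-- **S_GENS** (a small generator of trace zero).

Proof. Mathlib: `NumberField.mixedEmbedding.exists_primitive_element_lt_of_isReal` and `..._of_isComplex` (used in
`NumberField.finite_of_discr_bdd`) give `a : 𝓞 L` with `ℚ⟮a⟯ = ⊤` and `w a ≤ C √|discr L|` for all infinite places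
`w` of `L` (the constant depends only on `[L : ℚ] = n [F : ℚ]`; `|discr L| ≥ 1`). Take `α = n a - Tr_(L/F) a`: it has trace
zero, `F(α) = F(a) = L`, and `|σ α| ≤ 2 n max |τ a|` (the trace is the sum of the `n` conjugates over `F`; each is
the value of an embedding of `L`). -/
def S_GENS : Prop := ∀ (F : Type) [Field F] [NumberField F] (n : ℕ), 2 ≤ n → ∃ C : ℝ, 0 < C ∧
  ∀ (L : Type) [Field L] [NumberField L] [Algebra F L], Module.finrank F L = n →
  ∃ α : L, IsIntegral ℤ α ∧ Algebra.trace F L α = 0 ∧ F⟮α⟯ = ⊤ ∧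
    ∀ τ : L →+* ℂ, ‖τ α‖ ≤ C * Real.sqrt |(discr L : ℝ)|

/-- **S_SMD** (few polynomials whose field has a small discriminant). `dd g = 2 g ^ 2 + 3 g = ex (2 g + 1)`.

Proof (with S_GENS as hypothesis). `n = 2 g + 1`, `d = [F : ℚ]`, `Ω = AlgebraicClosure F`; library: Helper313LB, Helper313SN
(`S F Ω n H` is the set of the integral `α ∈ Ω` of degree `n` over `F` of trace zero and house `≤ H`,
`S_finite_and_card`: at most `C H ^ (d ex n)` elements for `H ≥ 1`; `W F L` the integers of trace zero of `L`,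
`W_two_scales`). For `f` in the set choose `L`, `θ` and an embedding of `L` over `F` into `Ω`; `α` the image of `θ`. `α` is a
root of `f`, all its conjugates are `≤ 2 B` (`|σ (f_j)| ≤ B ^ (n - j)`), so `α ∈ S F Ω n (2 B)`; `f ↦ α` is injective
(`f` is the minimal polynomial of `α` over `𝓞 F`). `L' = F(α)` is the image of `L`, `discr L' = discr L`
(`NumberField.discr_eq_discr_of_algEquiv` or `..ringEquiv`), so by S_GENS `L' = F(β)` for a `β ∈ S F Ω n (C √B)`: at most
`C' B ^ (d ex n / 2)` fields `L'`. For each `L'` the number of the `α` with `F(α) = L'` is at most the number of the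
`x ∈ W F L'` of house `≤ 2 B`, which is at most `(1 + 8 B) ^ (d (n - 1))` by `W_two_scales` with the scales `2 B` and
`1 / 2` (an integral `x ≠ 0` has house `≥ 1`). -/
def S_SMD : Prop := ∀ (F : Type) [Field F] [NumberField F] (g : ℕ), 1 ≤ g → ∃ C : ℝ, 0 < C ∧
  ∀ B : ℕ, 1 ≤ B →
  {f : (𝓞 F)[X] | Ht g B f ∧ ∃ (L : Type) (_ : Field L) (_ : NumberField L) (_ : Algebra F L) (θ : L),
    IsGen g f θ ∧ |(discr L : ℝ)| ≤ B}.Finite ∧
  ({f : (𝓞 F)[X] | Ht g B f ∧ ∃ (L : Type) (_ : Field L) (_ : NumberField L) (_ : Algebra F L) (θ : L),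
    IsGen g f θ ∧ |(discr L : ℝ)| ≤ B}.ncard : ℝ) ≤
      C * (B : ℝ) ^ ((Module.finrank ℚ F : ℝ) * (2 * g + dd g / 2))

end Pool.Agent.H459.CG
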