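import Pool.Agent.H459.CG.Avg
import Pool.Agent.H459.CG.Bfldp
import Pool.Agent.H459.CG.Bpola
import Pool.Agent.H459.CG.Stm2

/-!
# The tail and the fields (helper459)
-/

set_option autoImplicit false
set_option linter.all false

open Polynomial IsDedekindDomain Matrix NumberField
open scoped Classical IntermediateField

namespace Pool.Agent.H459.CG

open Pool.Agent.N783.PF (Ht IsGen fF dsc Bd)
open Pool.Agent.N352.PJ (dd pol dis)
open Pool.Agent.N352.PF (dg Bz Bx Bal bxT)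
open Pool.Agent.H459.UN (Sq)
open Pool.Agent.Helper313LB Pool.Agent.Helper313SN Filter

theorem isGen_of {F : Type} [Field F] [NumberField F] {g : ℕ} {f : (𝓞 F)[X]} (hm : f.Monic)
    (hd : f.natDegree = 2 * g + 1) {L : Type} [Field L] [NumberField L] [Algebra F L] {θ : L}
    (h0 : aeval θ (fF f) = 0) (htop : F⟮θ⟯ = ⊤) (hr : Module.finrank F L = 2 * g + 1) :
    IsGen g f θ := by
  haveI : FiniteDimensional F L := .of_finrank_pos (by omega)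
  have hint : IsIntegral F θ := Algebra.IsIntegral.isIntegral θ
  refine ⟨hm, hd, h0, hr, fun x => ?_⟩
  have htop' : Algebra.adjoin F {θ} = ⊤ := by
    rw [← IntermediateField.adjoin_simple_toSubalgebra_of_isAlgebraic hint.isAlgebraic, htop,
      IntermediateField.top_toSubalgebra]
  obtain ⟨p, hp1, hp2⟩ := (PowerBasis.ofAdjoinEqTop hint htop').exists_eq_aeval x
  have hdim : (PowerBasis.ofAdjoinEqTop hint htop').dim = 2 * g + 1 := by
    rw [← PowerBasis.finrank, hr]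
  rw [hdim] at hp1
  rw [PowerBasis.ofAdjoinEqTop_gen, Polynomial.aeval_eq_sum_range' hp1,
    ← Fin.sum_univ_eq_sum_range (fun i => p.coeff i • θ ^ i) (2 * g + 1)] at hp2
  refine ⟨fun i => p.coeff i, hp2.trans ?_⟩
  refine Finset.sum_congr rfl fun i _ => ?_
  rw [Algebra.smul_def]

/-- The polynomials with a root field with many classes. -/
def BadR (F : Type) [Field F] [NumberField F] (g B : ℕ) (R : ℝ) : Set (𝓞 F)[X] :=
  {f | Ht g B f ∧ ∃ G : Gd g f, R ≤ cl2 G.L}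

theorem tail (hC : S_CLG) (F : Type) [Field F] [NumberField F] (g : ℕ) (hg : 1 ≤ g) {s : ℝ}
    (hs0 : 0 < s) (hs1 : s < 1) : ∃ C : ℝ, 0 < C ∧ ∀ B : ℕ, 1 ≤ B → (∀ R : ℝ, (BadR F g B R).Finite) ∧
    ∀ R : ℝ, 0 < R → ((BadR F g B R).ncard : ℝ) ≤ C * R ^ (-s) * (B : ℝ) ^ (dg F * dd g) := by
  obtain ⟨C, hC0, h1⟩ := avg hC F g hg hs0 hs1
  obtain ⟨C₃, -, hC₃, -⟩ := hb_card F g hg
  refine ⟨C, hC0, fun B hB => ?_⟩
  have hfin : ∀ R : ℝ, (BadR F g B R).Finite := fun R => (hC₃ B hB).1.subset fun f hf => hf.1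
  refine ⟨hfin, fun R hR => ?_⟩
  have h2 : ∀ f : (hfin R).toFinset, ∃ G : Gd g f.1, R ≤ cl2 G.L := fun f =>
    ((hfin R).mem_toFinset.1 f.2).2
  choose G hG using h2
  have h3 := h1 B hB (hfin R).toFinset (fun f hf => ((hfin R).mem_toFinset.1 hf).1) G
  have h4 : ∑ f : (hfin R).toFinset, R ^ s ≤ ∑ f : (hfin R).toFinset, (cl2 (G f).L : ℝ) ^ s :=
    Finset.sum_le_sum fun f _ => Real.rpow_le_rpow hR.le (hG f) hs0.le
  rw [Finset.sum_const, Finset.card_univ, Fintype.card_coe, nsmul_eq_mul,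
    ← Set.ncard_eq_toFinset_card _ (hfin R)] at h4
  have hRs : 0 < R ^ s := Real.rpow_pos_of_pos hR s
  have h5 := h4.trans h3
  rw [← le_div_iff₀ hRs] at h5
  refine h5.trans (le_of_eq ?_)
  rw [Real.rpow_neg hR.le]
  field_simp

/-- The reducible polynomials. -/
theorem red (F : Type) [Field F] [NumberField F] (g : ℕ) (hg : 1 ≤ g) : ∃ C : ℕ, ∀ B : ℕ, 1 ≤ B →
    {f : (𝓞 F)[X] | Ht g B f ∧ ¬ Irreducible (fF f)}.Finite ∧
    {f : (𝓞 F)[X] | Ht g B f ∧ ¬ Irreducible (fF f)}.ncard * B ^ (2 * g * dg F) ≤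
      C * B ^ (dg F * dd g) := by
  obtain ⟨C, hC⟩ := Pool.Agent.H71.CG.redg F g hg
  refine ⟨C, fun B hB => ?_⟩
  obtain ⟨h1, h2⟩ := hC B hB
  have e : {f : (𝓞 F)[X] | Ht g B f ∧ ¬ Irreducible (fF f)} =
      pol '' {a ∈ Bz F g B | ¬ Irreducible ((pol a).map (algebraMap (𝓞 F) F))} := by
    ext f
    constructor
    · rintro ⟨h3, h4⟩
      refine ⟨cf g f, ⟨cf_mem h3, ?_⟩, pol_cf h3⟩
      rw [pol_cf h3]
      exact h4
    · rintro ⟨a, ⟨ha, ha'⟩, rfl⟩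
      exact ⟨Pool.Agent.N951.PF.ht_pol ha, ha'⟩
  rw [e]
  refine ⟨(h1.subset fun a ha => ha.1).image _, ?_⟩
  rw [Set.ncard_image_of_injective _ Pool.Agent.N951.PF.pol_inj]
  exact h2

/-- **The fields.** -/
theorem flds (hC : S_CLG) (F Ω : Type) [Field F] [NumberField F] [Field Ω] [CharZero Ω] [Algebra F Ω]
    [IsAlgClosed Ω] [Normal F Ω] (g : ℕ) (hg : 1 ≤ g) : ∃ (A : ℕ) (c : ℝ), 0 < c ∧
    ∀ᶠ X : ℝ in atTop, c * X ^ (1 / 2 + 1 / (2 * g + 1 : ℕ) : ℝ) ≤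
      ({L ∈ FullFld F Ω (2 * g + 1) X | ∃ h : NumberField L, @cl2 L _ h ≤ A}.ncard : ℝ) := by
  obtain ⟨c₀, hc₀, hfl⟩ := Pool.Agent.H721.CG.fldp F Ω (2 * g + 1) (by omega)
  obtain ⟨C, hC0, ht⟩ := tail hC F g hg (s := 1 / 2) (by norm_num) (by norm_num)
  obtain ⟨n, hn⟩ : ∃ n, n = 2 * g + 1 := ⟨_, rfl⟩
  obtain ⟨M, hM⟩ : ∃ M : ℝ, M = n * C * (2 ^ (n + 1)) ^ (dg F * dd g) := ⟨_, rfl⟩
  have hM0 : 0 < M := by
    rw [hM]
    have : (0 : ℝ) < n := by exact_mod_cast (by omega : 0 < n)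
    positivity
  obtain ⟨A, hA⟩ := exists_nat_ge ((M / c₀) ^ 2)
  refine ⟨A, ?_⟩
  suffices hkey : ∀ H : ℝ, H ≥ 1 → ({α ∈ SF F Ω (2 * g + 1) H |
      ¬ ∃ h : NumberField F⟮α⟯, @cl2 F⟮α⟯ _ h ≤ A}.ncard : ℝ) ≤
      c₀ * H ^ (Module.finrank ℚ F * ex (2 * g + 1)) from
    hfl (fun L => ∃ h : NumberField L, @cl2 L _ h ≤ A) ⟨1, hkey⟩
  intro H hH
  rw [← hn]
  obtain ⟨B, hB⟩ : ∃ B : ℕ, B = ⌈(2 : ℝ) ^ n * H⌉₊ := ⟨_, rfl⟩
  have hH0 : 0 < H := by linarith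
  have hBr : (B : ℝ) ≤ 2 ^ (n + 1) * H := by
    have h1 := (Nat.ceil_lt_add_one (show 0 ≤ (2 : ℝ) ^ n * H by positivity)).le
    rw [← hB] at h1
    have h2 : (1 : ℝ) ≤ 2 ^ n * H := by
      have h3 : (1 : ℝ) ≤ 2 ^ n := one_le_pow₀ (by norm_num)
      nlinarith
    calc (B : ℝ) ≤ 2 ^ n * H + 1 := h1
      _ ≤ 2 ^ n * H + 2 ^ n * H := by linarith
      _ = _ := by ring
  have hB1 : 1 ≤ B := by
    rw [hB]
    exact Nat.one_le_iff_ne_zero.2 (Nat.ceil_pos.2 (by positivity)).ne'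
  obtain ⟨hfin, hcard⟩ := ht B hB1
  -- the generators with many classes
  have hex : (A : ℝ) + 1 > 0 := by positivity
  have hfT := hfin ((A : ℝ) + 1)
  have hsub : {α ∈ SF F Ω n H | ¬ ∃ h : NumberField F⟮α⟯, @cl2 F⟮α⟯ _ h ≤ A} ⊆
      ((hfT.toFinset.biUnion fun f => ((fF f).aroots Ω).toFinset : Finset Ω) : Set Ω) := by
    rintro α ⟨⟨hα, hfull⟩, hP⟩
    rw [hn] at hα
    obtain ⟨f, hf1, hf2, hf3⟩ := Pool.Agent.H696.CG.pola F Ω g hg H hH α hα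
    rw [← hn, ← hB] at hf1
    have hint : IsIntegral F α := by
      haveI : IsScalarTower ℤ F Ω := inferInstance
      exact hα.1.tower_top
    haveI hfd : FiniteDimensional F F⟮α⟯ := IntermediateField.adjoin.finiteDimensional hint
    haveI hnf : NumberField F⟮α⟯ := nf_of_fd F⟮α⟯
    have hcl : ¬ cl2 F⟮α⟯ ≤ A := fun h => hP ⟨hnf, h⟩
    rw [Finset.mem_coe, Finset.mem_biUnion]
    refine ⟨f, hfT.mem_toFinset.2 ⟨hf1, ⟨F⟮α⟯, _, hf3⟩, ?_⟩, ?_⟩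
    · have h1 : A + 1 ≤ cl2 F⟮α⟯ := by omega
      exact_mod_cast h1
    · rw [Multiset.mem_toFinset, Polynomial.mem_aroots, hf2]
      exact ⟨minpoly.ne_zero hint, minpoly.aeval F α⟩
  have hle : ({α ∈ SF F Ω n H | ¬ ∃ h : NumberField F⟮α⟯, @cl2 F⟮α⟯ _ h ≤ A}.ncard : ℝ) ≤
      n * ((BadR F g B ((A : ℝ) + 1)).ncard : ℝ) := by
    have h1 := Set.ncard_le_ncard hsub (Finset.finite_toSet _)
    rw [Set.ncard_coe_finset] at h1
    have h2 : (hfT.toFinset.biUnion fun f => ((fF f).aroots Ω).toFinset).card ≤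
        hfT.toFinset.card * n := by
      refine Finset.card_biUnion_le_card_mul _ _ _ fun f hf => ?_
      refine (Multiset.toFinset_card_le _).trans ((Polynomial.card_roots' _).trans ?_)
      rw [Polynomial.natDegree_map]
      have h3 := (hfT.mem_toFinset.1 hf).1
      exact (Polynomial.natDegree_map_le).trans (by rw [h3.deg, hn])
    have h3 := h1.trans h2
    rw [← Set.ncard_eq_toFinset_card _ hfT, mul_comm] at h3
    exact_mod_cast h3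
  have hexn : ex n = dd g := by
    have h1 := two_mul_ex (p := n) (by omega)
    have h2 : dd g = 2 * g ^ 2 + 3 * g := rfl
    rw [hn, show 2 * g + 1 - 1 = 2 * g by omega] at h1
    rw [hn, h2]
    nlinarith
  refine hle.trans ?_
  rw [hexn]
  have h4 := hcard ((A : ℝ) + 1) hex
  have h5 : ((A : ℝ) + 1) ^ (-(1 / 2) : ℝ) ≤ c₀ / M := by
    have h6 : (M / c₀) ^ 2 ≤ (A : ℝ) + 1 := by linarith
    have h7 : M / c₀ ≤ ((A : ℝ) + 1) ^ (1 / 2 : ℝ) := by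
      rw [← Real.sqrt_eq_rpow]
      exact Real.le_sqrt_of_sq_le h6
    rw [Real.rpow_neg hex.le]
    have h8 : (c₀ / M) = (M / c₀)⁻¹ := by rw [inv_div]
    rw [h8]
    exact inv_anti₀ (by positivity) h7
  have hdg : Module.finrank ℚ F = dg F := rfl
  rw [hdg]
  calc (n : ℝ) * ((BadR F g B ((A : ℝ) + 1)).ncard : ℝ)
      ≤ n * (C * ((A : ℝ) + 1) ^ (-(1 / 2) : ℝ) * (B : ℝ) ^ (dg F * dd g)) :=
        mul_le_mul_of_nonneg_left h4 (Nat.cast_nonneg _)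
    _ ≤ n * (C * (c₀ / M) * (2 ^ (n + 1) * H) ^ (dg F * dd g)) := by
        gcongr
    _ = c₀ * H ^ (dg F * dd g) * (n * C * (2 ^ (n + 1)) ^ (dg F * dd g) / M) := by
        rw [mul_pow]
        ring
    _ = _ := by
        rw [← hM, div_self hM0.ne', mul_one]

end Pool.Agent.H459.CG
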