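import Pool.Agent.H459.CG.Fin

/-!
# All the degrees which are not powers of two (helper459)
-/

set_option autoImplicit false
set_option linter.all false

open Polynomial IsDedekindDomain NumberField Module IntermediateField Filter
open scoped Classical

namespace Pool.Agent.H459.CG

open Pool.Agent.Helper313LB Pool.Agent.Helper313SN

/-- The extensions of degree `N` with bounded discriminant and few classes. -/
def FldA (F Ω : Type) [Field F] [NumberField F] [Field Ω] [CharZero Ω] [Algebra F Ω] (N A : ℕ)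
    (X : ℝ) : Set (IntermediateField F Ω) :=
  {L | finrank F L = N ∧ ∃ h : NumberField L, ((|@discr L _ h| : ℤ) : ℝ) ≤ X ∧ @cl2 L _ h ≤ A}

theorem fldA_fin {F Ω : Type} [Field F] [NumberField F] [Field Ω] [CharZero Ω] [Algebra F Ω]
    (N A : ℕ) (X : ℝ) : (FldA F Ω N A X).Finite :=
  (finite_Fld F Ω (n := N) X).subset fun _ h => ⟨h.1, h.2.1, h.2.2.1⟩

/-- **The fields, all degrees.** -/
theorem absN (hC : S_CLG) (F Ω : Type) [Field F] [NumberField F] [Field Ω] [CharZero Ω] [Algebra F Ω]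
    [IsAlgClosed Ω] [Normal F Ω] (N n : ℕ) (hn : 3 ≤ n) (hodd : Odd n) (hN : n ∣ N) (hN0 : N ≠ 0) :
    ∃ (A : ℕ) (c : ℝ), 0 < c ∧
    ∀ᶠ X : ℝ in atTop, c * X ^ (1 / 2 + 1 / n : ℝ) ≤ ((FldA F Ω N A X).ncard : ℝ) := by
  obtain ⟨g, rfl⟩ := hodd
  obtain ⟨k, hk⟩ := hN
  have hk0 : k ≠ 0 := by
    rintro rfl
    exact hN0 (by rw [hk, mul_zero])
  obtain ⟨F', hF'⟩ := exists_ext F Ω k hk0
  haveI hfd : FiniteDimensional F F' := FiniteDimensional.of_finrank_pos (by omega)
  haveI hnf : NumberField F' := nf_of_fd F'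
  haveI : Normal F' Ω := Normal.tower_top_of_normal F F' Ω
  obtain ⟨A, c, hc, h⟩ := flds hC F' Ω g (by omega)
  refine ⟨A, c, hc, ?_⟩
  filter_upwards [h] with X hX
  refine hX.trans ?_
  let r : IntermediateField F' Ω → IntermediateField F Ω := fun L => L.restrictScalars F
  have hr : Function.Injective r := restrictScalars_injective F
  have h1 : {L ∈ FullFld F' Ω (2 * g + 1) X | ∃ h : NumberField L, @cl2 L _ h ≤ A}.ncard ≤
      (FldA F Ω N A X).ncard := by
    rw [← Set.ncard_image_of_injective _ hr]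
    refine Set.ncard_le_ncard ?_ (fldA_fin N A X)
    rintro _ ⟨L, ⟨⟨h1, -, hnf', h2⟩, hnf'', h3⟩, rfl⟩
    refine ⟨?_, hnf', h2, h3⟩
    rw [hk, ← hF', mul_comm, ← h1]
    exact (finrank_mul_finrank F F' L).symm
  exact_mod_cast h1

end Pool.Agent.H459.CG
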