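import Pool.Agent.H459.CG.Abs

/-!
# Almost all polynomials (helper459)
-/

set_option autoImplicit false
set_option linter.all false

open Polynomial IsDedekindDomain NumberField Filter
open scoped Classical

namespace Pool.Agent.H459.CG

open Pool.Agent.N783.PF (Ht IsGen fF dsc Bd)
open Pool.Agent.N352.PJ (dd pol dis)
open Pool.Agent.N352.PF (dg)

/-- The exceptional polynomials. -/
def ExE (F : Type) [Field F] [NumberField F] (g B : ℕ) (ε : ℝ) : Set (𝓞 F)[X] :=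
  {f | Ht g B f ∧ (¬ Irreducible (fF f) ∨
    ∃ G : Gd g f, |(discr G.L : ℝ)| ^ ε < (cl2 G.L : ℝ))}

theorem almost (hC : S_CLG) (hS : S_SMD) (F : Type) [Field F] [NumberField F] (g : ℕ) (hg : 1 ≤ g)
    {ε η : ℝ} (hη : 0 < η) (hηε : η < ε) (hη2 : η ≤ 1 / 2) : ∃ C : ℝ, 0 < C ∧ ∀ B : ℕ, 1 ≤ B →
    (ExE F g B ε).Finite ∧ ((ExE F g B ε).ncard : ℝ) ≤ C * (B : ℝ) ^ (-η) *
      (B : ℝ) ^ (dg F * dd g) := by
  have hε : 0 < ε := hη.trans hηε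
  have hs0 : 0 < η / ε := by positivity
  have hs1 : η / ε < 1 := by rw [div_lt_one hε]; exact hηε
  obtain ⟨C₁, hC₁, h1⟩ := tail hC F g hg hs0 hs1
  obtain ⟨C₂, h2⟩ := red F g hg
  obtain ⟨C₃, hC₃, h3⟩ := hS F g hg
  obtain ⟨C₄, -, h4, -⟩ := hb_card F g hg
  obtain ⟨d, hd⟩ : ∃ d, d = Module.finrank ℚ F := ⟨_, rfl⟩
  have hdg : dg F = d := by rw [hd]
  have hd1 : 1 ≤ d := by
    rw [hd]
    exact Module.finrank_pos
  rw [hdg] at h1 h2 h4 ⊢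
  rw [← hd] at h3
  refine ⟨C₁ + C₂ + C₃, by positivity, fun B hB => ?_⟩
  have hfin : (ExE F g B ε).Finite := (h4 B hB).1.subset fun f hf => hf.1
  refine ⟨hfin, ?_⟩
  obtain ⟨h5, h6⟩ := h1 B hB
  obtain ⟨h7, h8⟩ := h2 B hB
  obtain ⟨h9, h10⟩ := h3 B hB
  have hBr : (1 : ℝ) ≤ B := by exact_mod_cast hB
  have hB0 : (0 : ℝ) < B := by linarith
  set S₁ := BadR F g B ((B : ℝ) ^ ε) with hS₁
  set S₂ := {f : (𝓞 F)[X] | Ht g B f ∧ ¬ Irreducible (fF f)} with hS₂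
  set S₃ := {f : (𝓞 F)[X] | Ht g B f ∧ ∃ (L : Type) (_ : Field L) (_ : NumberField L)
    (_ : Algebra F L) (θ : L), IsGen g f θ ∧ |(discr L : ℝ)| ≤ B} with hS₃
  have hsub : ExE F g B ε ⊆ S₁ ∪ S₂ ∪ S₃ := by
    rintro f ⟨hf1, hf2 | ⟨G, hG⟩⟩
    · exact Or.inl (Or.inr ⟨hf1, hf2⟩)
    · by_cases hB' : |(discr G.L : ℝ)| ≤ B
      · exact Or.inr ⟨hf1, G.L, inferInstance, inferInstance, inferInstance, G.θ, G.gen, hB'⟩
      · refine Or.inl (Or.inl ⟨hf1, G, ?_⟩)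
        refine le_trans ?_ hG.le
        exact Real.rpow_le_rpow hB0.le (not_le.1 hB').le hε.le
  have hcard : (ExE F g B ε).ncard ≤ S₁.ncard + S₂.ncard + S₃.ncard := by
    refine (Set.ncard_le_ncard hsub (((h5 _).union h7).union h9)).trans ?_
    exact (Set.ncard_union_le _ _).trans (Nat.add_le_add_right (Set.ncard_union_le _ _) _)
  have hcard' : ((ExE F g B ε).ncard : ℝ) ≤ S₁.ncard + S₂.ncard + S₃.ncard := by
    exact_mod_cast hcard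
  obtain ⟨Y, hY⟩ : ∃ Y : ℝ, Y = (B : ℝ) ^ (d * dd g) := ⟨_, rfl⟩
  have hY0 : 0 < Y := by rw [hY]; positivity
  have hη0 : 0 < (B : ℝ) ^ (-η) := Real.rpow_pos_of_pos hB0 _
  have t1 : (S₁.ncard : ℝ) ≤ C₁ * (B : ℝ) ^ (-η) * Y := by
    refine (h6 _ (Real.rpow_pos_of_pos hB0 ε)).trans (le_of_eq ?_)
    rw [← Real.rpow_mul hB0.le, hY]
    congr 3
    field_simp
  have t2 : (S₂.ncard : ℝ) ≤ C₂ * (B : ℝ) ^ (-η) * Y := by
    have e1 : (S₂.ncard : ℝ) * (B : ℝ) ^ (2 * g * d) ≤ C₂ * Y := by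
      rw [hY]
      exact_mod_cast h8
    have e2 : (B : ℝ) ^ η ≤ (B : ℝ) ^ (2 * g * d) := by
      rw [← Real.rpow_natCast]
      refine Real.rpow_le_rpow_of_exponent_le hBr (hη2.trans ?_)
      have : (1 : ℝ) ≤ ((2 * g * d : ℕ) : ℝ) := by
        have : 1 ≤ 2 * g * d := Nat.mul_pos (by omega) hd1
        exact_mod_cast this
      linarith
    have hBη : 0 < (B : ℝ) ^ η := Real.rpow_pos_of_pos hB0 _
    have e3 : (S₂.ncard : ℝ) * (B : ℝ) ^ η ≤ C₂ * Y :=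
      (mul_le_mul_of_nonneg_left e2 (Nat.cast_nonneg _)).trans e1
    rw [← le_div_iff₀ hBη] at e3
    refine e3.trans (le_of_eq ?_)
    rw [Real.rpow_neg hB0.le]
    field_simp
  have t3 : (S₃.ncard : ℝ) ≤ C₃ * (B : ℝ) ^ (-η) * Y := by
    refine h10.trans ?_
    rw [mul_assoc]
    refine mul_le_mul_of_nonneg_left ?_ hC₃.le
    rw [hY, ← Real.rpow_natCast, ← Real.rpow_add hB0]
    refine Real.rpow_le_rpow_of_exponent_le hBr ?_
    have e1 : (dd g : ℝ) = 2 * (g : ℝ) ^ 2 + 3 * g := by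
      have : dd g = 2 * g ^ 2 + 3 * g := rfl
      rw [this]
      push_cast
      ring
    have e2 : (1 : ℝ) ≤ g := by exact_mod_cast hg
    have e3 : (1 : ℝ) ≤ d := by exact_mod_cast hd1
    push_cast
    rw [e1]
    have e4 : (1 : ℝ) / 2 ≤ (g : ℝ) ^ 2 - g / 2 := by nlinarith
    have e5 : (1 : ℝ) / 2 ≤ d * ((g : ℝ) ^ 2 - g / 2) := by nlinarith
    nlinarith
  refine hcard'.trans ?_
  rw [← hY]
  linarith

end Pool.Agent.H459.CG
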