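import Pool.Agent.H459.UN.Stm
import Pool.Graph.R_pool_sql_team_seeded_63374d34.N783.PF.Lat
import Pool.Graph.R_pool_sql_team_seeded_63374d34.N352.PF.Cnt
import Pool.Graph.R_pool_sql_team_seeded_620a6dc7.Helper313SN.Lower

/-!
# Project CG (helper459): 2-torsion in class groups of extensions of odd degree: statements
-/

set_option autoImplicit false
set_option linter.all false

open Polynomial IsDedekindDomain NumberField
open scoped Classical IntermediateField

namespace Pool.Agent.H459.CG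

open Pool.Agent.H459.UN (Hw)
open Pool.Agent.N352.PJ (dd pol dis)
open Pool.Agent.N352.PF (dg Bz)
open Pool.Agent.N783.PF (Ht IsGen fF)

/-- **S_IDXG** (index of `Lˣ² O_w[θ]ˣ`; the case `g = 1` is `S_IDX`, `UN/Bidx.lean`).

Proof. That of `UN/Bidx.lean` (helper679) with `[L : F] = 2 g + 1` in place of `3`: at most `2 g + 1` primes of `L`
over `w`, so `2 ^ (2 g + 1)` parities and `2 ^ (2 g + 1)` square classes of units modulo the primes over `w ∤ 2`; and
`N(4 w) ^ (2 g + 1) ≤ 2 ^ (3 (2 g + 1) [F : ℚ])` classes modulo `4 w` for `w ∣ 2`. -/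
def S_IDXG : Prop := ∀ (F : Type) [Field F] [NumberField F] (g : ℕ), ∃ C : ℕ,
  ∀ (L : Type) [Field L] [NumberField L] [Algebra F L] (θ : L) (w : HeightOneSpectrum (𝓞 F)),
  IsIntegral (𝓞 F) θ → F⟮θ⟯ = ⊤ → Module.finrank F L = 2 * g + 1 → (Hw θ w).index ≠ 0 ∧
    ((2 : 𝓞 F) ∉ w.asIdeal → (Hw θ w).index ≤ 4 ^ (2 * g + 1)) ∧
    ((2 : 𝓞 F) ∈ w.asIdeal → (Hw θ w).index ≤ C)

/-- The primes whose square divides the discriminant. -/
def Zd {F : Type} [Field F] [NumberField F] {g : ℕ} (a : Fin (2 * g) → 𝓞 F) :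
    Set (HeightOneSpectrum (𝓞 F)) :=
  {w | dis a ∈ w.asIdeal ^ 2}

/-- **S_EXPG** (exponential moments of the number of the primes whose square divides the discriminant; the case
`g = 1` is `UN/Bexpz.lean`, helper400, from which most can be taken). `a` are the coefficients of the monic polynomial
`pol a` of degree `2 g + 1` without term of degree `2 g`, `Bz F g B` is the box of height `B`
(`|σ (a j)| ≤ B ^ (2 g + 1 - j)`), `dis a` the discriminant, `dd g = 2 g ^ 2 + 3 g`, `dg F = [F : ℚ]`.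

Proof. Use `S_LD` (`Pool.Agent.N189.PF.ld`: proportion of the residues modulo `w ^ 2` with `dis a = 0` is at most
`c_g / N(w) ^ 2` for `w ∤ (2 g + 1)!`), `S_CU` (`Pool.Agent.N75.PF.cu`: lattice points in residue classes) and, if
wanted, `S_PR` (`Pool.Agent.N195.PF.pr`) and `S_PF` (`N352/PF/All.lean`). `d = [F : ℚ]`. (1) `|σ (dis a)| ≤ C_g B ^ (m)` with
`m = 2 g (2 g + 1)` for all `σ` (any exponent `m` depending on `g` only is fine), so
`∏ w ∈ Zd a, N(w) ^ 2 ≤ |N (dis a)| ≤ (C_g B ^ m) ^ d`. Hence (`B ≥ 2`) the number of the `w ∈ Zd a` with `N(w) > B ^ d` is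
bounded, and so is the number of the `w` dividing `(2 g + 1)!`; let `Z'` be the set of the other `w ∈ Zd a`, and
`k = #Z'`. (2) for a suitable constant `M` (with `(C_g B ^ m) ^ d ≤ B ^ (2 M d)` for `B ≥ 2`) there is a subset `S ⊆ Z'` with
`k ≤ M #S + M` and `N(S) = ∏ w ∈ S, N(w) ≤ B ^ d` (`exists_small` in `UN/Bexpz.lean`). So
`A ^ #(Zd a) ≤ C ∑ S, (A ^ M) ^ #S`, the sum over the finite sets `S ⊆ Z'` with `N(S) ≤ B ^ d`. (3) For each `S` the number
of `a ∈ Bz F g B` with `S ⊆ Zd a` is at most the number of classes modulo `𝔡 ^ 2`, `𝔡 = ∏ w ∈ S, w` (at most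
`∏ w ∈ S, c_g N(w) ^ (4 g - 2)` by S_LD and the Chinese remainder theorem) times
`∏ j, C (B ^ ((2 g + 1 - j) d) / N(𝔡) ^ 2 + 1) ≤ ∏ j, 2 C B ^ ((2 g + 1 - j) d) / N(𝔡) ^ 2`, since the exponents
`2 g + 1 - j`, `j < 2 g`, are at least two and `N(𝔡) ≤ B ^ d`: together at most
`(2 C) ^ (2 g) c_g ^ #S B ^ (d dd g) / N(S) ^ 2`. (4) `∑ S, (c_g A ^ M) ^ #S / N(S) ^ 2` over the subsets `S` of the finite
set of the primes with `N(w) ≤ B ^ d` is at most `∏ w, (1 + c / N(w) ^ 2) ≤ exp (c ∑ w, 1 / N(w) ^ 2)`. `B = 1`: only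
finitely many `a`. -/
def S_EXPG : Prop := ∀ (F : Type) [Field F] [NumberField F] (g A : ℕ), 1 ≤ g → ∃ C : ℕ, ∀ B : ℕ, 1 ≤ B →
  ∀ T : Finset (Fin (2 * g) → 𝓞 F), (∀ a ∈ T, a ∈ Bz F g B ∧ dis a ≠ 0) →
  (∀ a ∈ T, (Zd a).Finite) ∧ ∑ a ∈ T, A ^ (Zd a).ncard ≤ C * B ^ (dg F * dd g)

/-- **S_REDG** (few reducible polynomials).

Proof. If `pol a` is reducible over `F`, then `pol a = p q` with `p, q ∈ 𝓞 F[X]` monic of degrees `m ≥ 1` and
`2 g + 1 - m ≥ 1` (`𝓞 F` is integrally closed: `Polynomial.Monic.irreducible_iff_irreducible_map_fraction_map`,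
`IsIntegrallyClosed`). The complex roots of `σ (pol a)` are at most `2 B` in absolute value
(`|a j| ≤ B ^ (2 g + 1 - j)`), so `|σ (p_j)| ≤ (4 B) ^ (m - j)` for the coefficients of `p` (products of roots; Mathlib has
`Polynomial.coeff_le_of_roots_le` or similar), and the same for `q`. The vanishing of the coefficient of
`X ^ (2 g)`: `q_(n-m-1) = - p_(m-1)`, so `q_(n-m-1)` is determined by `p` (`n = 2 g + 1`). By the number of the integers in
a box (`S_CU`, `Pool.Agent.N75.PF.cu`, with `I = ⊤`: at most `C (T ^ d + 1)` elements with all conjugates at most `T`) the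
number of the pairs `(p, q)` is at most `C B ^ (d e)`, `e = m (m + 1) / 2 + (n - m) (n - m + 1) / 2 - 1`, and
`dd g - e = n (n + 1) / 2 - 1 - e = m (n - m) ≥ n - 1 = 2 g`. Sum over `m`. -/
def S_REDG : Prop := ∀ (F : Type) [Field F] [NumberField F] (g : ℕ), 1 ≤ g → ∃ C : ℕ, ∀ B : ℕ, 1 ≤ B →
  (Bz F g B).Finite ∧
  {a ∈ Bz F g B | ¬ Irreducible ((pol a).map (algebraMap (𝓞 F) F))}.ncard * B ^ (2 * g * dg F) ≤
    C * B ^ (dg F * dd g)

/-- **S_CLG** (2-torsion in the class group of an extension `L / F` of odd degree). `V` is the group of the elements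
of square norm whose valuations are all even.

Proof. For a class `c` of `𝓞 L` with `c ^ 2 = 1` choose an ideal `I` in `c` and `α` with `I ^ 2 = (α)`, and put
`Φ c = N(α) α`, `N = N_(L/F)`. `N(Φ c) = N(α) ^ (n + 1)` is a square (`n = [L : F]` is odd), the valuations of `α` are
even, and so are those of `N(α)` at the primes of `F` (`(N(α)) = N(I) ^ 2`, relative norm of ideals,
`Ideal.relNorm` in Mathlib) and at the primes of `L` (an element of `F` with even valuations: `(N(α)) 𝓞 L` is the square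
of `N(I) 𝓞 L`). So `Φ c ∈ V`. If `Φ c` and `Φ c'` are in the same class modulo squares, `N(α) α = N(α') α' γ ^ 2`, then
`α α' = N(α) N(α') δ ^ 2` with `δ = γ α' / N(α)`, so `(I I') ^ 2 = (N(I) N(I')) ^ 2 (δ) ^ 2`, `I I' = N(I) N(I') 𝓞 L (δ)`
(fractional ideals; unique factorisation: a square determines the ideal), so the class `c c'` is the image of the
class of `N(I) N(I')` under the map `Cl F → Cl L`. So every fibre of `c ↦ [Φ c] ∈ V / squares` has at most `#Cl F`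
elements. -/
def S_CLG : Prop := ∀ (F L : Type) [Field F] [NumberField F] [Field L] [NumberField L] [Algebra F L],
  Odd (Module.finrank F L) → ∀ V : Subgroup Lˣ,
  (∀ x : Lˣ, x ∈ V ↔ IsSquare (Algebra.norm F (x : L)) ∧
    ∀ 𝔓 : HeightOneSpectrum (𝓞 L), ∃ y : L, 𝔓.valuation L (x : L) = 𝔓.valuation L y ^ 2) →
  ((powMonoidHom 2 : Lˣ →* Lˣ).range).relIndex V ≠ 0 →
  Nat.card {c : ClassGroup (𝓞 L) // c ^ 2 = 1} ≤
    Nat.card (ClassGroup (𝓞 F)) * ((powMonoidHom 2 : Lˣ →* Lˣ).range).relIndex V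

open Pool.Agent.Helper313LB Pool.Agent.Helper313SN Filter in
/-- **S_FLDP** (many extensions with full symmetric group and a property `P` which holds for most generators).

Proof. Those of `SF_le` (Helper313SN/Cnt.lean), `exists_le_ncard_EF` and `full_lower` (Helper313SN/Lower.lean), where
`SF F Ω n H` is replaced by `{α ∈ SF F Ω n H | P F⟮α⟯}` and `EF F Ω n H` by its image. If `c₁` is the constant in
`exists_le_ncard_SF`, take `c₀ = c₁ / 2`: then `{α ∈ SF F Ω n H | P F⟮α⟯}` has at least `(c₁ / 2) H ^ (d ex n)`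
elements. -/
def S_FLDP : Prop := ∀ (F Ω : Type) [Field F] [NumberField F] [Field Ω] [CharZero Ω] [Algebra F Ω]
  [IsAlgClosed Ω] [Normal F Ω] (n : ℕ), 3 ≤ n → ∃ c₀ : ℝ, 0 < c₀ ∧
  ∀ P : IntermediateField F Ω → Prop, (∃ H₁ : ℝ, ∀ H ≥ H₁,
    ({α ∈ SF F Ω n H | ¬ P F⟮α⟯}.ncard : ℝ) ≤ c₀ * H ^ (Module.finrank ℚ F * ex n)) →
  ∃ c : ℝ, 0 < c ∧ ∀ᶠ X : ℝ in atTop,
    c * X ^ (1 / 2 + 1 / n : ℝ) ≤ ({L ∈ FullFld F Ω n X | P L}.ncard : ℝ)

open Pool.Agent.Helper313LB Pool.Agent.Helper313SN in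
/-- **S_POLA** (the polynomial of a small generator).

Proof. `f` is the minimal polynomial over `𝓞 F` (`S_coeff` in Helper313LB/Up.lean gives its coefficients in `𝓞 F` and
the bounds `|σ (f_j)| ≤ H ^ (n - j) 2 ^ n ≤ (2 ^ n H) ^ (n - j)`, `n = 2 g + 1`, `j < n`). -/
def S_POLA : Prop := ∀ (F Ω : Type) [Field F] [NumberField F] [Field Ω] [CharZero Ω] [Algebra F Ω]
  [IsAlgClosed Ω] (g : ℕ), 1 ≤ g → ∀ H : ℝ, 1 ≤ H → ∀ α ∈ S F Ω (2 * g + 1) H,
  ∃ f : (𝓞 F)[X], Ht g ⌈(2 : ℝ) ^ (2 * g + 1) * H⌉₊ f ∧ fF f = minpoly F α ∧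
  ∀ [NumberField F⟮α⟯], IsGen g f (IntermediateField.AdjoinSimple.gen F α)

end Pool.Agent.H459.CG
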