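import Mathlib
import Pool.Agent.H459.CG.Stm
import Pool.Agent.H459.UN.Bexpz
import Pool.Graph.R_pool_sql_team_seeded_63374d34.N189.PF.LD

/-!
# Exponential moments of the number of primes whose square divides the discriminant
(part EXPG of project CG, helper459; the case `g = 1` is by helper400)
-/

set_option autoImplicit false
set_option linter.all false

open Polynomial IsDedekindDomain NumberField
open scoped Classical

namespace Pool.Agent.H788.CG

open Pool.Agent.H459.CG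
open Pool.Agent.N352.PJ (dd pol dis)
open Pool.Agent.N352.PF (dg Bz nv S_LD Bal)
open Pool.Agent.N783.PF (Bd)
open Pool.Agent.H400.UN (exists_small card_le_fibres mem_prod)
open Pool.Agent.H282.UN (prod_norm_le absNorm_pos sum_inv_sq)

/-! ### The size of the discriminant -/

theorem coeff_pol {g : ℕ} (a : Fin (2 * g) → ℂ) (i : ℕ) :
    (pol a).coeff i = (if i = 2 * g + 1 then 1 else 0) + ∑ j : Fin (2 * g), if i = (j : ℕ) then a j
      else 0 := by
  unfold pol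
  rw [coeff_add, coeff_X_pow, finsetSum_coeff]
  simp only [coeff_C_mul_X_pow]

theorem norm_coeff_pol {g : ℕ} (a : Fin (2 * g) → ℂ) {R : ℝ} (hR : 1 ≤ R) (ha : ∀ j, ‖a j‖ ≤ R)
    (i : ℕ) : ‖(pol a).coeff i‖ ≤ (2 * g + 1) * R := by
  rw [coeff_pol]
  refine (norm_add_le _ _).trans ?_
  have h1 : ‖(if i = 2 * g + 1 then 1 else 0 : ℂ)‖ ≤ R := by
    split_ifs
    · rwa [norm_one]
    · rw [norm_zero]; linarith
  have h2 : ‖∑ j : Fin (2 * g), if i = (j : ℕ) then a j else 0‖ ≤ 2 * g * R := by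
    refine (norm_sum_le _ _).trans ?_
    have h3 : ∀ j ∈ (Finset.univ : Finset (Fin (2 * g))), ‖if i = (j : ℕ) then a j else 0‖ ≤ R := by
      intro j _
      split_ifs
      · exact ha j
      · rw [norm_zero]; linarith
    refine (Finset.sum_le_sum h3).trans (le_of_eq ?_)
    rw [Finset.sum_const, Finset.card_univ, Fintype.card_fin, nsmul_eq_mul]
    push_cast
    ring
  linarith

theorem norm_coeff_der {g : ℕ} (a : Fin (2 * g) → ℂ) {R : ℝ} (hR : 1 ≤ R) (ha : ∀ j, ‖a j‖ ≤ R)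
    (i : ℕ) : ‖(derivative (pol a)).coeff i‖ ≤ (2 * g + 1) ^ 2 * R := by
  rw [coeff_derivative, norm_mul]
  have h0 : ‖((i : ℂ) + 1)‖ = (i : ℝ) + 1 := by
    have : ((i : ℂ) + 1) = ((i + 1 : ℕ) : ℂ) := by push_cast; rfl
    rw [this, Complex.norm_natCast]
    push_cast
    rfl
  rw [h0]
  rcases Nat.lt_or_ge (2 * g) i with hi | hi
  · have h1 : (pol a).coeff (i + 1) = 0 := by
      rw [coeff_pol, if_neg (by omega), zero_add]
      refine Finset.sum_eq_zero fun j _ => ?_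
      rw [if_neg]
      have := j.2
      omega
    rw [h1, norm_zero, zero_mul]
    positivity
  · have h1 := norm_coeff_pol a hR ha (i + 1)
    have h2 : (i : ℝ) + 1 ≤ 2 * g + 1 := by
      have : (i : ℝ) ≤ 2 * g := by exact_mod_cast hi
      linarith
    calc ‖(pol a).coeff (i + 1)‖ * ((i : ℝ) + 1) ≤ ((2 * g + 1) * R) * (2 * g + 1) :=
          mul_le_mul h1 h2 (by positivity) (by positivity)
      _ = (2 * g + 1) ^ 2 * R := by ring

theorem norm_dis {g : ℕ} (a : Fin (2 * g) → ℂ) {R : ℝ} (hR : 1 ≤ R) (ha : ∀ j, ‖a j‖ ≤ R) :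
    ‖dis a‖ ≤ ((2 * g + 1 + 2 * g).factorial : ℝ) * ((2 * g + 1) ^ 2 * R) ^ (2 * g + 1 + 2 * g) := by
  have h := Matrix.det_le (A := sylvester (pol a) (derivative (pol a)) (2 * g + 1) (2 * g))
    (abv := NormedField.toAbsoluteValue ℂ) (x := (2 * g + 1) ^ 2 * R) (by
      intro i j
      change ‖(sylvester (pol a) (derivative (pol a)) (2 * g + 1) (2 * g) i j : ℂ)‖ ≤ _
      have h0 : (0 : ℝ) ≤ (2 * g + 1) ^ 2 * R := by positivity
      have h1 : (2 * g + 1) * R ≤ (2 * g + 1) ^ 2 * R := by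
        refine mul_le_mul_of_nonneg_right ?_ (by linarith)
        have : (1 : ℝ) ≤ 2 * g + 1 := by
          have := Nat.cast_nonneg (α := ℝ) g
          linarith
        nlinarith
      unfold sylvester
      rw [Matrix.of_apply]
      refine Fin.addCases (fun j₁ => ?_) (fun j₁ => ?_) j
      · rw [Fin.addCases_left]
        split_ifs
        · exact norm_coeff_der a hR ha _
        · rwa [norm_zero]
      · rw [Fin.addCases_right]
        split_ifs
        · exact (norm_coeff_pol a hR ha _).trans h1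
        · rwa [norm_zero])
  rw [Fintype.card_fin, nsmul_eq_mul] at h
  exact h

/-- the conjugates of the discriminant -/
theorem bd_dis (g : ℕ) : ∃ C m : ℕ, 1 ≤ C ∧ ∀ (F : Type) [Field F] [NumberField F]
    (a : Fin (2 * g) → 𝓞 F) (B : ℕ), 1 ≤ B → a ∈ Bz F g B → Bd ((dis a : 𝓞 F) : F) (C * (B : ℝ) ^ m) := by
  refine ⟨(2 * g + 1 + 2 * g).factorial * ((2 * g + 1) ^ 2) ^ (2 * g + 1 + 2 * g),
    (2 * g + 1) * (2 * g + 1 + 2 * g), Nat.succ_le_of_lt (by positivity), ?_⟩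
  intro F _ _ a B hB ha σ
  have hB1 : (1 : ℝ) ≤ B := by exact_mod_cast hB
  have h1 : σ ((dis a : 𝓞 F) : F) = dis (fun j => σ (a j : F)) :=
    Pool.Agent.N568.PJ.dis_map (σ.comp (algebraMap (𝓞 F) F)) a
  rw [h1]
  refine (norm_dis _ (R := (B : ℝ) ^ (2 * g + 1)) (one_le_pow₀ hB1) fun j => ?_).trans
    (le_of_eq ?_)
  · have h2 := ha j σ
    refine h2.trans ?_
    push_cast
    exact pow_le_pow_right₀ hB1 (by omega)
  · push_cast
    rw [mul_pow, ← pow_mul]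
    ring

section

variable {F : Type} [Field F] [NumberField F]

/-- distinct primes of large norm whose squares divide a bounded integer -/
theorem large (W : Finset (HeightOneSpectrum (𝓞 F))) (x : 𝓞 F) (hx : x ≠ 0) (B C m : ℕ)
    (hB : 1 ≤ B) (hC : 1 ≤ C) (h : ∀ w ∈ W, x ∈ w.asIdeal ^ 2)
    (hb : Bd (x : F) (C * (B : ℝ) ^ m))
    (hl : ∀ w ∈ W, (B : ℝ) ^ Module.finrank ℚ F ≤ Ideal.absNorm w.asIdeal) :
    W.card ≤ m + C * Module.finrank ℚ F := by
  set d := Module.finrank ℚ F with hd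
  by_contra hcon
  push Not at hcon
  have h1 := prod_norm_le W 2 x hx h hb
  rw [← hd] at h1
  have hB1 : (1 : ℝ) ≤ B := by exact_mod_cast hB
  have hBd : (1 : ℝ) ≤ (B : ℝ) ^ d := one_le_pow₀ hB1
  have h2 : (2 * (B : ℝ) ^ d) ^ W.card ≤ ∏ w ∈ W, (Ideal.absNorm w.asIdeal : ℝ) ^ 2 := by
    rw [← Finset.prod_const]
    refine Finset.prod_le_prod (fun _ _ => by positivity) fun w hw => ?_
    have h3 := hl w hw
    have h4 : (2 : ℝ) ≤ Ideal.absNorm w.asIdeal := by exact_mod_cast absNorm_pos w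
    nlinarith
  have h3 := h2.trans h1
  rw [mul_pow, mul_pow] at h3
  have h4 : ((B : ℝ) ^ d) ^ m ≤ ((B : ℝ) ^ d) ^ W.card := pow_le_pow_right₀ hBd (by omega)
  have h5 : ((B : ℝ) ^ m) ^ d = ((B : ℝ) ^ d) ^ m := by rw [← pow_mul, ← pow_mul, mul_comm]
  rw [h5] at h3
  have h6 : (0 : ℝ) < ((B : ℝ) ^ d) ^ m := by positivity
  have h7 : (2 : ℝ) ^ W.card * ((B : ℝ) ^ d) ^ m ≤ (C : ℝ) ^ d * ((B : ℝ) ^ d) ^ m :=
    (mul_le_mul_of_nonneg_left h4 (by positivity)).trans h3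
  have h8 : (2 : ℝ) ^ W.card ≤ (C : ℝ) ^ d := le_of_mul_le_mul_right h7 h6
  have h9 : (C : ℝ) ^ d ≤ (2 : ℝ) ^ (C * d) := by
    rw [pow_mul]
    refine pow_le_pow_left₀ (Nat.cast_nonneg _) ?_ d
    exact_mod_cast (Nat.lt_two_pow_self (n := C)).le
  have h10 := h8.trans h9
  rw [pow_le_pow_iff_right₀ one_lt_two] at h10
  omega

theorem sum_exp (g : ℕ) : ∑ j : Fin (2 * g), (2 * g + 1 - (j : ℕ)) = dd g := by
  rw [Fin.sum_univ_eq_sum_range (fun j => 2 * g + 1 - j) (2 * g)]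
  have h1 : ∑ j ∈ Finset.range (2 * g), (2 * g + 1 - j) + ∑ j ∈ Finset.range (2 * g), j =
      2 * g * (2 * g + 1) := by
    rw [← Finset.sum_add_distrib]
    rw [Finset.sum_congr rfl (g := fun _ => 2 * g + 1)]
    · rw [Finset.sum_const, Finset.card_range, smul_eq_mul]
    · intro j hj
      have := Finset.mem_range.1 hj
      omega
  have h2 : (∑ j ∈ Finset.range (2 * g), j) * 2 = 2 * g * (2 * g - 1) :=
    Finset.sum_range_id_mul_two (2 * g)
  unfold dd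
  rcases Nat.eq_zero_or_pos g with rfl | hg
  · simp
  · obtain ⟨k, rfl⟩ : ∃ k, g = k + 1 := ⟨g - 1, by omega⟩
    have h3 : 2 * (k + 1) - 1 = 2 * k + 1 := by omega
    rw [h3] at h2
    nlinarith

theorem arith {g : ℕ} {C0 B Nw s e t : ℝ} {d : ℕ} (hC0 : 0 < C0) (hB1 : 1 ≤ B) (hN0 : 0 < Nw)
    (hw : Nw ≤ B ^ d)
    (hs : s ≤ e * ∏ j : Fin (2 * g), (C0 * ((B ^ (2 * g + 1 - (j : ℕ))) ^ d / Nw ^ 2 + 1)))
    (he : e ≤ t * Nw ^ (4 * g)) (ht : 0 ≤ t) :
    s ≤ (2 * C0) ^ (2 * g) * B ^ (d * dd g) * t := by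
  have hB0 : 0 < B := by linarith
  have hN2p : 0 < Nw ^ 2 := by positivity
  have h1 : ∀ j : Fin (2 * g), C0 * ((B ^ (2 * g + 1 - (j : ℕ))) ^ d / Nw ^ 2 + 1) ≤
      (2 * C0 / Nw ^ 2) * (B ^ d) ^ (2 * g + 1 - (j : ℕ)) := by
    intro j
    have hj := j.2
    have hNB : Nw ^ 2 ≤ (B ^ (2 * g + 1 - (j : ℕ))) ^ d := by
      have h2 : Nw ^ 2 ≤ (B ^ 2) ^ d := by
        rw [← pow_mul, mul_comm 2 d, pow_mul]
        exact pow_le_pow_left₀ hN0.le hw 2
      refine h2.trans ?_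
      rw [← pow_mul, ← pow_mul]
      refine pow_le_pow_right₀ hB1 ?_
      exact Nat.mul_le_mul_right d (by omega)
    have h3 : 1 ≤ (B ^ (2 * g + 1 - (j : ℕ))) ^ d / Nw ^ 2 := (one_le_div hN2p).2 hNB
    have h4 : (B ^ (2 * g + 1 - (j : ℕ))) ^ d = (B ^ d) ^ (2 * g + 1 - (j : ℕ)) := by
      rw [← pow_mul, ← pow_mul, mul_comm]
    rw [h4] at h3 ⊢
    calc C0 * ((B ^ d) ^ (2 * g + 1 - (j : ℕ)) / Nw ^ 2 + 1) ≤
        C0 * ((B ^ d) ^ (2 * g + 1 - (j : ℕ)) / Nw ^ 2 +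
          (B ^ d) ^ (2 * g + 1 - (j : ℕ)) / Nw ^ 2) := by
          refine mul_le_mul_of_nonneg_left ?_ hC0.le
          linarith
      _ = _ := by ring
  have h2 : ∏ j : Fin (2 * g), (C0 * ((B ^ (2 * g + 1 - (j : ℕ))) ^ d / Nw ^ 2 + 1)) ≤
      (2 * C0 / Nw ^ 2) ^ (2 * g) * B ^ (d * dd g) := by
    refine (Finset.prod_le_prod (fun j _ => by positivity) fun j _ => h1 j).trans (le_of_eq ?_)
    rw [Finset.prod_mul_distrib, Finset.prod_const, Finset.card_univ, Fintype.card_fin,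
      Finset.prod_pow_eq_pow_sum, sum_exp, pow_mul B d (dd g)]
  have h3 : 0 ≤ (2 * C0 / Nw ^ 2) ^ (2 * g) * B ^ (d * dd g) := by positivity
  refine hs.trans ((mul_le_mul he h2 (Finset.prod_nonneg fun j _ => by positivity)
    (by positivity)).trans (le_of_eq ?_))
  have h4 : Nw ^ (4 * g) = (Nw ^ 2) ^ (2 * g) := by
    rw [← pow_mul]
    congr 1
    ring
  rw [h4, div_pow]
  field_simp

/-- the tuples whose discriminant is divisible by the squares of all primes in `W` -/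
theorem classesW (h : S_LD) {g : ℕ} (hg : 1 ≤ g) {C0 : ℝ} (hC0 : 0 < C0)
    (hpts : ∀ (𝔞 : Ideal (𝓞 F)) (b : 𝓞 F) (R : ℝ), 𝔞 ≠ ⊥ → 0 ≤ R →
      {a : 𝓞 F | a - b ∈ 𝔞 ∧ Bd (a : F) R}.Finite ∧
      (({a : 𝓞 F | a - b ∈ 𝔞 ∧ Bd (a : F) R}.ncard : ℝ)) ≤
        C0 * (R ^ Module.finrank ℚ F / (Ideal.absNorm 𝔞 : ℝ) + 1))
    (B : ℕ) (hB : 1 ≤ B) (T : Finset (Fin (2 * g) → 𝓞 F))
    (hT : ∀ a ∈ T, ∀ j, Bd (a j : F) ((B : ℝ) ^ (2 * g + 1 - (j : ℕ))))
    (W : Finset (HeightOneSpectrum (𝓞 F)))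
    (h6 : ∀ w ∈ W, ((2 * g + 1).factorial : 𝓞 F) ∉ w.asIdeal)
    (hw : ∏ w ∈ W, (Ideal.absNorm w.asIdeal : ℝ) ≤ (B : ℝ) ^ Module.finrank ℚ F) :
    ((T.filter (fun a => ∀ w ∈ W, dis a ∈ w.asIdeal ^ 2)).card : ℝ) ≤
      (2 * C0) ^ (2 * g) * (B : ℝ) ^ (Module.finrank ℚ F * dd g) *
        ∏ w ∈ W, ((2 * g + 2 * g * (2 * g - 1) * (2 * g + 1) : ℕ) /
          (Ideal.absNorm w.asIdeal : ℝ) ^ 2) := by
  set d := Module.finrank ℚ F with hd
  obtain ⟨cg, hcg⟩ : ∃ cg : ℕ, cg = 2 * g + 2 * g * (2 * g - 1) * (2 * g + 1) := ⟨_, rfl⟩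
  rw [← hcg]
  set I : Ideal (𝓞 F) := ∏ w ∈ W, w.asIdeal ^ 2 with hI
  have hI0 : I ≠ ⊥ := by
    rw [hI, ← Ideal.zero_eq_bot]
    exact Finset.prod_ne_zero_iff.2 fun w _ => pow_ne_zero 2 w.ne_bot
  obtain ⟨Nw, hNw⟩ : ∃ Nw : ℝ, Nw = ∏ w ∈ W, (Ideal.absNorm w.asIdeal : ℝ) := ⟨_, rfl⟩
  rw [← hNw] at hw
  have hNp : ∀ w : HeightOneSpectrum (𝓞 F), (0 : ℝ) < Ideal.absNorm w.asIdeal := fun w => by
    have := absNorm_pos w
    exact_mod_cast (show 0 < Ideal.absNorm w.asIdeal by omega)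
  have hN0 : 0 < Nw := by
    rw [hNw]
    exact Finset.prod_pos fun w _ => hNp w
  have hNI : (Ideal.absNorm I : ℝ) = Nw ^ 2 := by
    rw [hI, map_prod, hNw, ← Finset.prod_pow]
    push_cast [map_pow]
    rfl
  have hB1 : (1 : ℝ) ≤ B := by exact_mod_cast hB
  have hfin : ∀ w : HeightOneSpectrum (𝓞 F), Finite (𝓞 F ⧸ w.asIdeal ^ 2) := fun w =>
    Ideal.finiteQuotientOfFreeOfNeBot _ (pow_ne_zero 2 w.ne_bot)
  let f : (Fin (2 * g) → 𝓞 F) → ((w : W) → Fin (2 * g) →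
      (𝓞 F ⧸ (w : HeightOneSpectrum (𝓞 F)).asIdeal ^ 2)) := fun a w j =>
    Ideal.Quotient.mk _ (a j)
  set S := T.filter (fun a => ∀ w ∈ W, dis a ∈ w.asIdeal ^ 2) with hS
  -- the number of classes
  set E : Set ((w : W) → Fin (2 * g) → (𝓞 F ⧸ (w : HeightOneSpectrum (𝓞 F)).asIdeal ^ 2)) :=
    {c | ∀ w, dis (c w) = 0} with hE
  have hEf : E.Finite := Set.toFinite _
  have hone : ∀ w ∈ W, ((Nat.card {c : Fin (2 * g) → (𝓞 F ⧸ w.asIdeal ^ 2) // dis c = 0} : ℕ) : ℝ) ≤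
      cg / (Ideal.absNorm w.asIdeal : ℝ) ^ 2 * (Ideal.absNorm w.asIdeal : ℝ) ^ (4 * g) := by
    intro w hwW
    have h1 := h F g w hg (h6 w hwW)
    rw [← hcg] at h1
    have h2 : Nat.card {c : Fin (2 * g) → (𝓞 F ⧸ w.asIdeal ^ 2) // dis c = 0} =
        {c : Fin (2 * g) → (𝓞 F ⧸ w.asIdeal ^ 2) | dis c = 0}.ncard := Nat.card_coe_set_eq _
    rw [h2]
    have h3 : (({c : Fin (2 * g) → (𝓞 F ⧸ w.asIdeal ^ 2) | dis c = 0}.ncard : ℕ) : ℝ) *
        (Ideal.absNorm w.asIdeal : ℝ) ^ 2 ≤ cg * (Ideal.absNorm w.asIdeal : ℝ) ^ (4 * g) := by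
      exact_mod_cast h1
    have h4 := hNp w
    rw [div_mul_eq_mul_div, le_div_iff₀ (by positivity)]
    exact h3
  have himg : (E.ncard : ℝ) ≤ (∏ w ∈ W, (cg / (Ideal.absNorm w.asIdeal : ℝ) ^ 2)) * Nw ^ (4 * g) := by
    have e : E.ncard =
        ∏ w : W, Nat.card {c : Fin (2 * g) →
          (𝓞 F ⧸ (w : HeightOneSpectrum (𝓞 F)).asIdeal ^ 2) // dis c = 0} := by
      rw [hE, ← Nat.card_coe_set_eq, ← Nat.card_pi]
      exact Nat.card_congr (Equiv.subtypePiEquivPi (p := fun (w : W)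
        (c : Fin (2 * g) → (𝓞 F ⧸ (w : HeightOneSpectrum (𝓞 F)).asIdeal ^ 2)) => dis c = 0))
    rw [e]
    push_cast
    have h2 : (∏ w : W, ((Nat.card {c : Fin (2 * g) →
          (𝓞 F ⧸ (w : HeightOneSpectrum (𝓞 F)).asIdeal ^ 2) // dis c = 0} : ℕ) : ℝ)) ≤
        ∏ w : W, (cg / (Ideal.absNorm (w : HeightOneSpectrum (𝓞 F)).asIdeal : ℝ) ^ 2 *
          (Ideal.absNorm (w : HeightOneSpectrum (𝓞 F)).asIdeal : ℝ) ^ (4 * g)) :=
      Finset.prod_le_prod (fun _ _ => Nat.cast_nonneg _) fun w _ => hone w w.2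
    refine h2.trans (le_of_eq ?_)
    rw [Finset.prod_coe_sort W (fun w => (cg / (Ideal.absNorm w.asIdeal : ℝ) ^ 2 *
      (Ideal.absNorm w.asIdeal : ℝ) ^ (4 * g))), Finset.prod_mul_distrib, Finset.prod_pow, hNw]
  -- the number of tuples
  have hcount : (S.card : ℝ) ≤ E.ncard *
      ∏ j : Fin (2 * g), (C0 * (((B : ℝ) ^ (2 * g + 1 - (j : ℕ))) ^ d / Nw ^ 2 + 1)) := by
    refine card_le_fibres S f E hEf ?_ _ (Finset.prod_nonneg fun j _ => by positivity) ?_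
    · intro a ha w
      have ha2 : dis a ∈ (w : HeightOneSpectrum (𝓞 F)).asIdeal ^ 2 :=
        (Finset.mem_filter.1 ha).2 w w.2
      have h3 := Ideal.Quotient.eq_zero_iff_mem.2 ha2
      rw [Pool.Agent.N568.PJ.dis_map] at h3
      exact h3
    · intro q hq
      choose fq nq using fun j : Fin (2 * g) =>
        hpts I (q j) ((B : ℝ) ^ (2 * g + 1 - (j : ℕ))) hI0 (by positivity)
      refine ⟨(Fintype.piFinset fun j => (fq j).toFinset : Finset (Fin (2 * g) → 𝓞 F)),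
        Finset.finite_toSet _, ?_, ?_⟩
      · intro a haS haf
        have haT := hT a (Finset.mem_filter.1 haS).1
        rw [Finset.mem_coe, Fintype.mem_piFinset]
        intro j
        rw [Set.Finite.mem_toFinset]
        refine ⟨?_, haT j⟩
        refine mem_prod W _ fun w hw => ?_
        have := congrFun (congrFun haf ⟨w, hw⟩) j
        exact Ideal.Quotient.eq.1 this
      · rw [Set.ncard_coe_finset, Fintype.card_piFinset]
        push_cast
        refine Finset.prod_le_prod (fun _ _ => Nat.cast_nonneg _) fun j _ => ?_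
        rw [← Set.ncard_eq_toFinset_card _ (fq j), ← hNI]
        exact nq j
  exact arith hC0 hB1 hN0 hw hcount himg (Finset.prod_nonneg fun w _ => by positivity)

end

/-- EXPG: exponential moments of the number of primes whose square divides the discriminant. -/
theorem expg_aux (h : S_LD) : S_EXPG := by
  intro F _ _ g A₀ hg
  set d := Module.finrank ℚ F with hd
  set A : ℕ := A₀ + 1 with hA
  obtain ⟨-, C0, hC0, -, hpts⟩ := Pool.Agent.N490.PF.pts F
  obtain ⟨c, hc, hsum⟩ := sum_inv_sq F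
  obtain ⟨C1, m, hC1, hdis⟩ := bd_dis g
  obtain ⟨cg, hcg⟩ : ∃ cg : ℕ, cg = 2 * g + 2 * g * (2 * g - 1) * (2 * g + 1) := ⟨_, rfl⟩
  set M : ℕ := C1 + m with hM
  have hM1 : 1 ≤ M := by omega
  -- the primes dividing the factorial
  have hfac : ∀ x : 𝓞 F, x ≠ 0 → {w : HeightOneSpectrum (𝓞 F) | x ∈ w.asIdeal}.Finite := by
    intro x hx
    refine (Ideal.finite_factors (I := Ideal.span {x}) ?_).subset fun w hw => ?_
    · rwa [Ne, Ideal.zero_eq_bot, Ideal.span_singleton_eq_bot]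
    · exact Ideal.dvd_span_singleton.2 hw
  have h6f := hfac ((2 * g + 1).factorial : 𝓞 F) (Nat.cast_ne_zero.2 (Nat.factorial_ne_zero _))
  set s6 : ℕ := h6f.toFinset.card with hs6
  set K : ℕ := s6 + (m + C1 * d) + (M - 1) with hK
  set D : ℝ := (A : ℝ) ^ K * ((2 * C0) ^ (2 * g) * Real.exp (cg * (A : ℝ) ^ M * c)) with hD
  refine ⟨⌈D⌉₊, fun B hB T hT => ?_⟩
  have hZfin : ∀ a ∈ T, (Zd a).Finite := fun a ha =>
    (hfac (dis a) (hT a ha).2).subset fun w hw => Ideal.pow_le_self two_ne_zero hw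
  refine ⟨hZfin, ?_⟩
  have hA1 : (1 : ℝ) ≤ A := by
    rw [hA]
    push_cast
    linarith [(Nat.cast_nonneg A₀ : (0 : ℝ) ≤ A₀)]
  have hB1 : (1 : ℝ) ≤ B := by exact_mod_cast hB
  have hT' : ∀ a ∈ T, ∀ j, Bd (a j : F) ((B : ℝ) ^ (2 * g + 1 - (j : ℕ))) := fun a ha j σ => by
    have h1 := (hT a ha).1 j σ
    push_cast at h1
    exact h1
  -- the small primes
  have hsm : {w : HeightOneSpectrum (𝓞 F) | ((2 * g + 1).factorial : 𝓞 F) ∉ w.asIdeal ∧
      (Ideal.absNorm w.asIdeal : ℝ) ≤ (B : ℝ) ^ d}.Finite := by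
    have h1 : {I : Ideal (𝓞 F) | Ideal.absNorm I ≤ B ^ d}.Finite := by
      exact Ideal.finite_setOf_absNorm_le (B ^ d)
    refine Set.Finite.of_finite_image (f := fun w : HeightOneSpectrum (𝓞 F) => w.asIdeal) ?_
      (fun w _ w' _ hww => HeightOneSpectrum.ext hww)
    refine h1.subset ?_
    rintro _ ⟨w, hw, rfl⟩
    have := hw.2
    exact_mod_cast this
  set Ws := hsm.toFinset with hWs
  set P : Finset (Finset (HeightOneSpectrum (𝓞 F))) := Ws.powerset.filter (fun W =>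
    ∏ w ∈ W, (Ideal.absNorm w.asIdeal : ℝ) ≤ (B : ℝ) ^ d) with hP
  -- the decomposition
  have hdec : ∀ a ∈ T, ((A : ℝ) ^ (Zd a).ncard) ≤
      (A : ℝ) ^ K * ∑ W ∈ P.filter (fun W => ∀ w ∈ W, dis a ∈ w.asIdeal ^ 2),
        ((A : ℝ) ^ M) ^ W.card := by
    intro a ha
    have hΔ : dis a ≠ 0 := (hT a ha).2
    have hbd := hdis F a B hB (hT a ha).1
    have hZf : (Zd a).Finite := hZfin a ha
    set Z := hZf.toFinset with hZ
    have hZc : (Zd a).ncard = Z.card := Set.ncard_eq_toFinset_card _ hZf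
    set L := Z.filter (fun w => (B : ℝ) ^ d ≤ Ideal.absNorm w.asIdeal) with hL
    have hLc : L.card ≤ m + C1 * d := by
      refine large L (dis a) hΔ B C1 m hB hC1 (fun w hw => ?_) hbd
        (fun w hw => (Finset.mem_filter.1 hw).2)
      have := (Finset.mem_filter.1 hw).1
      rw [hZ, Set.Finite.mem_toFinset] at this
      exact this
    set Z' := Ws.filter (fun w => dis a ∈ w.asIdeal ^ 2) with hZ'
    have hsub : Z ⊆ (h6f.toFinset ∪ L) ∪ Z' := by
      intro w hw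
      have hwZ : dis a ∈ w.asIdeal ^ 2 := by
        rw [hZ, Set.Finite.mem_toFinset] at hw
        exact hw
      rw [Finset.mem_union, Finset.mem_union]
      by_cases h6 : ((2 * g + 1).factorial : 𝓞 F) ∈ w.asIdeal
      · exact Or.inl (Or.inl ((Set.Finite.mem_toFinset _).2 h6))
      · rcases le_total ((B : ℝ) ^ d) (Ideal.absNorm w.asIdeal : ℝ) with hb | hb
        · exact Or.inl (Or.inr (Finset.mem_filter.2 ⟨hw, hb⟩))
        · exact Or.inr (Finset.mem_filter.2 ⟨(Set.Finite.mem_toFinset _).2 ⟨h6, hb⟩, hwZ⟩)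
    have h1 := (Finset.card_le_card hsub).trans ((Finset.card_union_le _ _).trans
      (Nat.add_le_add_right ((Finset.card_union_le _ _).trans (Nat.add_le_add_left hLc _)) _))
    -- the subset
    obtain ⟨S, hSZ, hSc, hSp⟩ := exists_small M hM1
      (fun w : HeightOneSpectrum (𝓞 F) => (Ideal.absNorm w.asIdeal : ℝ)) (fun w => by
        have := absNorm_pos w
        exact_mod_cast (show 1 ≤ Ideal.absNorm w.asIdeal by omega)) _ Z' rfl
    have hSN : ∏ w ∈ S, (Ideal.absNorm w.asIdeal : ℝ) ≤ (B : ℝ) ^ d := by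
      rcases Nat.lt_or_ge B 2 with hB2 | hB2
      · -- `B = 1`
        have hBe : B = 1 := by omega
        have hSe : S = ∅ := by
          rw [Finset.eq_empty_iff_forall_notMem]
          intro w hw
          have h2 := (Finset.mem_filter.1 (hSZ hw)).1
          rw [hWs, Set.Finite.mem_toFinset] at h2
          have h3 := h2.2
          rw [hBe, Nat.cast_one, one_pow] at h3
          have h4 := absNorm_pos w
          have h5 : (2 : ℝ) ≤ Ideal.absNorm w.asIdeal := by exact_mod_cast h4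
          linarith
        rw [hSe, Finset.prod_empty]
        exact one_le_pow₀ hB1
      · have hB2' : (2 : ℝ) ≤ B := by exact_mod_cast hB2
        have h2 := prod_norm_le Z' 2 (dis a) hΔ (fun w hw => (Finset.mem_filter.1 hw).2) hbd
        rw [Finset.prod_pow, ← hd] at h2
        have h3 : 0 ≤ ∏ w ∈ S, (Ideal.absNorm w.asIdeal : ℝ) := by positivity
        have h4 : ((∏ w ∈ S, (Ideal.absNorm w.asIdeal : ℝ)) ^ M) ^ 2 ≤
            (∏ w ∈ Z', (Ideal.absNorm w.asIdeal : ℝ)) ^ 2 :=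
          pow_le_pow_left₀ (by positivity) hSp 2
        have h5 : (C1 * (B : ℝ) ^ m) ^ d ≤ ((B : ℝ) ^ d) ^ (M * 2) := by
          rw [← pow_mul, mul_comm d (M * 2), pow_mul]
          refine pow_le_pow_left₀ (by positivity) ?_ d
          have h6 : (C1 : ℝ) ≤ (B : ℝ) ^ C1 := by
            calc (C1 : ℝ) ≤ 2 ^ C1 := by exact_mod_cast (Nat.lt_two_pow_self (n := C1)).le
              _ ≤ (B : ℝ) ^ C1 := pow_le_pow_left₀ (by norm_num) hB2' C1
          calc (C1 : ℝ) * (B : ℝ) ^ m ≤ (B : ℝ) ^ C1 * (B : ℝ) ^ m := by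
                exact mul_le_mul_of_nonneg_right h6 (by positivity)
            _ = (B : ℝ) ^ M := by rw [← pow_add]
            _ ≤ (B : ℝ) ^ (M * 2) := pow_le_pow_right₀ hB1 (by omega)
        have h7 : (∏ w ∈ S, (Ideal.absNorm w.asIdeal : ℝ)) ^ (M * 2) ≤ ((B : ℝ) ^ d) ^ (M * 2) := by
          rw [pow_mul]
          exact h4.trans (h2.trans h5)
        exact le_of_pow_le_pow_left₀ (by omega) (by positivity) h7
    have hSP : S ∈ P.filter (fun W => ∀ w ∈ W, dis a ∈ w.asIdeal ^ 2) := by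
      refine Finset.mem_filter.2 ⟨Finset.mem_filter.2 ⟨Finset.mem_powerset.2 ?_, hSN⟩, ?_⟩
      · exact hSZ.trans (Finset.filter_subset _ _)
      · exact fun w hw => (Finset.mem_filter.1 (hSZ hw)).2
    have h8 : ((A : ℝ) ^ M) ^ S.card ≤
        ∑ W ∈ P.filter (fun W => ∀ w ∈ W, dis a ∈ w.asIdeal ^ 2), ((A : ℝ) ^ M) ^ W.card :=
      Finset.single_le_sum (f := fun W : Finset (HeightOneSpectrum (𝓞 F)) => ((A : ℝ) ^ M) ^ W.card)
        (fun _ _ => by positivity) hSP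
    calc (A : ℝ) ^ (Zd a).ncard ≤ (A : ℝ) ^ (K + M * S.card) := by
          refine pow_le_pow_right₀ hA1 ?_
          rw [hZc]
          omega
      _ = (A : ℝ) ^ K * ((A : ℝ) ^ M) ^ S.card := by rw [pow_add, pow_mul]
      _ ≤ _ := mul_le_mul_of_nonneg_left h8 (by positivity)
  -- the interchange
  have hint : ∑ a ∈ T, ∑ W ∈ P.filter (fun W => ∀ w ∈ W, dis a ∈ w.asIdeal ^ 2),
      ((A : ℝ) ^ M) ^ W.card =
      ∑ W ∈ P, ((A : ℝ) ^ M) ^ W.card *
        ((T.filter (fun a => ∀ w ∈ W, dis a ∈ w.asIdeal ^ 2)).card : ℝ) := by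
    simp_rw [Finset.sum_filter]
    rw [Finset.sum_comm]
    refine Finset.sum_congr rfl fun W _ => ?_
    rw [← Finset.sum_filter, Finset.sum_const, nsmul_eq_mul, mul_comm]
  -- the bound
  have hbd : ∑ W ∈ P, ((A : ℝ) ^ M) ^ W.card *
      ((T.filter (fun a => ∀ w ∈ W, dis a ∈ w.asIdeal ^ 2)).card : ℝ) ≤
      (2 * C0) ^ (2 * g) * (B : ℝ) ^ (d * dd g) * Real.exp (cg * (A : ℝ) ^ M * c) := by
    have h1 : ∀ W ∈ P, ((A : ℝ) ^ M) ^ W.card *
        ((T.filter (fun a => ∀ w ∈ W, dis a ∈ w.asIdeal ^ 2)).card : ℝ) ≤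
        (2 * C0) ^ (2 * g) * (B : ℝ) ^ (d * dd g) *
          ∏ w ∈ W, (cg * (A : ℝ) ^ M * (1 / (Ideal.absNorm w.asIdeal : ℝ) ^ 2)) := by
      intro W hW
      obtain ⟨hW1, hW2⟩ := Finset.mem_filter.1 hW
      have h2 := classesW h hg hC0 hpts B hB T hT' W (fun w hw => by
        have h3 := Finset.mem_powerset.1 hW1 hw
        rw [hWs, Set.Finite.mem_toFinset] at h3
        exact h3.1) hW2
      rw [← hcg] at h2
      refine (mul_le_mul_of_nonneg_left h2 (by positivity)).trans (le_of_eq ?_)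
      have h3 : ∏ w ∈ W, (cg * (A : ℝ) ^ M * (1 / (Ideal.absNorm w.asIdeal : ℝ) ^ 2)) =
          ((A : ℝ) ^ M) ^ W.card * ∏ w ∈ W, (cg / (Ideal.absNorm w.asIdeal : ℝ) ^ 2) := by
        rw [← Finset.prod_const, ← Finset.prod_mul_distrib]
        refine Finset.prod_congr rfl fun w _ => ?_
        ring
      rw [h3, ← hd]
      ring
    refine (Finset.sum_le_sum h1).trans ?_
    rw [← Finset.mul_sum]
    refine mul_le_mul_of_nonneg_left ?_ (by positivity)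
    have h2 : ∑ W ∈ P, ∏ w ∈ W, (cg * (A : ℝ) ^ M * (1 / (Ideal.absNorm w.asIdeal : ℝ) ^ 2)) ≤
        ∑ W ∈ Ws.powerset,
          ∏ w ∈ W, (cg * (A : ℝ) ^ M * (1 / (Ideal.absNorm w.asIdeal : ℝ) ^ 2)) :=
      Finset.sum_le_sum_of_subset_of_nonneg (Finset.filter_subset _ _)
        (fun _ _ _ => by positivity)
    refine h2.trans ?_
    rw [← Finset.prod_one_add]
    calc ∏ w ∈ Ws, (1 + cg * (A : ℝ) ^ M * (1 / (Ideal.absNorm w.asIdeal : ℝ) ^ 2)) ≤
        ∏ w ∈ Ws, Real.exp (cg * (A : ℝ) ^ M * (1 / (Ideal.absNorm w.asIdeal : ℝ) ^ 2)) := by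
          refine Finset.prod_le_prod (fun _ _ => by positivity) fun w _ => ?_
          rw [add_comm]
          exact Real.add_one_le_exp _
      _ = Real.exp (cg * (A : ℝ) ^ M * ∑ w ∈ Ws, 1 / (Ideal.absNorm w.asIdeal : ℝ) ^ 2) := by
          rw [← Real.exp_sum, Finset.mul_sum]
      _ ≤ Real.exp (cg * (A : ℝ) ^ M * c) := by
          refine Real.exp_le_exp.2 (mul_le_mul_of_nonneg_left (hsum Ws) (by positivity))
  have hfinal : ((∑ a ∈ T, A₀ ^ (Zd a).ncard : ℕ) : ℝ) ≤ D * (B : ℝ) ^ (d * dd g) := by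
    push_cast
    have h1 : ∀ a ∈ T, (A₀ : ℝ) ^ (Zd a).ncard ≤ (A : ℝ) ^ (Zd a).ncard := fun a _ =>
      pow_le_pow_left₀ (Nat.cast_nonneg _) (by rw [hA]; push_cast; linarith) _
    refine (Finset.sum_le_sum h1).trans ((Finset.sum_le_sum hdec).trans ?_)
    rw [← Finset.mul_sum, hint]
    refine (mul_le_mul_of_nonneg_left hbd (by positivity)).trans (le_of_eq ?_)
    rw [hD]
    ring
  have h1 : ((⌈D⌉₊ * B ^ (d * dd g) : ℕ) : ℝ) ≥ D * (B : ℝ) ^ (d * dd g) := by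
    push_cast
    exact mul_le_mul_of_nonneg_right (Nat.le_ceil _) (by positivity)
  exact_mod_cast hfinal.trans h1

theorem expg : Pool.Agent.H459.CG.S_EXPG := expg_aux Pool.Agent.N189.PF.ld

end Pool.Agent.H788.CG
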