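import Pool.Agent.H459.CG.Stm
import Pool.Agent.H459.UN.Bidx
import Pool.Agent.H459.UN.Bnew
import Pool.Agent.H459.UN.Bcon

/-!
# IDXG: the index of `Lˣ² O_w[θ]ˣ` for an extension of odd degree

Adapted from `UN/Bidx.lean` (helper679), the case of degree three.
-/

set_option autoImplicit false
set_option linter.all false

open Polynomial IsDedekindDomain NumberField
open scoped Classical IntermediateField

namespace Pool.Agent.H181.CG

open Pool.Agent.H459.UN (Hw S_NEW)
open Pool.Agent.H459.CG (S_IDXG)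
open Pool.Agent.H679.UN (idx_core sq_mod odd_case crt_val)

theorem idxg' (hN : S_NEW) : S_IDXG := by
  intro F _ _ g
  refine ⟨2 ^ (2 * g + 1) * 8 ^ (Module.finrank ℚ F * (2 * g + 1)), ?_⟩
  intro L _ _ _ θ w hθ hgen h3
  have hI : w.asIdeal.map (algebraMap (𝓞 F) (𝓞 L)) ≠ ⊥ := by
    intro h
    rw [Ideal.map_eq_bot_iff_of_injective (FaithfulSMul.algebraMap_injective _ _)] at h
    exact w.ne_bot h
  have hfin := Ideal.finite_factors hI
  set Q := hfin.toFinset with hQdef
  have hQ : ∀ P : HeightOneSpectrum (𝓞 L), P ∈ Q ↔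
      w.asIdeal.map (algebraMap (𝓞 F) (𝓞 L)) ≤ P.asIdeal := by
    intro P
    rw [hQdef, Set.Finite.mem_toFinset, Set.mem_setOf_eq, Ideal.dvd_iff_le]
  haveI : w.asIdeal.IsMaximal := w.isMaximal
  haveI hnz : NoZeroSMulDivisors (𝓞 F) (𝓞 L) := by
    constructor
    intro a b hab
    rw [Algebra.smul_def] at hab
    rcases mul_eq_zero.mp hab with h | h
    · left
      exact (map_eq_zero_iff _ (FaithfulSMul.algebraMap_injective (𝓞 F) (𝓞 L))).mp h
    · exact Or.inr h
  have hcard : Q.card ≤ 2 * g + 1 := by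
    rw [← h3]
    refine le_trans ?_ (Ideal.card_primesOverFinset_le_finrank (𝓞 L) F L w.ne_bot)
    refine Finset.card_le_card_of_injOn (fun P => P.asIdeal) ?_ ?_
    · intro P hP
      have h5 := (hQ P).mp hP
      rw [Finset.mem_coe, IsDedekindDomain.mem_primesOverFinset_iff w.ne_bot]
      refine ⟨P.isPrime, ?_⟩
      rw [Ideal.liesOver_iff_dvd_map P.isPrime.ne_top, Ideal.dvd_iff_le]
      exact h5
    · intro P _ P' _ h
      exact HeightOneSpectrum.ext h
  have hpow : (2 : ℕ) ^ Q.card ≤ 2 ^ (2 * g + 1) := Nat.pow_le_pow_right (by norm_num) hcard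
  by_cases h2 : (2 : 𝓞 F) ∈ w.asIdeal
  · have hQ2 : ∀ P ∈ Q, (2 : 𝓞 L) ∈ P.asIdeal := by
      intro P hP
      have h5 := Ideal.mem_map_of_mem (algebraMap (𝓞 F) (𝓞 L)) h2
      rw [map_ofNat] at h5
      exact (hQ P).mp hP h5
    have h8 : (Ideal.span {((8 : ℕ) : 𝓞 L)}) ≠ ⊥ := by
      rw [Ne, Ideal.span_singleton_eq_bot]
      norm_num
    haveI : Finite (𝓞 L ⧸ Ideal.span {((8 : ℕ) : 𝓞 L)}) := Ideal.finiteQuotientOfFreeOfNeBot _ h8
    have key := idx_core hN F L θ w hθ hgen Q hQ (𝓞 L ⧸ Ideal.span {((8 : ℕ) : 𝓞 L)})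
      (Ideal.Quotient.mk _) ?_
    · have hc8 : Nat.card (𝓞 L ⧸ Ideal.span {((8 : ℕ) : 𝓞 L)}) =
          8 ^ (Module.finrank ℚ F * (2 * g + 1)) := by
        have h9 := Ideal.absNorm_span_natCast (S := 𝓞 L) 8
        rw [Ideal.absNorm_apply, Submodule.cardQuot_apply] at h9
        rw [h9, RingOfIntegers.rank, ← Module.finrank_mul_finrank ℚ F L, h3]
      rw [hc8] at key
      refine ⟨key.1, fun h => absurd h2 h, fun _ => le_trans key.2 ?_⟩
      exact Nat.mul_le_mul_right _ hpow
    · intro c c' hc hc' h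
      refine ⟨c, fun P hP => ?_⟩
      rw [Ideal.Quotient.eq, Ideal.mem_span_singleton] at h
      obtain ⟨m, hm⟩ := h
      have e1 : c * c' - c ^ 2 = (4 : 𝓞 L) * 2 * (-(c * m)) := by
        have e2 : c * c' - c ^ 2 = - (c * (c - c')) := by ring
        rw [e2, hm]
        push_cast
        ring
      have h44 : algebraMap (𝓞 L) L (4 : 𝓞 L) = 4 := map_ofNat _ 4
      have e3 : algebraMap (𝓞 L) L ((4 : 𝓞 L) * 2 * (-(c * m))) =
          4 * algebraMap (𝓞 L) L 2 * algebraMap (𝓞 L) L (-(c * m)) := by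
        rw [map_mul (algebraMap (𝓞 L) L), map_mul (algebraMap (𝓞 L) L), h44]
      rw [e1, e3, map_mul (P.valuation L), map_mul (P.valuation L)]
      have h5 : P.valuation L (algebraMap (𝓞 L) L 2) < 1 := by
        exact (P.valuation_lt_one_iff_mem (K := L) 2).mpr (hQ2 P hP)
      have h6 : P.valuation L (algebraMap (𝓞 L) L (-(c * m))) ≤ 1 := P.valuation_le_one _
      have h7 : P.valuation L (4 : L) ≠ 0 := (Valuation.ne_zero_iff _).mpr (by norm_num)
      have h8' : 0 < P.valuation L (4 : L) := zero_lt_iff.mpr h7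
      calc P.valuation L (4 : L) * P.valuation L (algebraMap (𝓞 L) L 2) *
            P.valuation L (algebraMap (𝓞 L) L (-(c * m)))
          ≤ P.valuation L (4 : L) * P.valuation L (algebraMap (𝓞 L) L 2) * 1 :=
            mul_le_mul_right h6 _
        _ = P.valuation L (4 : L) * P.valuation L (algebraMap (𝓞 L) L 2) := mul_one _
        _ < P.valuation L (4 : L) * 1 := mul_lt_mul_of_pos_left h5 h8'
        _ = P.valuation L (4 : L) := mul_one _
  · have key := idx_core hN F L θ w hθ hgen Q hQ (Q → Bool)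
      (fun c P => decide (IsSquare (Ideal.Quotient.mk P.1.asIdeal c))) ?_
    · have hcB : Nat.card (Q → Bool) = 2 ^ Q.card := by
        rw [Nat.card_fun, Nat.card_eq_fintype_card, Nat.card_eq_fintype_card]
        simp
      rw [hcB] at key
      refine ⟨key.1, fun _ => le_trans key.2 ?_, fun h => absurd h h2⟩
      calc 2 ^ Q.card * 2 ^ Q.card ≤ 2 ^ (2 * g + 1) * 2 ^ (2 * g + 1) := Nat.mul_le_mul hpow hpow
        _ = 4 ^ (2 * g + 1) := by rw [← mul_pow]; norm_num
    · intro c c' hc hc' h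
      have h5 : ∀ P : HeightOneSpectrum (𝓞 L), ∃ r : 𝓞 L, P ∈ Q → c * c' - r ^ 2 ∈ P.asIdeal := by
        intro P
        by_cases hP : P ∈ Q
        · have h6 := congrFun h ⟨P, hP⟩
          simp only [decide_eq_decide] at h6
          obtain ⟨r, hr⟩ := sq_mod P c c' (hc P hP) (hc' P hP) h6
          exact ⟨r, fun _ => hr⟩
        · exact ⟨0, fun h' => absurd h' hP⟩
      choose r hr using h5
      obtain ⟨y, hy⟩ := crt_val (K := L) Q 1 r
      refine ⟨y, fun P hP => ?_⟩
      rw [odd_case F L w h2 P ((hQ P).mp hP)]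
      have h7 : P.valuation L (algebraMap (𝓞 L) L (y - r P)) < 1 := by
        refine lt_of_le_of_lt (hy P hP) ?_
        rw [← WithZero.exp_zero, WithZero.exp_lt_exp]
        norm_num
      have h8 : y - r P ∈ P.asIdeal := (P.valuation_lt_one_iff_mem (K := L) _).mp h7
      have h9 : c * c' - y ^ 2 ∈ P.asIdeal := by
        have e : c * c' - y ^ 2 = (c * c' - r P ^ 2) - (y + r P) * (y - r P) := by ring
        rw [e]
        exact P.asIdeal.sub_mem (hr P hP) (P.asIdeal.mul_mem_left _ h8)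
      exact (P.valuation_lt_one_iff_mem (K := L) _).mpr h9

theorem idxg : S_IDXG := idxg' (Pool.Agent.H284.UN.new Pool.Agent.H665.UN.con)

end Pool.Agent.H181.CG
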