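import Mathlib
import Pool.Agent.H459.CG.Stm
import Pool.Graph.R_pool_sql_team_seeded_63374d34.N75.PF.CU
import Pool.Graph.R_pool_sql_team_seeded_63374d34.N951.PF.Fam

/-!
# Project CG (helper459), task REDG (helper71): few reducible polynomials
-/

set_option autoImplicit false
set_option linter.all false

open Polynomial NumberField
open scoped Classical

namespace Pool.Agent.H71.CG

open Pool.Agent.N352.PJ (dd pol)
open Pool.Agent.N352.PF (dg Bz Bal)
open Pool.Agent.N951.PF (pol_coeff_lt pol_coeff_tr pol_natDegree pol_monic pol_inj)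

section roots

theorem geo_half (N : ℕ) : ∑ j ∈ Finset.range N, (1 / 2 : ℝ) ^ (N + 1 - j) = 1 / 2 - (1 / 2) ^ (N + 1) := by
  induction N with
  | zero => norm_num
  | succ N ih =>
    rw [Finset.sum_range_succ]
    have h1 : ∑ j ∈ Finset.range N, (1 / 2 : ℝ) ^ (N + 1 + 1 - j) =
        1 / 2 * ∑ j ∈ Finset.range N, (1 / 2 : ℝ) ^ (N + 1 - j) := by
      rw [Finset.mul_sum]
      refine Finset.sum_congr rfl fun j hj => ?_
      rw [Finset.mem_range] at hj
      rw [← pow_succ']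
      congr 1
      omega
    rw [h1, ih]
    have h2 : N + 1 + 1 - N = 2 := by omega
    rw [h2]
    ring

/-- the roots of a polynomial with small coefficients -/
theorem root_le {g : ℕ} {a : Fin (2 * g) → ℂ} {B : ℝ} (hB : 0 ≤ B)
    (ha : ∀ j : Fin (2 * g), ‖a j‖ ≤ B ^ (2 * g + 1 - (j : ℕ))) {z : ℂ}
    (hz : (pol a).eval z = 0) : ‖z‖ ≤ 2 * B := by
  by_contra hcon
  rw [not_le] at hcon
  have ht : 0 < ‖z‖ := lt_of_le_of_lt (by positivity) hcon
  have h1 : z ^ (2 * g + 1) = - ∑ j : Fin (2 * g), a j * z ^ (j : ℕ) := by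
    have h2 : (pol a).eval z = z ^ (2 * g + 1) + ∑ j : Fin (2 * g), a j * z ^ (j : ℕ) := by
      unfold pol
      rw [eval_add, eval_pow, eval_X, eval_finsetSum]
      congr 1
      exact Finset.sum_congr rfl fun j _ => by rw [eval_mul, eval_C, eval_pow, eval_X]
    rw [h2] at hz
    exact eq_neg_of_add_eq_zero_left hz
  have h3 : ‖∑ j : Fin (2 * g), a j * z ^ (j : ℕ)‖ ≤
      ∑ j : Fin (2 * g), (1 / 2 : ℝ) ^ (2 * g + 1 - (j : ℕ)) * ‖z‖ ^ (2 * g + 1) := by
    refine (norm_sum_le _ _).trans (Finset.sum_le_sum fun j _ => ?_)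
    have hj : (j : ℕ) < 2 * g := j.2
    rw [norm_mul, norm_pow]
    have h4 : B ^ (2 * g + 1 - (j : ℕ)) ≤ (1 / 2 * ‖z‖) ^ (2 * g + 1 - (j : ℕ)) :=
      pow_le_pow_left₀ hB (by linarith) _
    calc ‖a j‖ * ‖z‖ ^ (j : ℕ) ≤ (1 / 2 * ‖z‖) ^ (2 * g + 1 - (j : ℕ)) * ‖z‖ ^ (j : ℕ) :=
          mul_le_mul_of_nonneg_right ((ha j).trans h4) (by positivity)
      _ = (1 / 2 : ℝ) ^ (2 * g + 1 - (j : ℕ)) * (‖z‖ ^ (2 * g + 1 - (j : ℕ)) * ‖z‖ ^ (j : ℕ)) := by
          rw [mul_pow]; ring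
      _ = (1 / 2 : ℝ) ^ (2 * g + 1 - (j : ℕ)) * ‖z‖ ^ (2 * g + 1) := by
          rw [← pow_add]
          congr 2
          omega
  have h5 : ‖z‖ ^ (2 * g + 1) = ‖∑ j : Fin (2 * g), a j * z ^ (j : ℕ)‖ := by
    rw [← norm_pow, h1, norm_neg]
  rw [← h5, ← Finset.sum_mul, Fin.sum_univ_eq_sum_range (fun j => (1 / 2 : ℝ) ^ (2 * g + 1 - j)) (2 * g),
    geo_half] at h3
  have h6 : 0 < ‖z‖ ^ (2 * g + 1) := pow_pos ht _
  have h7 : (0 : ℝ) < (1 / 2) ^ (2 * g + 1) := by positivity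
  nlinarith

end roots

section field

variable {F : Type} [Field F] [NumberField F] {g : ℕ}

/-- the coefficients of the monic factors are small -/
theorem coeff_mem {B : ℕ} (hB : 1 ≤ B) {a : Fin (2 * g) → 𝓞 F} (ha : a ∈ Bz F g B) {f : (𝓞 F)[X]}
    (hf : f.Monic) (hd : f ∣ pol a) {i : ℕ} (hi : i < f.natDegree) :
    f.coeff i ∈ Bal F ((2 ^ (2 * g + 2) * B) ^ (f.natDegree - i)) := by
  intro σ
  have hm : f.natDegree ≤ 2 * g + 1 := by
    rw [← pol_natDegree a]
    exact natDegree_le_of_dvd hd (pol_monic a).ne_zero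
  set φ : 𝓞 F →+* ℂ := σ.comp (algebraMap (𝓞 F) F) with hφ
  have hpol : (pol a).map φ = pol (fun j => φ (a j)) := by
    unfold pol
    rw [Polynomial.map_add, Polynomial.map_pow, map_X, Polynomial.map_sum]
    congr 1
    exact Finset.sum_congr rfl fun j _ => by rw [Polynomial.map_mul, map_C, Polynomial.map_pow, map_X]
  have h1 : ‖(f.map φ).coeff i‖ ≤ (2 * (B : ℝ)) ^ (f.natDegree - i) * f.natDegree.choose i := by
    refine Polynomial.coeff_le_of_roots_le i hf (IsAlgClosed.splits _) ?_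
    intro z hz
    have h2 : (f.map φ).eval z = 0 := (mem_roots'.1 hz).2
    have h3 : ((pol a).map φ).eval z = 0 := by
      obtain ⟨q, hq⟩ := hd
      rw [hq, Polynomial.map_mul, eval_mul, h2, zero_mul]
    rw [hpol] at h3
    refine root_le (Nat.cast_nonneg B) ?_ h3
    intro j
    have h4 := ha j σ
    push_cast at h4
    exact h4
  rw [coeff_map] at h1
  have h2 : ‖φ (f.coeff i)‖ ≤ (2 * (B : ℝ)) ^ (f.natDegree - i) * f.natDegree.choose i := h1
  show ‖σ ((f.coeff i : 𝓞 F) : F)‖ ≤ _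
  refine h2.trans ?_
  push_cast
  have h3 : ((f.natDegree.choose i : ℕ) : ℝ) ≤ (2 ^ (2 * g + 1)) ^ (f.natDegree - i) := by
    have h4 : (f.natDegree.choose i) ≤ (2 ^ (2 * g + 1)) ^ (f.natDegree - i) := by
      calc f.natDegree.choose i ≤ 2 ^ f.natDegree := Nat.choose_le_two_pow _ _
        _ ≤ 2 ^ (2 * g + 1) := Nat.pow_le_pow_right (by norm_num) hm
        _ = (2 ^ (2 * g + 1)) ^ 1 := (pow_one _).symm
        _ ≤ (2 ^ (2 * g + 1)) ^ (f.natDegree - i) :=
            Nat.pow_le_pow_right (Nat.pow_pos (by norm_num)) (by omega)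
    exact_mod_cast h4
  calc (2 * (B : ℝ)) ^ (f.natDegree - i) * f.natDegree.choose i
      ≤ (2 * (B : ℝ)) ^ (f.natDegree - i) * (2 ^ (2 * g + 1)) ^ (f.natDegree - i) :=
        mul_le_mul_of_nonneg_left h3 (by positivity)
    _ = (2 ^ (2 * g + 2) * (B : ℝ)) ^ (f.natDegree - i) := by
        rw [← mul_pow]
        congr 1
        ring

/-- the number of the integers with bounded conjugates -/
theorem bal_card (F : Type) [Field F] [NumberField F] : ∃ C : ℕ, 1 ≤ C ∧ ∀ T : ℕ, 1 ≤ T →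
    (Bal F T).Finite ∧ (Bal F T).ncard ≤ C * T ^ dg F := by
  obtain ⟨C, hC⟩ := Pool.Agent.N75.PF.cu F
  refine ⟨2 * C + 1, by omega, fun T hT => ?_⟩
  obtain ⟨h1, h2⟩ := hC T ⊤ 0 hT (by simp)
  have h3 : {x ∈ Bal F T | x - 0 ∈ (⊤ : Ideal (𝓞 F))} = Bal F T := by
    ext x
    simp
  rw [h3] at h1 h2
  rw [Ideal.absNorm_top, mul_one] at h2
  refine ⟨h1, h2.trans ?_⟩
  have h4 : 1 ≤ T ^ dg F := Nat.one_le_pow _ _ hT
  nlinarith

/-- the boxes for the coefficients -/
theorem box_card {C : ℕ} (hC : ∀ T : ℕ, 1 ≤ T → (Bal F T).Finite ∧ (Bal F T).ncard ≤ C * T ^ dg F)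
    {T : ℕ} (hT : 1 ≤ T) (m N : ℕ) :
    (Set.univ.pi fun j : Fin N => Bal F (T ^ (m - (j : ℕ)))).Finite ∧
    (Set.univ.pi fun j : Fin N => Bal F (T ^ (m - (j : ℕ)))).ncard ≤
      C ^ N * T ^ (dg F * ∑ j ∈ Finset.range N, (m - j)) := by
  have hfin : ∀ j : Fin N, (Bal F (T ^ (m - (j : ℕ)))).Finite := fun j => (hC _ (Nat.one_le_pow _ _ hT)).1
  have h1 : (Set.univ.pi fun j : Fin N => Bal F (T ^ (m - (j : ℕ)))) =
      ((Fintype.piFinset fun j : Fin N => (hfin j).toFinset : Finset (Fin N → 𝓞 F)) :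
        Set (Fin N → 𝓞 F)) := by
    ext u
    simp [Fintype.mem_piFinset]
  rw [h1]
  refine ⟨Finset.finite_toSet _, ?_⟩
  rw [Set.ncard_coe_finset, Fintype.card_piFinset]
  calc ∏ j : Fin N, (hfin j).toFinset.card ≤ ∏ j : Fin N, C * (T ^ (m - (j : ℕ))) ^ dg F := by
        refine Finset.prod_le_prod' fun j _ => ?_
        rw [← Set.ncard_eq_toFinset_card _ (hfin j)]
        exact (hC _ (Nat.one_le_pow _ _ hT)).2
    _ = C ^ N * T ^ (dg F * ∑ j ∈ Finset.range N, (m - j)) := by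
        rw [Finset.prod_mul_distrib, Finset.prod_const, Finset.card_univ, Fintype.card_fin]
        congr 1
        rw [Finset.prod_pow, Finset.prod_pow_eq_pow_sum, Fin.sum_univ_eq_sum_range (fun j => m - j) N,
          ← pow_mul, mul_comm]

/-- the reducible polynomials with a factor of degree `m` -/
def Rd (F : Type) [Field F] [NumberField F] (g B m : ℕ) : Set (Fin (2 * g) → 𝓞 F) :=
  {a | a ∈ Bz F g B ∧ ∃ f q : (𝓞 F)[X], f.Monic ∧ q.Monic ∧ f.natDegree = m ∧
    q.natDegree = 2 * g + 1 - m ∧ f * q = pol a}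

theorem sum_sub (m : ℕ) : 2 * ∑ j ∈ Finset.range m, (m - j) = m * (m + 1) := by
  induction m with
  | zero => simp
  | succ m ih =>
    rw [Finset.sum_range_succ]
    have h1 : ∑ j ∈ Finset.range m, (m + 1 - j) = ∑ j ∈ Finset.range m, (m - j) + m := by
      have h2 : ∑ j ∈ Finset.range m, (m + 1 - j) = ∑ j ∈ Finset.range m, ((m - j) + 1) := by
        refine Finset.sum_congr rfl fun j hj => ?_
        rw [Finset.mem_range] at hj
        omega
      rw [h2, Finset.sum_add_distrib]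
      simp
    rw [h1, mul_add, mul_add, ih]
    have h3 : m + 1 - m = 1 := by omega
    rw [h3]
    ring

/-- the exponents -/
theorem expo {m r : ℕ} (hm : 1 ≤ m) (hr : 1 ≤ r) (h : m + r = 2 * g + 1) :
    ∑ j ∈ Finset.range m, (m - j) + ∑ j ∈ Finset.range (r - 1), (r - j) + 2 * g ≤ dd g := by
  have h1 := sum_sub m
  have h2 := sum_sub r
  obtain ⟨r, rfl⟩ : ∃ r', r = r' + 1 := ⟨r - 1, by omega⟩
  rw [Finset.sum_range_succ] at h2
  have h3 : r + 1 - r = 1 := by omega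
  have h4 : r + 1 - 1 = r := by omega
  rw [h3] at h2
  rw [h4]
  obtain ⟨m, rfl⟩ : ∃ m', m = m' + 1 := ⟨m - 1, by omega⟩
  have h5 : m + r + 1 = 2 * g := by omega
  unfold dd
  generalize ∑ j ∈ Finset.range (m + 1), (m + 1 - j) = s at h1 ⊢
  generalize ∑ j ∈ Finset.range r, (r + 1 - j) = t at h2 ⊢
  have h6 : 2 * (2 * g ^ 2 + 3 * g) = (2 * g) * (2 * g) + 3 * (2 * g) := by ring
  have h7 : 2 * (s + t + 2 * g) ≤ 2 * (2 * g ^ 2 + 3 * g) := by
    rw [h6, ← h5]
    nlinarith [Nat.zero_le (m * r)]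
  omega

/-- the number of the reducible polynomials with a factor of degree `m` -/
theorem rd_card {C : ℕ} (hC : ∀ T : ℕ, 1 ≤ T → (Bal F T).Finite ∧ (Bal F T).ncard ≤ C * T ^ dg F)
    {B : ℕ} (hB : 1 ≤ B) {m : ℕ} (hm : 1 ≤ m) (hm2 : m ≤ 2 * g) :
    (Rd F g B m).ncard ≤ C ^ m * (2 ^ (2 * g + 2) * B) ^ (dg F * ∑ j ∈ Finset.range m, (m - j)) *
      (C ^ (2 * g + 1 - m - 1) * (2 ^ (2 * g + 2) * B) ^ (dg F *
        ∑ j ∈ Finset.range (2 * g + 1 - m - 1), (2 * g + 1 - m - j))) := by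
  set T := 2 ^ (2 * g + 2) * B with hTdef
  have hT : 1 ≤ T := Nat.mul_pos (Nat.pow_pos (by norm_num)) hB
  obtain ⟨f1, c1⟩ := box_card hC hT m m
  obtain ⟨f2, c2⟩ := box_card hC hT (2 * g + 1 - m) (2 * g + 1 - m - 1)
  have hex : ∀ a : Fin (2 * g) → 𝓞 F, a ∈ Rd F g B m → ∃ fq : (𝓞 F)[X] × (𝓞 F)[X], fq.1.Monic ∧ fq.2.Monic ∧
      fq.1.natDegree = m ∧ fq.2.natDegree = 2 * g + 1 - m ∧ fq.1 * fq.2 = pol a := by
    rintro a ⟨-, f, q, h⟩
    exact ⟨(f, q), h⟩
  choose! fq h1 h2 h3 h4 h5 using hex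
  have hnext : ∀ a ∈ Rd F g B m, (fq a).1.coeff (m - 1) + (fq a).2.coeff (2 * g + 1 - m - 1) = 0 := by
    intro a ha
    have e1 := (h1 a ha).nextCoeff_mul (h2 a ha)
    rw [h5 a ha] at e1
    unfold nextCoeff at e1
    rw [if_neg (by rw [pol_natDegree]; omega), if_neg (by rw [h3 a ha]; omega),
      if_neg (by rw [h4 a ha]; omega), pol_natDegree, h3 a ha, h4 a ha] at e1
    have e2 : 2 * g + 1 - 1 = 2 * g := by omega
    rw [e2, pol_coeff_tr] at e1
    exact e1.symm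
  have key : (Rd F g B m).ncard ≤
      ((Set.univ.pi fun j : Fin m => Bal F (T ^ (m - (j : ℕ)))) ×ˢ
        (Set.univ.pi fun j : Fin (2 * g + 1 - m - 1) => Bal F (T ^ (2 * g + 1 - m - (j : ℕ))))).ncard := by
    refine Set.ncard_le_ncard_of_injOn
      (fun a => ((fun j : Fin m => (fq a).1.coeff j), (fun j : Fin (2 * g + 1 - m - 1) => (fq a).2.coeff j)))
      ?_ ?_ (f1.prod f2)
    · intro a ha
      refine Set.mk_mem_prod ?_ ?_
      · intro j _
        have e := coeff_mem hB ha.1 (h1 a ha) ⟨_, (h5 a ha).symm⟩ (i := j) (by rw [h3 a ha]; exact j.2)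
        rw [h3 a ha] at e
        exact e
      · intro j _
        have hj := j.2
        have e := coeff_mem hB ha.1 (h2 a ha) ⟨(fq a).1, by rw [mul_comm]; exact (h5 a ha).symm⟩ (i := j)
          (by rw [h4 a ha]; omega)
        rw [h4 a ha] at e
        exact e
    · intro a ha b hb hab
      have e1 : ∀ j : Fin m, (fq a).1.coeff j = (fq b).1.coeff j := fun j => congrFun (congrArg Prod.fst hab) j
      have e2 : ∀ j : Fin (2 * g + 1 - m - 1), (fq a).2.coeff j = (fq b).2.coeff j :=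
        fun j => congrFun (congrArg Prod.snd hab) j
      have e3 : (fq a).1 = (fq b).1 := by
        ext n
        rcases Nat.lt_trichotomy n m with hn | hn | hn
        · rw [e1 ⟨n, hn⟩]
        · have ea := h1 a ha
          have eb := h1 b hb
          rw [Monic, leadingCoeff, h3 a ha] at ea
          rw [Monic, leadingCoeff, h3 b hb] at eb
          rw [hn, ea, eb]
        · rw [coeff_eq_zero_of_natDegree_lt (by rw [h3 a ha]; exact hn),
            coeff_eq_zero_of_natDegree_lt (by rw [h3 b hb]; exact hn)]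
      have e4 : (fq a).2 = (fq b).2 := by
        ext n
        rcases Nat.lt_trichotomy n (2 * g + 1 - m) with hn | hn | hn
        · rcases Nat.lt_or_ge n (2 * g + 1 - m - 1) with hn2 | hn2
          · rw [e2 ⟨n, hn2⟩]
          · have hn3 : n = 2 * g + 1 - m - 1 := by omega
            have ea := hnext a ha
            have eb := hnext b hb
            rw [e3] at ea
            rw [hn3]
            exact congrArg _ (add_left_cancel (ea.trans eb.symm))
        · have ea := h2 a ha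
          have eb := h2 b hb
          rw [Monic, leadingCoeff, h4 a ha] at ea
          rw [Monic, leadingCoeff, h4 b hb] at eb
          rw [hn, ea, eb]
        · rw [coeff_eq_zero_of_natDegree_lt (by rw [h4 a ha]; exact hn),
            coeff_eq_zero_of_natDegree_lt (by rw [h4 b hb]; exact hn)]
      apply pol_inj
      rw [← h5 a ha, ← h5 b hb, e3, e4]
  refine key.trans ?_
  rw [Set.ncard_prod]
  exact Nat.mul_le_mul c1 c2

theorem bz_fin (F : Type) [Field F] [NumberField F] (g : ℕ) {B : ℕ} (hB : 1 ≤ B) : (Bz F g B).Finite := by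
  obtain ⟨C, -, hC⟩ := bal_card F
  refine Set.Finite.subset (box_card hC hB (2 * g + 1) (2 * g)).1 ?_
  intro a ha j _
  exact ha j

/-- a reducible polynomial has a proper monic factor -/
theorem red_sub (F : Type) [Field F] [NumberField F] (g : ℕ) (hg : 1 ≤ g) (B : ℕ) :
    {a ∈ Bz F g B | ¬ Irreducible ((pol a).map (algebraMap (𝓞 F) F))} ⊆
      ⋃ m ∈ Finset.Icc 1 (2 * g), Rd F g B m := by
  rintro a ⟨ha, hirr⟩
  rw [← (pol_monic a).irreducible_iff_irreducible_map_fraction_map,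
    (pol_monic a).irreducible_iff_natDegree] at hirr
  have hne : pol a ≠ 1 := by
    intro h
    have h1 := pol_natDegree a
    rw [h, natDegree_one] at h1
    omega
  have hirr' : ∃ f q : (𝓞 F)[X], f.Monic ∧ q.Monic ∧ f * q = pol a ∧ f.natDegree ≠ 0 ∧ q.natDegree ≠ 0 := by
    by_contra hno
    push Not at hno
    apply hirr
    refine ⟨hne, fun f q hf hq hfq => ?_⟩
    by_contra h
    push Not at h
    exact h.2 (hno f q hf hq hfq h.1)
  obtain ⟨f, q, hf, hq, hfq, hf0, hq0⟩ := hirr'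
  have hdeg : f.natDegree + q.natDegree = 2 * g + 1 := by
    rw [← hf.natDegree_mul hq, hfq, pol_natDegree]
  rw [Set.mem_iUnion₂]
  refine ⟨f.natDegree, Finset.mem_Icc.2 ⟨by omega, by omega⟩, ha, f, q, hf, hq, rfl, by omega, hfq⟩

end field

/-- **Task REDG** -/
theorem redg : Pool.Agent.H459.CG.S_REDG := by
  intro F _ _ g hg
  obtain ⟨C, hC1, hC⟩ := bal_card F
  refine ⟨(2 * g) * (C ^ (2 * g + 1) * (2 ^ (2 * g + 2)) ^ (dg F * dd g)), fun B hB => ⟨bz_fin F g hB, ?_⟩⟩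
  have hfin : ∀ m, (Rd F g B m).Finite := fun m => (bz_fin F g hB).subset fun a ha => ha.1
  have h1 : {a ∈ Bz F g B | ¬ Irreducible ((pol a).map (algebraMap (𝓞 F) F))}.ncard ≤
      ∑ m ∈ Finset.Icc 1 (2 * g), (Rd F g B m).ncard := by
    refine (Set.ncard_le_ncard (red_sub F g hg B) ?_).trans ?_
    · exact Set.Finite.biUnion (Finset.finite_toSet _) fun m _ => hfin m
    · exact Finset.set_ncard_biUnion_le _ _
  have h2 : ∀ m ∈ Finset.Icc 1 (2 * g), (Rd F g B m).ncard * B ^ (2 * g * dg F) ≤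
      C ^ (2 * g + 1) * (2 ^ (2 * g + 2)) ^ (dg F * dd g) * B ^ (dg F * dd g) := by
    intro m hm
    rw [Finset.mem_Icc] at hm
    have h3 := rd_card (g := g) hC hB hm.1 hm.2
    have h4 := expo (g := g) (m := m) (r := 2 * g + 1 - m) hm.1 (by omega) (by omega)
    generalize hs : ∑ j ∈ Finset.range m, (m - j) = s at h3 h4
    generalize ht : ∑ j ∈ Finset.range (2 * g + 1 - m - 1), (2 * g + 1 - m - j) = t at h3 h4
    have hcc : C ^ m * C ^ (2 * g + 1 - m - 1) ≤ C ^ (2 * g + 1) := by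
      rw [← pow_add]
      exact Nat.pow_le_pow_right hC1 (by omega)
    have hst : dg F * s + dg F * t + 2 * g * dg F ≤ dg F * dd g := by
      calc dg F * s + dg F * t + 2 * g * dg F = dg F * (s + t + 2 * g) := by ring
        _ ≤ dg F * dd g := Nat.mul_le_mul_left _ h4
    have hst2 : dg F * s + dg F * t ≤ dg F * dd g := le_trans (Nat.le_add_right _ _) hst
    have h2pos : 1 ≤ 2 ^ (2 * g + 2) := Nat.one_le_two_pow
    calc (Rd F g B m).ncard * B ^ (2 * g * dg F)
        ≤ (C ^ m * (2 ^ (2 * g + 2) * B) ^ (dg F * s) *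
          (C ^ (2 * g + 1 - m - 1) * (2 ^ (2 * g + 2) * B) ^ (dg F * t))) * B ^ (2 * g * dg F) :=
          Nat.mul_le_mul_right _ h3
      _ = (C ^ m * C ^ (2 * g + 1 - m - 1)) * ((2 ^ (2 * g + 2)) ^ (dg F * s + dg F * t) *
          B ^ (dg F * s + dg F * t + 2 * g * dg F)) := by
          rw [mul_pow, mul_pow, pow_add _ (dg F * s) (dg F * t), pow_add _ (dg F * s + dg F * t),
            pow_add B (dg F * s) (dg F * t)]
          ring
      _ ≤ C ^ (2 * g + 1) * ((2 ^ (2 * g + 2)) ^ (dg F * dd g) * B ^ (dg F * dd g)) :=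
          Nat.mul_le_mul hcc (Nat.mul_le_mul (Nat.pow_le_pow_right h2pos hst2)
            (Nat.pow_le_pow_right hB hst))
      _ = C ^ (2 * g + 1) * (2 ^ (2 * g + 2)) ^ (dg F * dd g) * B ^ (dg F * dd g) := by ring
  calc {a ∈ Bz F g B | ¬ Irreducible ((pol a).map (algebraMap (𝓞 F) F))}.ncard * B ^ (2 * g * dg F)
      ≤ (∑ m ∈ Finset.Icc 1 (2 * g), (Rd F g B m).ncard) * B ^ (2 * g * dg F) := Nat.mul_le_mul_right _ h1
    _ = ∑ m ∈ Finset.Icc 1 (2 * g), (Rd F g B m).ncard * B ^ (2 * g * dg F) := Finset.sum_mul _ _ _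
    _ ≤ ∑ m ∈ Finset.Icc 1 (2 * g), C ^ (2 * g + 1) * (2 ^ (2 * g + 2)) ^ (dg F * dd g) *
        B ^ (dg F * dd g) := Finset.sum_le_sum h2
    _ = (2 * g) * (C ^ (2 * g + 1) * (2 ^ (2 * g + 2)) ^ (dg F * dd g)) * B ^ (dg F * dd g) := by
        rw [Finset.sum_const, Nat.card_Icc, smul_eq_mul, Nat.add_sub_cancel]
        ring

end Pool.Agent.H71.CG
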