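import Pool.Agent.H459.CG.Ind
import Pool.Agent.H459.CG.Bidxg
import Pool.Agent.H459.CG.Bexpg
import Pool.Agent.H459.CG.Bredg
import Pool.Graph.R_pool_sql_team_seeded_63374d34.N352.PF.All

/-!
# The average of the 2-torsion in the class groups (helper459)
-/

set_option autoImplicit false
set_option linter.all false

open Polynomial IsDedekindDomain Matrix NumberField
open scoped Classical IntermediateField

namespace Pool.Agent.H459.CG

open Pool.Agent.N783.PF (Ht IsGen fF dsc Bd)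
open Pool.Agent.N352.PJ (dd pol dis)
open Pool.Agent.N352.PF (dg Bz Bx Bal bxT)
open Pool.Agent.N951.PF (pol_coeff pol_inj pol_monic pol_natDegree ht_pol)
open Pool.Agent.H459.AV (fin_dvd)
open Pool.Agent.H459.UN (Sq)

/-- The number of the ideal classes killed by two. -/
noncomputable def cl2 (L : Type) [Field L] [NumberField L] : ℕ :=
  Nat.card {c : ClassGroup (𝓞 L) // c ^ 2 = 1}

section

variable {F : Type} [Field F] [NumberField F] {g B : ℕ}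

/-- The coefficients. -/
def cf (g : ℕ) (f : (𝓞 F)[X]) : Fin (2 * g) → 𝓞 F := fun j => f.coeff j

theorem pol_cf {f : (𝓞 F)[X]} (h : Ht g B f) : pol (cf g f) = f := by
  ext1
  rename_i n
  rw [pol_coeff]
  split_ifs with h1 h2
  · rw [h1, ← h.deg]
    exact h.mon.coeff_natDegree.symm
  · rfl
  · rcases Nat.lt_trichotomy n (2 * g) with h3 | h3 | h3
    · exact absurd h3 h2
    · rw [h3, h.tr]
    · rw [Polynomial.coeff_eq_zero_of_natDegree_lt]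
      rw [h.deg]
      omega

theorem cf_mem {f : (𝓞 F)[X]} (h : Ht g B f) : cf g f ∈ Bz F g B := by
  intro j σ
  have h1 := h.ht j j.2.le σ
  push_cast
  exact h1

theorem zd_cf {f : (𝓞 F)[X]} (h : Ht g B f) : Zd (cf g f) = ZD g f := by
  unfold Zd ZD dis dsc
  rw [pol_cf h]

theorem cf_inj : Set.InjOn (cf g) {f : (𝓞 F)[X] | Ht g B f} := by
  intro f hf f' hf' h
  rw [← pol_cf hf, ← pol_cf hf', h]

/-- The box. -/
def HB (F : Type) [Field F] [NumberField F] (g B : ℕ) : Set (𝓞 F)[X] := {f | Ht g B f}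

theorem hb_eq : HB F g B = pol '' (Bz F g B) := by
  ext f
  constructor
  · intro h
    exact ⟨cf g f, cf_mem h, pol_cf h⟩
  · rintro ⟨a, ha, rfl⟩
    exact ht_pol ha

end

/-- The size of the box. -/
theorem hb_card (F : Type) [Field F] [NumberField F] (g : ℕ) (hg : 1 ≤ g) : ∃ C : ℕ, 1 ≤ C ∧
    (∀ B : ℕ, 1 ≤ B → (HB F g B).Finite ∧ (HB F g B).ncard ≤ C * B ^ (dg F * dd g)) ∧
    ∀ B : ℕ, C ≤ B → B ^ (dg F * dd g) ≤ C * (HB F g B).ncard := by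
  obtain ⟨C₁, hC₁, h1⟩ := bxT F g
  obtain ⟨C₂, h2⟩ := Pool.Agent.H71.CG.redg F g hg
  have hcb : ∀ B, (HB F g B).ncard = (Bz F g B).ncard := fun B => by
    rw [hb_eq, Set.ncard_image_of_injective _ pol_inj]
  have hup : ∀ B : ℕ, C₁ ≤ B → (Bz F g B).ncard ≤ C₁ * B ^ (dg F * dd g) ∧
      B ^ (dg F * dd g) ≤ C₁ * (Bz F g B).ncard := by
    intro B hB
    obtain ⟨-, h3, h4⟩ := h1 B 1 (fun _ => 0) one_pos (by omega)
    have e : Bx g B 1 (fun _ => (0 : 𝓞 F)) = Bz F g B := by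
      ext a
      constructor
      · exact fun h => h.1
      · exact fun h => ⟨h, fun j => by simp⟩
    rw [e, one_pow, mul_one] at h3 h4
    exact ⟨h4, by simpa using h3⟩
  refine ⟨C₁ * C₁ ^ (dg F * dd g), Nat.one_le_iff_ne_zero.2 (by positivity), fun B hB => ?_,
    fun B hB => ?_⟩
  · refine ⟨by rw [hb_eq]; exact (h2 B hB).1.image _, ?_⟩
    rw [hcb]
    have hmono : (Bz F g B).ncard ≤ (Bz F g (C₁ * B)).ncard := by
      refine Set.ncard_le_ncard ?_ (h2 (C₁ * B) (Nat.mul_pos hC₁ hB)).1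
      intro a ha j σ
      refine (ha j σ).trans ?_
      exact_mod_cast Nat.pow_le_pow_left (Nat.le_mul_of_pos_left B hC₁) _
    refine hmono.trans ((hup (C₁ * B) (Nat.le_mul_of_pos_right _ hB)).1.trans (le_of_eq ?_))
    rw [mul_pow]
    ring
  · rw [hcb]
    refine (hup B ?_).2.trans ?_
    · exact (Nat.le_mul_of_pos_right _ (by positivity)).trans hB
    · exact Nat.mul_le_mul_right _ (Nat.le_mul_of_pos_right _ (by positivity))

/-- Young's inequality. -/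
theorem young {s : ℝ} (hs0 : 0 < s) (hs1 : s < 1) (m K : ℕ) : ∃ A D : ℕ, ∀ N z : ℕ,
    ((N * 2 ^ (m * z + K) : ℕ) : ℝ) ^ s ≤ (N : ℝ) + D * ((A ^ z : ℕ) : ℝ) := by
  obtain ⟨q, hq⟩ : ∃ q : ℝ, q = s / (1 - s) := ⟨_, rfl⟩
  have h1s : 0 < 1 - s := by linarith
  have hq0 : 0 < q := by rw [hq]; positivity
  obtain ⟨A, hA⟩ := exists_nat_ge ((2 : ℝ) ^ (m * q))
  obtain ⟨D, hD⟩ := exists_nat_ge ((2 : ℝ) ^ (K * q))
  refine ⟨A, D, fun N z => ?_⟩
  obtain ⟨y, hy⟩ : ∃ y : ℝ, y = (2 : ℝ) ^ (((m * z + K : ℕ) : ℝ) * q) := ⟨_, rfl⟩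
  have hy0 : 0 ≤ y := by rw [hy]; positivity
  have hN0 : (0 : ℝ) ≤ N := Nat.cast_nonneg _
  have h1 : ((N * 2 ^ (m * z + K) : ℕ) : ℝ) ^ s = (N : ℝ) ^ s * y ^ (1 - s) := by
    rw [Nat.cast_mul, Real.mul_rpow hN0 (Nat.cast_nonneg _)]
    congr 1
    rw [hy, ← Real.rpow_mul (by norm_num)]
    have e1 : ((m * z + K : ℕ) : ℝ) * q * (1 - s) = ((m * z + K : ℕ) : ℝ) * s := by
      rw [hq]
      field_simp
    rw [e1, Real.rpow_mul (by norm_num), Real.rpow_natCast]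
    push_cast
    rfl
  rw [h1]
  have h2 : (N : ℝ) ^ s * y ^ (1 - s) ≤ s * N + (1 - s) * y :=
    Real.geom_mean_le_arith_mean2_weighted hs0.le h1s.le hN0 hy0 (by ring)
  have h3 : y ≤ D * ((A ^ z : ℕ) : ℝ) := by
    have e2 : y = (2 : ℝ) ^ (K * q) * ((2 : ℝ) ^ (m * q)) ^ z := by
      rw [hy, ← Real.rpow_natCast, ← Real.rpow_mul (by norm_num), ← Real.rpow_add (by norm_num)]
      congr 1
      push_cast
      ring
    rw [e2]
    push_cast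
    exact mul_le_mul hD (pow_le_pow_left₀ (by positivity) hA z) (by positivity) (by positivity)
  nlinarith

/-- **The average.** -/
theorem avg (hC : S_CLG) (F : Type) [Field F] [NumberField F] (g : ℕ) (hg : 1 ≤ g) {s : ℝ}
    (hs0 : 0 < s) (hs1 : s < 1) : ∃ C : ℝ, 0 < C ∧ ∀ B : ℕ, 1 ≤ B →
    ∀ T : Finset (𝓞 F)[X], (∀ f ∈ T, Ht g B f) → ∀ G : (∀ f : T, Gd g f.1),
    ∑ f : T, (cl2 (G f).L : ℝ) ^ s ≤ C * (B : ℝ) ^ (dg F * dd g) := by
  obtain ⟨K, hK⟩ := cl_le Pool.Agent.H181.CG.idxg hC F g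
  obtain ⟨A, D, hAD⟩ := young hs0 hs1 (4 * g + 2) K
  obtain ⟨C₁, hC₁⟩ := total2 F g hg
  obtain ⟨C₂, hC₂⟩ := Pool.Agent.H788.CG.expg F g A hg
  obtain ⟨C₃, -, hC₃, -⟩ := hb_card F g hg
  obtain ⟨d, hd⟩ : ∃ d, d = Module.finrank ℚ F := ⟨_, rfl⟩
  have hdg : dg F = d := by rw [hd]
  rw [← hd] at hC₁
  rw [hdg] at hC₂ hC₃ ⊢
  refine ⟨C₃ + C₁ + D * C₂ + 1, by positivity, fun B hB T hT G => ?_⟩
  obtain ⟨h1, h2⟩ := hC₁ B hB T hT G
  have hcf : ∀ f : T, cl2 (G f).L ≤ sG (G f) * 2 ^ ((4 * g + 2) * (ZD g f.1).ncard + K) :=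
    fun f => hK (G f).L f.1 (G f).θ (G f).gen (h1 f)
  have h3 := hC₂ B hB (T.image (cf g)) (fun a ha => by
    obtain ⟨f, hf, rfl⟩ := Finset.mem_image.1 ha
    refine ⟨cf_mem (hT f hf), ?_⟩
    have h4 := Pool.Agent.H459.UT.dsc_ne (G ⟨f, hf⟩).gen
    unfold dis
    rw [pol_cf (hT f hf)]
    exact h4)
  have h4 : ∑ a ∈ T.image (cf g), A ^ (Zd a).ncard = ∑ f ∈ T, A ^ (ZD g f).ncard := by
    rw [Finset.sum_image fun f hf f' hf' h => cf_inj (hT f hf) (hT f' hf') h]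
    exact Finset.sum_congr rfl fun f hf => by rw [zd_cf (hT f hf)]
  have h5 : ∑ f ∈ T, A ^ (ZD g f).ncard ≤ C₂ * B ^ (d * dd g) := by
    rw [← h4]
    exact h3.2
  have h6 : T.card ≤ C₃ * B ^ (d * dd g) := by
    rw [← Set.ncard_coe_finset]
    exact (Set.ncard_le_ncard (fun f hf => hT f hf) (hC₃ B hB).1).trans (hC₃ B hB).2
  have h7 : ∑ f : T, (cl2 (G f).L : ℝ) ^ s ≤
      ∑ f : T, ((sG (G f) : ℝ) + D * ((A ^ (ZD g f.1).ncard : ℕ) : ℝ)) := by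
    refine Finset.sum_le_sum fun f _ => ?_
    refine (Real.rpow_le_rpow (Nat.cast_nonneg _) (Nat.cast_le.2 (hcf f)) hs0.le).trans ?_
    exact hAD _ _
  refine h7.trans ?_
  rw [Finset.sum_add_distrib, ← Finset.mul_sum]
  have h8 : ∑ f : T, ((A ^ (ZD g f.1).ncard : ℕ) : ℝ) = ((∑ f ∈ T, A ^ (ZD g f).ncard : ℕ) : ℝ) := by
    rw [Finset.sum_coe_sort T (fun f => ((A ^ (ZD g f).ncard : ℕ) : ℝ))]
    push_cast
    rfl
  have h9 : (∑ f : T, (sG (G f) : ℝ)) ≤ (T.card : ℝ) + C₁ * (B : ℝ) ^ (d * dd g) := by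
    exact_mod_cast h2
  rw [h8]
  have h10 : ((∑ f ∈ T, A ^ (ZD g f).ncard : ℕ) : ℝ) ≤ C₂ * (B : ℝ) ^ (d * dd g) := by
    exact_mod_cast h5
  have h11 : (T.card : ℝ) ≤ C₃ * (B : ℝ) ^ (d * dd g) := by exact_mod_cast h6
  have hD0 : (0 : ℝ) ≤ D := Nat.cast_nonneg _
  have hB0 : (0 : ℝ) ≤ (B : ℝ) ^ (d * dd g) := by positivity
  nlinarith [mul_le_mul_of_nonneg_left h10 hD0]

end Pool.Agent.H459.CG
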