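import Mathlib

/-!
# Project CG (helper459), part GENS: a small generator of trace zero
-/

set_option autoImplicit false

namespace Pool.Agent.H996.CG

open NumberField NumberField.InfinitePlace NumberField.mixedEmbedding Module MeasureTheory
  MeasureTheory.Measure
open scoped IntermediateField ENNReal NNReal nonZeroDivisors

/-- **S_GENS** (a small generator of trace zero). Verbatim copy of the definition in
`Pool.Agent.H459.CG.Stm2`. -/
def S_GENS : Prop := ∀ (F : Type) [Field F] [NumberField F] (n : ℕ), 2 ≤ n → ∃ C : ℝ, 0 < C ∧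
  ∀ (L : Type) [Field L] [NumberField L] [Algebra F L], Module.finrank F L = n →
  ∃ α : L, IsIntegral ℤ α ∧ Algebra.trace F L α = 0 ∧ F⟮α⟯ = ⊤ ∧
    ∀ τ : L →+* ℂ, ‖τ α‖ ≤ C * Real.sqrt |(discr L : ℝ)|

/-- the Minkowski bound in terms of the discriminant -/
theorem minkowski_lt (L : Type) [Field L] [NumberField L] :
    minkowskiBound L ↑1 <
      ((NNReal.sqrt ‖discr L‖₊ * (2 : ℝ≥0) ^ (finrank ℚ L) + 1 : ℝ≥0) : ℝ≥0∞) := by
  have h0 : NNReal.sqrt ‖discr L‖₊ * (2 : ℝ≥0) ^ (finrank ℚ L) <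
      NNReal.sqrt ‖discr L‖₊ * (2 : ℝ≥0) ^ (finrank ℚ L) + 1 := by
    rw [lt_add_iff_pos_right]
    exact zero_lt_one
  refine lt_of_le_of_lt ?_ (ENNReal.coe_lt_coe.mpr h0)
  rw [minkowskiBound, volume_fundamentalDomain_fractionalIdealLatticeBasis, Units.val_one,
    FractionalIdeal.absNorm_one, Rat.cast_one, ENNReal.ofReal_one, one_mul,
    mixedEmbedding.finrank, volume_fundamentalDomain_latticeBasis, ENNReal.coe_mul,
    ENNReal.coe_pow, ENNReal.coe_ofNat,
    show ((NNReal.sqrt ‖discr L‖₊ : ℝ≥0) : ℝ≥0∞) = (1 : ℝ≥0∞) * NNReal.sqrt ‖discr L‖₊ by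
      rw [one_mul]]
  gcongr
  · exact pow_le_one₀ (by positivity) (by simp)
  · rw [one_mul]

/-- a primitive element all whose conjugates are small -/
theorem exists_gen (L : Type) [Field L] [NumberField L] :
    ∃ a : 𝓞 L, ℚ⟮(a : L)⟯ = ⊤ ∧ ∀ τ : L →+* ℂ, ‖τ a‖ ≤
      ((2 : ℝ) ^ (finrank ℚ L) + 2) * Real.sqrt |(discr L : ℝ)| := by
  have hm := minkowski_lt L
  obtain ⟨B, hB⟩ : ∃ B : ℝ≥0, B = NNReal.sqrt ‖discr L‖₊ * (2 : ℝ≥0) ^ (finrank ℚ L) + 1 :=
    ⟨_, rfl⟩
  rw [← hB] at hm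
  have hd1 : (1 : ℝ) ≤ Real.sqrt |(discr L : ℝ)| := by
    rw [Real.one_le_sqrt]
    have h1 : (1 : ℤ) ≤ |discr L| := Int.one_le_abs (discr_ne_zero L)
    exact_mod_cast h1
  have hBr : (B : ℝ) = Real.sqrt |(discr L : ℝ)| * (2 : ℝ) ^ (finrank ℚ L) + 1 := by
    rw [hB, NNReal.coe_add, NNReal.coe_mul, Real.coe_sqrt, coe_nnnorm, Int.norm_eq_abs,
      NNReal.coe_pow]
    simp
  have hB1 : (1 : ℝ) ≤ B := by
    rw [hBr]
    have : (0 : ℝ) ≤ Real.sqrt |(discr L : ℝ)| * (2 : ℝ) ^ (finrank ℚ L) := by positivity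
    linarith
  have hfin : (B : ℝ) + 1 ≤ ((2 : ℝ) ^ (finrank ℚ L) + 2) * Real.sqrt |(discr L : ℝ)| := by
    rw [hBr]
    nlinarith
  obtain ⟨w₀⟩ := (inferInstance : Nonempty (InfinitePlace L))
  by_cases hw₀ : IsReal w₀
  · have h1 : minkowskiBound L ↑1 < (convexBodyLTFactor L) * B := by
      refine lt_of_lt_of_le hm ?_
      calc (B : ℝ≥0∞) = 1 * B := by rw [one_mul]
        _ ≤ convexBodyLTFactor L * B := by
          gcongr
          exact mod_cast one_le_convexBodyLTFactor L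
    obtain ⟨a, ha1, ha2⟩ := exists_primitive_element_lt_of_isReal L hw₀ h1
    refine ⟨a, ha1, fun τ => ?_⟩
    have h2 := ha2 (InfinitePlace.mk τ)
    rw [InfinitePlace.apply] at h2
    refine h2.le.trans (le_trans ?_ hfin)
    have h3 : max (B : ℝ) 1 = B := max_eq_left hB1
    have h4 : (((max B 1 : ℝ≥0)) : ℝ) = max (B : ℝ) 1 := by simp
    linarith
  · have h1 : minkowskiBound L ↑1 < (convexBodyLT'Factor L) * B := by
      refine lt_of_lt_of_le hm ?_
      calc (B : ℝ≥0∞) = 1 * B := by rw [one_mul]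
        _ ≤ convexBodyLT'Factor L * B := by
          gcongr
          exact mod_cast one_le_convexBodyLT'Factor L
    obtain ⟨a, ha1, ha2⟩ := exists_primitive_element_lt_of_isComplex L
      (not_isReal_iff_isComplex.mp hw₀) h1
    refine ⟨a, ha1, fun τ => ?_⟩
    have h2 := ha2 (InfinitePlace.mk τ)
    rw [InfinitePlace.apply] at h2
    refine h2.le.trans (le_trans ?_ hfin)
    rw [Real.sqrt_le_left (by positivity)]
    nlinarith

/-- **GENS.** -/
theorem gens : S_GENS := by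
  intro F _ _ n hn
  refine ⟨2 * n * ((2 : ℝ) ^ (finrank ℚ F * n) + 2), by positivity, ?_⟩
  intro L _ _ _ hL
  have hn0 : (n : L) ≠ 0 := by
    have : n ≠ 0 := by omega
    exact_mod_cast this
  obtain ⟨a, ha1, ha2⟩ := exists_gen L
  have hQ : finrank ℚ L = finrank ℚ F * n := by
    rw [← hL, Module.finrank_mul_finrank]
  rw [hQ] at ha2
  obtain ⟨t, ht⟩ : ∃ t : F, t = Algebra.trace F L (a : L) := ⟨_, rfl⟩
  have hti : IsIntegral ℤ t := by
    rw [ht]
    exact Algebra.isIntegral_trace a.isIntegral_coe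
  refine ⟨(n : L) * (a : L) - algebraMap F L t, ?_, ?_, ?_, ?_⟩
  · refine IsIntegral.sub (IsIntegral.mul ?_ a.isIntegral_coe) (hti.algebraMap)
    exact isIntegral_algebraMap (R := ℤ) (A := L) (x := (n : ℤ)) |> fun h => by simpa using h
  · rw [map_sub, Algebra.trace_algebraMap, hL, ← nsmul_eq_mul, map_nsmul, ← ht, sub_self]
  · obtain ⟨β, hβ⟩ : ∃ β : L, β = (n : L) * (a : L) - algebraMap F L t := ⟨_, rfl⟩
    rw [← hβ]
    have h1 : (a : L) ∈ F⟮β⟯ := by
      have h2 : (a : L) = (β + algebraMap F L t) / (n : L) := by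
        rw [hβ]
        field_simp
        ring
      rw [h2]
      refine div_mem (add_mem (IntermediateField.mem_adjoin_simple_self F β)
        (IntermediateField.algebraMap_mem _ t)) ?_
      exact natCast_mem _ n
    have h3 : ℚ⟮(a : L)⟯ ≤ (F⟮β⟯).restrictScalars ℚ := by
      rw [IntermediateField.adjoin_simple_le_iff]
      exact h1
    rw [ha1] at h3
    rw [eq_top_iff]
    intro x _
    exact h3 (IntermediateField.mem_top)
  · intro τ
    let _ : Algebra F ℂ := (τ.comp (algebraMap F L)).toAlgebra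
    have h1 : algebraMap F ℂ (Algebra.trace F L (a : L)) =
        ∑ σ : L →ₐ[F] ℂ, σ (a : L) := trace_eq_sum_embeddings ℂ
    have h2 : τ (algebraMap F L t) = ∑ σ : L →ₐ[F] ℂ, σ (a : L) := by
      rw [← h1, ← ht]
      rfl
    have h3 : ‖∑ σ : L →ₐ[F] ℂ, σ (a : L)‖ ≤
        n * (((2 : ℝ) ^ (finrank ℚ F * n) + 2) * Real.sqrt |(discr L : ℝ)|) := by
      refine (norm_sum_le _ _).trans ?_
      refine (Finset.sum_le_card_nsmul _ (fun σ : L →ₐ[F] ℂ => ‖σ (a : L)‖) _
        (fun (σ : L →ₐ[F] ℂ) _ => ha2 (σ : L →+* ℂ))).trans ?_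
      rw [Finset.card_univ, AlgHom.card F L ℂ, hL, nsmul_eq_mul]
    rw [map_sub, map_mul, map_natCast, h2]
    refine (norm_sub_le _ _).trans ?_
    rw [norm_mul, Complex.norm_natCast]
    have h4 := mul_le_mul_of_nonneg_left (ha2 τ) (Nat.cast_nonneg (α := ℝ) n)
    linarith

end Pool.Agent.H996.CG
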