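import Pool.Agent.H459.CG.Stm2

/-!
# CG-SMD: few polynomials in the box whose root field has a small discriminant
(helper21 for helper459)
-/

set_option autoImplicit false
set_option linter.unusedSectionVars false

open Polynomial IsDedekindDomain NumberField
open scoped Classical IntermediateField

namespace Pool.Agent.H21.CG

open Pool.Agent.N352.PJ (dd)
open Pool.Agent.N783.PF (Ht IsGen fF)
open Pool.Agent.Helper313LB Pool.Agent.Helper313SN
open Module

section fib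

variable {F Ω : Type} [Field F] [NumberField F] [Field Ω] [CharZero Ω] [Algebra F Ω]

theorem trace_nc (L : IntermediateField F Ω) [FiniteDimensional F L] {x : L}
    (hx : F⟮x⟯ = (⊤ : IntermediateField F L)) :
    Algebra.trace F L x = -(minpoly F x).nextCoeff := by
  have hxF : IsIntegral F x := Algebra.IsIntegral.isIntegral x
  have htop : Algebra.adjoin F {x} = ⊤ := by
    rw [← IntermediateField.adjoin_simple_toSubalgebra_of_isAlgebraic hxF.isAlgebraic, hx,
      IntermediateField.top_toSubalgebra]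
  have h := PowerBasis.trace_gen_eq_nextCoeff_minpoly (PowerBasis.ofAdjoinEqTop hxF htop)
  rw [PowerBasis.ofAdjoinEqTop_gen] at h
  exact h

theorem house_iff' (L : IntermediateField F Ω) [NumberField L] (x : L) {R : ℝ} (hR : 0 ≤ R) :
    house x ≤ R ↔ ∀ z ∈ (minpoly ℚ (x : Ω)).rootSet ℂ, ‖z‖ ≤ R := by
  have : IsScalarTower ℚ L Ω := IsScalarTower.of_algebraMap_eq' (Subsingleton.elim _ _)
  have h0 : minpoly ℚ (x : Ω) = minpoly ℚ x := minpoly.algebraMap_eq (algebraMap L Ω).injective x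
  rw [h0, house, pi_norm_le_iff_of_nonneg hR,
    ← NumberField.Embeddings.range_eval_eq_rootSet_minpoly L ℂ x]
  constructor
  · rintro h _ ⟨φ, rfl⟩
    exact h φ
  · intro h φ
    exact h _ ⟨φ, rfl⟩

theorem adjoin_coe' (L : IntermediateField F Ω) (x : L) :
    F⟮(x : Ω)⟯ = L ↔ F⟮x⟯ = (⊤ : IntermediateField F L) := by
  rw [← IntermediateField.lift_adjoin_simple]
  constructor
  · intro h
    apply IntermediateField.lift_injective L
    rw [h, IntermediateField.lift_top]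
  · intro h
    rw [h, IntermediateField.lift_top]

theorem fib_sub (L : IntermediateField F Ω) [FiniteDimensional F L] [NumberField L] (n : ℕ)
    {R : ℝ} (hR : 0 ≤ R) :
    {α | α ∈ S F Ω n R ∧ F⟮α⟯ = L} ⊆ Subtype.val '' {x : L | x ∈ W F L ∧ house x ≤ R} := by
  rintro α ⟨⟨h1, h2, h3, h4⟩, h5⟩
  have hα : α ∈ L := by
    rw [← h5]
    exact IntermediateField.mem_adjoin_simple_self F α
  have h6 := (adjoin_coe' L ⟨α, hα⟩).1 h5
  refine ⟨⟨α, hα⟩, ⟨⟨(isIntegral_algebraMap_iff (algebraMap L Ω).injective).1 h1, ?_⟩, ?_⟩, rfl⟩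
  · rw [trace_nc L h6,
      ← (minpoly.algebraMap_eq (algebraMap L Ω).injective (⟨α, hα⟩ : L) :
        minpoly F (algebraMap L Ω ⟨α, hα⟩) = _)]
    change -(minpoly F α).nextCoeff = 0
    rw [h3, neg_zero]
  · exact (house_iff' L _ hR).2 h4

theorem W_half (L : Type) [Field L] [NumberField L] [Algebra F L] :
    {x : L | x ∈ W F L ∧ house x ≤ 1 / 2}.ncard ≤ 1 := by
  refine (Set.ncard_le_ncard (t := {(0 : L)}) ?_).trans (Set.ncard_singleton _).le
  rintro x ⟨⟨h1, -⟩, h2⟩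
  by_contra h0
  have := one_le_house_of_isIntegral h1 h0
  linarith

theorem fib_card (L : IntermediateField F Ω) [FiniteDimensional F L] [NumberField L] (n B : ℕ)
    (hL : finrank F L = n) :
    {α | α ∈ S F Ω n (2 * (B : ℝ)) ∧ F⟮α⟯ = L}.Finite ∧
    {α | α ∈ S F Ω n (2 * (B : ℝ)) ∧ F⟮α⟯ = L}.ncard ≤
      (1 + 8 * B) ^ (finrank ℚ F * (n - 1)) := by
  have hR : (0 : ℝ) ≤ 2 * (B : ℝ) := by positivity
  have hf := (finite_W F L (2 * (B : ℝ))).image (Subtype.val : L → Ω)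
  have hsub := fib_sub L n hR
  refine ⟨hf.subset hsub, ?_⟩
  have h1 := Set.ncard_le_ncard hsub hf
  rw [Set.ncard_image_of_injective _ Subtype.val_injective] at h1
  have h2 := W_two_scales F L (R := 2 * (B : ℝ)) (ρ := 1 / 2) (by norm_num) hR
  have h3 : (({x : L | x ∈ W F L ∧ house x ≤ 1 / 2}.ncard : ℕ) : ℝ) ≤ 1 := by
    exact_mod_cast W_half L
  have h4 : (1 + 2 * (2 * (B : ℝ)) / (1 / 2)) = 1 + 8 * B := by ring
  rw [h4, hL] at h2
  have h5 : (({x : L | x ∈ W F L ∧ house x ≤ 2 * (B : ℝ)}.ncard : ℕ) : ℝ) ≤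
      (1 + 8 * (B : ℝ)) ^ (finrank ℚ F * (n - 1)) := by
    refine h2.trans ?_
    calc _ ≤ (1 + 8 * (B : ℝ)) ^ (finrank ℚ F * (n - 1)) * 1 :=
          mul_le_mul_of_nonneg_left h3 (by positivity)
      _ = _ := mul_one _
  refine h1.trans ?_
  exact_mod_cast h5

/-- the small generator of an intermediate field, as an element of `S` -/
theorem small_gen (hG : Pool.Agent.H459.CG.S_GENS) (F : Type) [Field F] [NumberField F] (n : ℕ)
    (hn : 2 ≤ n) : ∃ C : ℝ, 1 ≤ C ∧ ∀ (Ω : Type) [Field Ω] [CharZero Ω] [Algebra F Ω]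
    (L : IntermediateField F Ω) [FiniteDimensional F L] [NumberField L], finrank F L = n →
    ∀ B : ℕ, 1 ≤ B → |(discr L : ℝ)| ≤ B →
    L ∈ (fun β => F⟮β⟯) '' S F Ω n (C * Real.sqrt B) := by
  obtain ⟨C, hC, hC2⟩ := hG F n hn
  refine ⟨max C 1, le_max_right _ _, ?_⟩
  intro Ω _ _ _ L _ _ hL B hB hd
  obtain ⟨x, hx1, hx2, hx3, hx4⟩ := hC2 L hL
  have h6 := (adjoin_coe' L x).2 hx3
  have hR : 0 ≤ max C 1 * Real.sqrt B := by positivity
  refine ⟨(x : Ω), ⟨(isIntegral_algebraMap_iff (algebraMap L Ω).injective).2 hx1, ?_, ?_, ?_⟩, h6⟩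
  · have h7 : IsIntegral F (x : Ω) :=
      (Algebra.IsIntegral.isIntegral (R := F) x).map (L.val)
    rw [← IntermediateField.adjoin.finrank h7, h6, hL]
  · rw [trace_nc L hx3] at hx2
    have h8 : minpoly F (x : Ω) = minpoly F x :=
      minpoly.algebraMap_eq (algebraMap L Ω).injective x
    rw [h8]
    exact neg_eq_zero.1 hx2
  · refine (house_iff' L x hR).1 ?_
    rw [house, pi_norm_le_iff_of_nonneg hR]
    intro τ
    refine (hx4 τ).trans ?_
    exact mul_le_mul (le_max_left _ _) (Real.sqrt_le_sqrt hd) (Real.sqrt_nonneg _)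
      (by positivity)

end fib

section poly

variable {F : Type} [Field F] [NumberField F]

theorem gen_top {L : Type} [Field L] [Algebra F L] {g : ℕ} {f : (𝓞 F)[X]}
    {θ : L} (h : IsGen g f θ) : F⟮θ⟯ = ⊤ := by
  rw [eq_top_iff]
  intro x _
  obtain ⟨c, hc⟩ := h.gen x
  rw [hc]
  refine sum_mem fun i _ => mul_mem (IntermediateField.algebraMap_mem _ _) (pow_mem ?_ _)
  exact IntermediateField.mem_adjoin_simple_self F θ

theorem gen_minpoly {L : Type} [Field L] [Algebra F L] {g : ℕ} {f : (𝓞 F)[X]}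
    {θ : L} (h : IsGen g f θ) : IsIntegral F θ ∧ minpoly F θ = fF f := by
  have hmon : (fF f).Monic := h.mon.map _
  have hint : IsIntegral F θ := ⟨fF f, hmon, h.root⟩
  refine ⟨hint, ?_⟩
  have hdeg : (fF f).natDegree = 2 * g + 1 := by
    rw [fF, Polynomial.natDegree_map_eq_of_injective RingOfIntegers.coe_injective, h.deg]
  have h1 : (minpoly F θ).natDegree = 2 * g + 1 := by
    rw [← IntermediateField.adjoin.finrank hint, gen_top h, IntermediateField.finrank_top', h.rank]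
  exact (Polynomial.eq_of_monic_of_dvd_of_natDegree_le (minpoly.monic hint) hmon
    (minpoly.dvd F θ h.root) (by rw [hdeg, h1])).symm

/-- The root in the algebraically closed field. -/
theorem root_of {Ω : Type} [Field Ω] [CharZero Ω] [Algebra F Ω] [IsAlgClosed Ω] {g B : ℕ}
    (hB : 1 ≤ B) {f : (𝓞 F)[X]} (hf : Ht g B f) {L : Type} [Field L] [NumberField L]
    [Algebra F L] {θ : L} (h : IsGen g f θ) :
    ∃ α ∈ S F Ω (2 * g + 1) (2 * (B : ℝ)), minpoly F α = fF f ∧
      finrank F F⟮α⟯ = 2 * g + 1 ∧ Nonempty (F⟮α⟯ ≃+* L) := by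
  obtain ⟨hθ, hmin⟩ := gen_minpoly h
  have hnext : f.nextCoeff = 0 := by
    rw [Polynomial.nextCoeff_of_natDegree_pos (by rw [hf.deg]; omega), hf.deg,
      show 2 * g + 1 - 1 = 2 * g by omega]
    exact hf.tr
  have hP : f = P (2 * g + 1) fun j => f.coeff j := eq_P (by omega) hf.mon hf.deg hnext
  have hPF : (fF f) = P (2 * g + 1) fun j : Fin (2 * g + 1 - 1) => (f.coeff j : F) := by
    conv_lhs => rw [hP]
    exact P_map _ _
  have hirr : Irreducible (P (2 * g + 1) fun j : Fin (2 * g + 1 - 1) => (f.coeff j : F)) := by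
    rw [← hPF, ← hmin]
    exact minpoly.irreducible hθ
  have hB' : (0 : ℝ) < 2 * (B : ℝ) := by
    have : (1 : ℝ) ≤ B := by exact_mod_cast hB
    linarith
  obtain ⟨α, hα, hα2⟩ := root_mem_S F Ω (p := 2 * g + 1) (by omega)
    (fun j : Fin (2 * g + 1 - 1) => f.coeff j) hB' (fun j σ => by
      have h1 := hf.ht (j : ℕ) (by have := j.2; omega) σ
      rw [show 2 * (B : ℝ) / 2 = B by ring]
      exact h1) hirr
  have hm : minpoly F α = fF f := by rw [hα2, hPF]
  have hint : IsIntegral F α := by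
    by_contra hni
    have h0 := minpoly.eq_zero hni
    rw [hm] at h0
    exact (hf.mon.map (algebraMap (𝓞 F) F)).ne_zero h0
  refine ⟨α, hα, hm, ?_, ?_⟩
  · rw [IntermediateField.adjoin.finrank hint]
    exact hα.2.1
  · have e1 : F⟮α⟯ ≃ₐ[F] F⟮θ⟯ :=
      (IntermediateField.adjoin.powerBasis hint).equivOfMinpoly
        (IntermediateField.adjoin.powerBasis hθ) (by
          rw [IntermediateField.adjoin.powerBasis_gen, IntermediateField.adjoin.powerBasis_gen,
            IntermediateField.minpoly_gen, IntermediateField.minpoly_gen, hm, hmin])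
    have e2 : F⟮θ⟯ ≃ₐ[F] L :=
      (IntermediateField.equivOfEq (gen_top h)).trans IntermediateField.topEquiv
    exact ⟨(e1.trans e2).toRingEquiv⟩

end poly

theorem smd (h : Pool.Agent.H459.CG.S_GENS) : Pool.Agent.H459.CG.S_SMD := by
  intro F _ _ g hg
  set n := 2 * g + 1 with hn
  set d := finrank ℚ F with hd
  obtain ⟨C, hC, hC2⟩ := small_gen h F n (by omega)
  let Ω := AlgebraicClosure F
  have hΩ : CharZero Ω := charZero_of_injective_algebraMap (algebraMap F Ω).injective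
  set K : ℝ := 9 ^ (d * (n - 1)) * ((n * (5 * 2 ^ n) ^ (d * (n - 1))) * C ^ (d * ex n)) with hK
  have hC0 : 0 < C := by linarith
  have hKpos : 0 < K := by
    have : (0 : ℝ) < n := by rw [hn]; positivity
    positivity
  refine ⟨K, hKpos, ?_⟩
  intro B hB
  have hB1 : (1 : ℝ) ≤ B := by exact_mod_cast hB
  set T := {f : (𝓞 F)[X] | Ht g B f ∧ ∃ (L : Type) (_ : Field L) (_ : NumberField L)
    (_ : Algebra F L) (θ : L), IsGen g f θ ∧ |(discr L : ℝ)| ≤ B} with hT
  set R : ℝ := C * Real.sqrt B with hR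
  have hR1 : 1 ≤ R := by
    rw [hR]
    have : 1 ≤ Real.sqrt B := Real.one_le_sqrt.2 hB1
    nlinarith
  obtain ⟨hfR, hcR⟩ := S_finite_and_card F Ω (p := n) (by omega) hR1
  set E : Set (IntermediateField F Ω) := (fun β => F⟮β⟯) '' S F Ω n R with hE
  have hfE : E.Finite := hfR.image _
  have hcE : E.ncard ≤ (S F Ω n R).ncard := Set.ncard_image_le hfR
  have key : ∀ f ∈ T, ∃ α, α ∈ S F Ω n (2 * (B : ℝ)) ∧ minpoly F α = fF f ∧ F⟮α⟯ ∈ E := by
    rintro f ⟨hf, L, i1, i2, i3, θ, hθ, hdisc⟩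
    obtain ⟨α, h1, h2, h3, ⟨e⟩⟩ := root_of (Ω := Ω) hB hf hθ
    have hfd : FiniteDimensional F F⟮α⟯ := FiniteDimensional.of_finrank_pos (by omega)
    have hnf : NumberField F⟮α⟯ := nf_of_fd F⟮α⟯
    refine ⟨α, h1, h2, hC2 Ω F⟮α⟯ h3 B hB ?_⟩
    rw [discr_eq_discr_of_ringEquiv F⟮α⟯ e]
    exact hdisc
  choose! a ha1 ha2 ha3 using key
  obtain ⟨hf2, -⟩ := S_finite_and_card F Ω (p := n) (R := 2 * (B : ℝ)) (by omega) (by linarith)
  set U : Set Ω := {α | α ∈ S F Ω n (2 * (B : ℝ)) ∧ F⟮α⟯ ∈ E} with hU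
  have hfU : U.Finite := hf2.subset fun α hα => hα.1
  have hmaps : ∀ f ∈ T, a f ∈ U := fun f hf => ⟨ha1 f hf, ha3 f hf⟩
  have hinj : Set.InjOn a T := by
    intro f hf f' hf' he
    have h1 : fF f = fF f' := by rw [← ha2 f hf, ← ha2 f' hf', he]
    exact Polynomial.map_injective _ RingOfIntegers.coe_injective h1
  have hfT : T.Finite := Set.Finite.of_injOn hmaps hinj hfU
  refine ⟨hfT, ?_⟩
  have hcT : T.ncard ≤ U.ncard := Set.ncard_le_ncard_of_injOn a hmaps hinj hfU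
  have hcU : U.ncard ≤ (1 + 8 * B) ^ (d * (n - 1)) * E.ncard := by
    rw [Set.ncard_eq_toFinset_card U hfU, Set.ncard_eq_toFinset_card E hfE]
    refine Finset.card_le_mul_card_image_of_maps_to (f := fun α => F⟮α⟯) ?_ _ ?_
    · intro α hα
      rw [Set.Finite.mem_toFinset] at hα ⊢
      exact hα.2
    · intro L hL
      rw [Set.Finite.mem_toFinset] at hL
      obtain ⟨β, hβ, rfl⟩ := hL
      have hβi : IsIntegral F β := hβ.1.tower_top
      have hrank : finrank F F⟮β⟯ = n := by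
        rw [IntermediateField.adjoin.finrank hβi]
        exact hβ.2.1
      have hfd : FiniteDimensional F F⟮β⟯ := FiniteDimensional.of_finrank_pos (by omega)
      have hnf : NumberField F⟮β⟯ := nf_of_fd F⟮β⟯
      obtain ⟨h1, h2⟩ := fib_card F⟮β⟯ n B hrank
      refine le_trans ?_ h2
      rw [← Set.ncard_coe_finset]
      refine Set.ncard_le_ncard ?_ h1
      intro α hα
      rw [Finset.coe_filter, Set.mem_ofPred_eq, Set.Finite.mem_toFinset] at hα
      exact ⟨hα.1.1, hα.2⟩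
  have h1 : (T.ncard : ℝ) ≤ (1 + 8 * B) ^ (d * (n - 1)) *
      ((n * (5 * 2 ^ n) ^ (d * (n - 1))) * R ^ (d * ex n)) := by
    have h2 : T.ncard ≤ (1 + 8 * B) ^ (d * (n - 1)) * (S F Ω n R).ncard :=
      hcT.trans (hcU.trans (Nat.mul_le_mul_left _ hcE))
    calc (T.ncard : ℝ) ≤ (((1 + 8 * B) ^ (d * (n - 1)) * (S F Ω n R).ncard : ℕ) : ℝ) := by
          exact_mod_cast h2
      _ = (1 + 8 * (B : ℝ)) ^ (d * (n - 1)) * ((S F Ω n R).ncard : ℝ) := by push_cast; ring
      _ ≤ _ := mul_le_mul_of_nonneg_left hcR (by positivity)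
  have h3 : (1 + 8 * (B : ℝ)) ^ (d * (n - 1)) ≤ 9 ^ (d * (n - 1)) * (B : ℝ) ^ (d * (n - 1)) := by
    rw [← mul_pow]
    exact pow_le_pow_left₀ (by positivity) (by linarith) _
  have hex : ex n = dd g := by
    have h4 := two_mul_ex (p := n) (by omega)
    rw [hn] at h4 ⊢
    have h5 : (2 * g + 1 - 1) * (2 * g + 1 + 2) = 2 * dd g := by
      rw [show 2 * g + 1 - 1 = 2 * g by omega, dd]
      ring
    omega
  have h6 : R ^ (d * ex n) = C ^ (d * ex n) * (B : ℝ) ^ ((d : ℝ) * (dd g / 2)) := by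
    rw [hR, mul_pow, hex]
    congr 1
    rw [Real.sqrt_eq_rpow, ← Real.rpow_natCast, ← Real.rpow_mul (by positivity)]
    congr 1
    push_cast
    ring
  have h7 : (B : ℝ) ^ (d * (n - 1)) = (B : ℝ) ^ ((d : ℝ) * (2 * g)) := by
    rw [← Real.rpow_natCast]
    congr 1
    rw [hn, show 2 * g + 1 - 1 = 2 * g by omega]
    push_cast
    ring
  have h8 : (B : ℝ) ^ ((d : ℝ) * (2 * g + dd g / 2)) =
      (B : ℝ) ^ ((d : ℝ) * (2 * g)) * (B : ℝ) ^ ((d : ℝ) * (dd g / 2)) := by
    rw [← Real.rpow_add (by linarith)]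
    congr 1
    ring
  calc (T.ncard : ℝ) ≤ (1 + 8 * B) ^ (d * (n - 1)) *
        ((n * (5 * 2 ^ n) ^ (d * (n - 1))) * R ^ (d * ex n)) := h1
    _ ≤ (9 ^ (d * (n - 1)) * (B : ℝ) ^ (d * (n - 1))) *
        ((n * (5 * 2 ^ n) ^ (d * (n - 1))) * R ^ (d * ex n)) :=
      mul_le_mul_of_nonneg_right h3 (by positivity)
    _ = K * (B : ℝ) ^ ((d : ℝ) * (2 * g + dd g / 2)) := by
      rw [h6, h7, h8, hK]
      ring

end Pool.Agent.H21.CG
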