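import Pool.Agent.H459.UN.Cls

/-!
# From the relaxed classes to classes of pairs, all odd degrees (helper459)
-/

set_option autoImplicit false
set_option linter.all false

open Polynomial IsDedekindDomain Matrix NumberField
open scoped Classical

namespace Pool.Agent.H459.CG

open Pool.Agent.N783.PF
open Pool.Agent.N352.PJ (Mt Typ dd)
open Pool.Agent.N783.PQ (chp Gap Mid Deep LocIm)
open Pool.Agent.N874.PP (Ev)
open Pool.Agent.N874.PM (ev_down sq_down ev_sq ev_mul)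
open Pool.Agent.H459.UF (below lies_below eq_below)
open Pool.Agent.H459.AV
open Pool.Agent.H459.UN (Sq mem_sq Vz Hw InR ll_hw)

section

variable {F : Type} [Field F] [NumberField F]

/-- The bad primes. -/
def Zf (g : ℕ) (f : (𝓞 F)[X]) : Set (HeightOneSpectrum (𝓞 F)) :=
  {w | (2 : 𝓞 F) ∈ w.asIdeal ∨ dsc g f ∈ w.asIdeal ^ 2}

variable {L : Type} [Field L] [NumberField L] [Algebra F L]

/-- The subgroup of the classes with lattices. -/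
def Sp (g : ℕ) (f : (𝓞 F)[X]) (θ : L) : Subgroup Lˣ := Vz F L (Zf g f) ⊓ ⨅ w : Zf g f, Hw θ w.1

theorem mem_sp {g : ℕ} {f : (𝓞 F)[X]} {θ : L} {x : Lˣ} : x ∈ Sp g f θ ↔
    (IsSquare (Algebra.norm F (x : L)) ∧
      ∀ 𝔓 : HeightOneSpectrum (𝓞 L), below F 𝔓 ∉ Zf g f → Ev 𝔓 (x : L)) ∧
    ∀ w ∈ Zf g f, x ∈ Hw θ w := by
  unfold Sp
  rw [Subgroup.mem_inf, Subgroup.mem_iInf]
  refine and_congr Iff.rfl ⟨fun h w hw => h ⟨w, hw⟩, fun h w => h w.1 w.2⟩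

theorem zf_fin {g : ℕ} {f : (𝓞 F)[X]} (hd : dsc g f ≠ 0) : (Zf g f).Finite := by
  refine ((fin_dvd two_ne_zero).union (fin_dvd hd)).subset ?_
  rintro w (h | h)
  · exact Or.inl h
  · exact Or.inr (Ideal.pow_le_self two_ne_zero h)

/-- **The lattice.** -/
theorem sp_lat {g : ℕ} {f : (𝓞 F)[X]} {θ : L} (hG : IsGen g f θ) {x : Lˣ} (hx : x ∈ Sp g f θ) :
    ∃ Λ : Submodule (𝓞 F) L, Lat hG (x : L) Λ := by
  rw [mem_sp] at hx
  obtain ⟨⟨-, h2⟩, h3⟩ := hx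
  obtain ⟨C, hC1, -⟩ := Pool.Agent.H459.UT.sd hG (fun w => w ∈ Zf g f)
    (zf_fin (Pool.Agent.H459.UT.dsc_ne hG)) (fun w hw h => hw (Or.inr h)) x.ne_zero
    (fun 𝔓 hb => h2 𝔓 fun h => hb _ h fun a ha => (Pool.Agent.H459.UF.mem_below 𝔓 a).1 ha)
    (fun w hw => by
      obtain ⟨r, u, rfl, h4, h5⟩ := h3 w hw
      rw [Units.val_inv_eq_inv_val] at h5
      obtain ⟨G, lam, h6⟩ := ll_hw hG w r.ne_zero u.ne_zero h4 h5
      rw [Units.val_mul, Units.val_pow_eq_pow_val]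
      exact ⟨G, lam, h6⟩)
  obtain ⟨Λ, -, h4⟩ := hC1.lat x.ne_zero
  exact ⟨Λ, h4⟩

/-- The bad classes of pairs. -/
def TG (F : Type) [Field F] [NumberField F] (g N c : ℕ) : Set (Cp F g) :=
  {q : Cp F g | ∃ w, Typ g w ∧ Gap g N w ∧ (Mid g N w ∨ Deep g N c w) ∧ q ∈ Pc F g N c w}

/-- **From the classes to the classes of pairs.** -/
theorem cls2 (F : Type) [Field F] [NumberField F] (g : ℕ) (hg : 1 ≤ g) : ∃ κ : ℕ,
    ∀ (B N : ℕ) (f : (𝓞 F)[X]), Ht g B f → 2 ^ κ * B ≤ 4 ^ N →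
    ∀ (L : Type) [Field L] [NumberField L] [Algebra F L] (θ : L), IsGen g f θ →
    ∃ Φ : Lˣ → Cp F g,
      (∀ x ∈ Sp g f θ, x ∉ Sq L → Φ x ∈ TG F g N κ ∧ ∀ A B', Φ x = cp A B' → chp A B' = fF f) ∧
      ∀ x ∈ Sp g f θ, ∀ y ∈ Sp g f θ, x ∉ Sq L → y ∉ Sq L → Φ x = Φ y → x * y ∈ Sq L := by
  obtain ⟨κ, hκ⟩ := lbA g F hg
  refine ⟨κ, fun B N f hHt hBN L _ _ _ θ hG => ?_⟩
  have hirr' := Pool.Agent.N438.PF.irrF hG
  have hex : ∀ x : Lˣ, ∃ q : Cp F g, x ∈ Sp g f θ → x ∉ Sq L →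
      q ∈ TG F g N κ ∧ ∃ (A A' : Mt g (𝓞 F)) (e : Fin (2 * g + 1) → L),
        LinearIndependent F e ∧ Gr hG (x : L) e A A' ∧
        chp (mF A) (mF A') = fF f ∧ q = cp (mF A) (mF A') := by
    intro x
    by_cases hh : x ∈ Sp g f θ ∧ x ∉ Sq L
    · obtain ⟨hS, hT⟩ := hh
      obtain ⟨Λ, hΛ⟩ := sp_lat hG hS
      obtain ⟨w, w1, w2, w3, A, A', e, x1, x2, x3, x4⟩ := hκ L f θ B N hG hHt hBN _ Λ x.ne_zero
        (mem_sp.1 hS).1.1 hΛ (fun h1 => hT (mem_sq.2 h1))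
      exact ⟨cp (mF A) (mF A'), fun _ _ => ⟨⟨w, w1, w2, w3, A, A', x1, by rw [x4]; exact hirr',
        rfl⟩, A, A', e, x2, x3, x4, rfl⟩⟩
    · exact ⟨cp 0 0, fun h1 h2 => absurd ⟨h1, h2⟩ hh⟩
  choose Φ hΦ using hex
  refine ⟨Φ, fun x hS hT => ?_, fun x hS y hS' hT hT' he => ?_⟩
  · obtain ⟨h1, A, A', e, -, -, h2, h3⟩ := hΦ x hS hT
    refine ⟨h1, fun A₁ B₁ h4 => ?_⟩
    rw [← h2]
    rw [h3] at h4
    exact (cp_eq.1 h4).chp_eq
  · obtain ⟨-, A, A', e, h1, h2, -, h3⟩ := hΦ x hS hT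
    obtain ⟨-, A₁, A₁', e', h1', h2', -, h3'⟩ := hΦ y hS' hT'
    rw [mem_sq, Units.val_mul]
    exact sq_of_eqv hG x.ne_zero y.ne_zero h1 h1' h2 h2' (by rw [← h3, ← h3', he])

end

/-- The data for a polynomial: an extension of degree `2 g + 1` generated by a root. -/
structure Gd {F : Type} [Field F] [NumberField F] (g : ℕ) (f : (𝓞 F)[X]) where
  /-- the extension -/
  L : Type
  [fL : Field L]
  [nL : NumberField L]
  [aL : Algebra F L]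
  /-- the generator -/
  θ : L
  gen : IsGen g f θ

attribute [instance] Gd.fL Gd.nL Gd.aL

section

variable {F : Type} [Field F] [NumberField F] {g : ℕ}

/-- The number of the classes with lattices. -/
noncomputable def sG {f : (𝓞 F)[X]} (G : Gd g f) : ℕ := (Sq G.L).relIndex (Sp g f G.θ)

theorem sG_eq {f : (𝓞 F)[X]} (G : Gd g f) :
    sG G = Nat.card (↥(Sp g f G.θ) ⧸ (Sq G.L).subgroupOf (Sp g f G.θ)) := rfl

/-- The classes of the polynomials in `T` and the classes of pairs of forms. -/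
theorem sp_inj {κ B N : ℕ} (hκ : ∀ (f : (𝓞 F)[X]), Ht g B f →
    ∀ (L : Type) [Field L] [NumberField L] [Algebra F L] (θ : L), IsGen g f θ →
    ∃ Φ : Lˣ → Cp F g,
      (∀ x ∈ Sp g f θ, x ∉ Sq L → Φ x ∈ TG F g N κ ∧ ∀ A B', Φ x = cp A B' → chp A B' = fF f) ∧
      ∀ x ∈ Sp g f θ, ∀ y ∈ Sp g f θ, x ∉ Sq L → y ∉ Sq L → Φ x = Φ y → x * y ∈ Sq L)
    (hfin : (TG F g N κ).Finite) (T : Finset (𝓞 F)[X]) (hT : ∀ f ∈ T, Ht g B f)
    (G : ∀ f : T, Gd g f.1) :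
    (∀ f : T, sG (G f) ≠ 0) ∧ ∑ f : T, sG (G f) ≤ T.card + (TG F g N κ).ncard := by
  have h1 : ∀ p : T, ∃ Φ : (G p).Lˣ → Cp F g,
      (∀ x ∈ Sp g p.1 (G p).θ, x ∉ Sq (G p).L → Φ x ∈ TG F g N κ ∧
        ∀ A B', Φ x = cp A B' → chp A B' = fF p.1) ∧
      ∀ x ∈ Sp g p.1 (G p).θ, ∀ y ∈ Sp g p.1 (G p).θ, x ∉ Sq (G p).L →
        y ∉ Sq (G p).L → Φ x = Φ y → x * y ∈ Sq (G p).L := fun p =>
    hκ p.1 (hT p.1 p.2) (G p).L (G p).θ (G p).gen
  choose Φ hΦ using h1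
  haveI : Finite (TG F g N κ) := hfin.to_subtype
  let Q : T → Type := fun p => ↥(Sp g p.1 (G p).θ) ⧸
    (Sq (G p).L).subgroupOf (Sp g p.1 (G p).θ)
  let Ψ : (Σ p : T, Q p) → T ⊕ TG F g N κ := fun z =>
    if h : (z.2.out : (G z.1).Lˣ) ∈ Sq (G z.1).L then Sum.inl z.1
    else Sum.inr ⟨Φ z.1 (z.2.out : (G z.1).Lˣ), ((hΦ z.1).1 _ z.2.out.2 h).1⟩
  have hout : ∀ (p : T) (x y : Q p), (x.out : (G p).Lˣ) * (y.out : (G p).Lˣ) ∈ Sq (G p).L →
      x = y := by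
    intro p x y hc
    rw [← Quotient.out_eq x, ← Quotient.out_eq y]
    apply QuotientGroup.eq.2
    rw [Subgroup.mem_subgroupOf]
    have e : (((x.out)⁻¹ * y.out : ↥(Sp g p.1 (G p).θ)) : (G p).Lˣ) =
        ((x.out : (G p).Lˣ) * (y.out : (G p).Lˣ)) * ((x.out : (G p).Lˣ)⁻¹) ^ 2 := by
      rw [Subgroup.coe_mul, Subgroup.coe_inv, sq]
      calc ((x.out : (G p).Lˣ))⁻¹ * (y.out : (G p).Lˣ)
          = ((x.out : (G p).Lˣ) * (x.out : (G p).Lˣ)⁻¹) *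
            (((x.out : (G p).Lˣ))⁻¹ * (y.out : (G p).Lˣ)) := by rw [mul_inv_cancel, one_mul]
        _ = _ := by
            rw [mul_comm (x.out : (G p).Lˣ) (y.out : (G p).Lˣ)]
            simp only [mul_comm, mul_left_comm, mul_assoc]
    rw [e]
    exact (Sq (G p).L).mul_mem hc ⟨_, rfl⟩
  have hΨ : Function.Injective Ψ := by
    rintro ⟨p, x⟩ ⟨p', x'⟩ he
    by_cases hx : (x.out : (G p).Lˣ) ∈ Sq (G p).L
    · have e1 : Ψ ⟨p, x⟩ = Sum.inl p := dif_pos hx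
      by_cases hx' : (x'.out : (G p').Lˣ) ∈ Sq (G p').L
      · have e2 : Ψ ⟨p', x'⟩ = Sum.inl p' := dif_pos hx'
        rw [e1, e2] at he
        have hp : p = p' := Sum.inl_injective he
        subst hp
        rw [hout p x x' ((Sq (G p).L).mul_mem hx hx')]
      · have e2 : Ψ ⟨p', x'⟩ = Sum.inr ⟨Φ p' (x'.out : (G p').Lˣ), _⟩ := dif_neg hx'
        rw [e1, e2] at he
        exact absurd he (by simp)
    · have e1 : Ψ ⟨p, x⟩ = Sum.inr ⟨Φ p (x.out : (G p).Lˣ), _⟩ := dif_neg hx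
      by_cases hx' : (x'.out : (G p').Lˣ) ∈ Sq (G p').L
      · have e2 : Ψ ⟨p', x'⟩ = Sum.inl p' := dif_pos hx'
        rw [e1, e2] at he
        exact absurd he (by simp)
      · have e2 : Ψ ⟨p', x'⟩ = Sum.inr ⟨Φ p' (x'.out : (G p').Lˣ), _⟩ := dif_neg hx'
        rw [e1, e2] at he
        have hq : Φ p (x.out : (G p).Lˣ) = Φ p' (x'.out : (G p').Lˣ) :=
          congrArg Subtype.val (Sum.inr_injective he)
        have hp : p = p' := by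
          obtain ⟨⟨A, B'⟩, hAB⟩ := Quotient.exists_rep (Φ p (x.out : (G p).Lˣ))
          have hAB' : Φ p (x.out : (G p).Lˣ) = cp A B' := hAB.symm
          have c1 := ((hΦ p).1 _ x.out.2 hx).2 A B' hAB'
          have c2 := ((hΦ p').1 _ x'.out.2 hx').2 A B' (by rw [← hq]; exact hAB')
          have c3 : fF p.1 = fF p'.1 := by rw [← c1, ← c2]
          exact Subtype.ext
            (Polynomial.map_injective (algebraMap (𝓞 F) F) RingOfIntegers.coe_injective c3)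
        subst hp
        have hc := (hΦ p).2 _ x.out.2 _ x'.out.2 hx hx' hq
        rw [hout p x x' hc]
  haveI hfS : Finite (Σ p : T, Q p) := Finite.of_injective Ψ hΨ
  have hfin1 : ∀ p : T, Finite (Q p) := fun p =>
    Finite.of_injective (fun x => (⟨p, x⟩ : Σ p : T, Q p))
      (fun x y h => eq_of_heq (Sigma.mk.inj_iff.1 h).2)
  have hsN : ∀ p : T, sG (G p) = Nat.card (Q p) := fun p => sG_eq (G p)
  refine ⟨fun p => ?_, ?_⟩
  · rw [hsN p]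
    haveI := hfin1 p
    haveI : Nonempty (Q p) := ⟨QuotientGroup.mk 1⟩
    exact Nat.card_pos.ne'
  · have h2 := Nat.card_le_card_of_injective Ψ hΨ
    haveI := hfin1
    rw [Nat.card_sum, Nat.card_coe_set_eq, Nat.card_sigma, Nat.card_eq_fintype_card,
      Fintype.card_coe] at h2
    refine le_trans (le_of_eq ?_) h2
    exact Finset.sum_congr rfl fun p _ => hsN p

end

/-- **The total number of the classes.** -/
theorem total2 (F : Type) [Field F] [NumberField F] (g : ℕ) (hg : 1 ≤ g) : ∃ C : ℕ, ∀ B : ℕ,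
    1 ≤ B → ∀ T : Finset (𝓞 F)[X], (∀ f ∈ T, Ht g B f) → ∀ G : (∀ f : T, Gd g f.1),
    (∀ f : T, sG (G f) ≠ 0) ∧
    ∑ f : T, sG (G f) ≤ T.card + C * B ^ (Module.finrank ℚ F * dd g) := by
  obtain ⟨κ, hκ⟩ := cls2 F g hg
  obtain ⟨C₁, N₀, hC₁⟩ := badA F g κ hg
  obtain ⟨d, hd⟩ : ∃ d, d = Module.finrank ℚ F := ⟨_, rfl⟩
  rw [← hd] at hC₁ ⊢
  refine ⟨C₁ * (4 ^ (N₀ + κ) * 4) ^ (d * dd g), fun B hB T hT G => ?_⟩
  obtain ⟨N, hN⟩ : ∃ N, N = N₀ + κ + Nat.clog 4 B := ⟨_, rfl⟩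
  have h1 : B ≤ 4 ^ Nat.clog 4 B := Nat.le_pow_clog (by norm_num) B
  have h2 : 4 ^ Nat.clog 4 B ≤ 4 * B := by
    rcases Nat.lt_or_ge 1 B with h | h
    · have h3 := Nat.pow_pred_clog_lt_self (b := 4) (by norm_num) h
      have h4 : 0 < Nat.clog 4 B := Nat.clog_pos (by norm_num) h
      calc 4 ^ Nat.clog 4 B = 4 * 4 ^ (Nat.clog 4 B).pred := by
            rw [← pow_succ']
            congr 1
            rw [Nat.pred_eq_sub_one]
            omega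
        _ ≤ 4 * B := Nat.mul_le_mul_left _ h3.le
    · have : B = 1 := by omega
      rw [this]
      simp
  have h3 : 2 ^ κ * B ≤ 4 ^ N := by
    rw [hN, pow_add, pow_add]
    calc 2 ^ κ * B ≤ 4 ^ κ * 4 ^ Nat.clog 4 B :=
          Nat.mul_le_mul (Nat.pow_le_pow_left (by norm_num) _) h1
      _ ≤ 4 ^ N₀ * (4 ^ κ * 4 ^ Nat.clog 4 B) := Nat.le_mul_of_pos_left _ (by positivity)
      _ = _ := by ring
  have h4 : 4 ^ N ≤ 4 ^ (N₀ + κ) * 4 * B := by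
    rw [hN, pow_add 4 (N₀ + κ), mul_assoc]
    exact Nat.mul_le_mul_left _ h2
  obtain ⟨hfin, hcard⟩ := hC₁ N (by omega)
  obtain ⟨h5, h6⟩ := sp_inj (κ := κ) (B := B) (N := N) (fun f hh L _ _ _ θ hG =>
    hκ B N f hh h3 L θ hG) hfin T hT G
  refine ⟨h5, h6.trans (Nat.add_le_add_left (hcard.trans ?_) _)⟩
  calc C₁ * 2 ^ (d * (2 * N * dd g)) = C₁ * (4 ^ N) ^ (d * dd g) := by
        rw [show (4 : ℕ) = 2 ^ 2 by norm_num, ← pow_mul, ← pow_mul]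
        congr 2
        ring
    _ ≤ C₁ * (4 ^ (N₀ + κ) * 4 * B) ^ (d * dd g) :=
        Nat.mul_le_mul_left _ (Nat.pow_le_pow_left h4 _)
    _ = _ := by
        rw [mul_pow (4 ^ (N₀ + κ) * 4) B]
        ring

end Pool.Agent.H459.CG
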