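import Pool.Agent.H459.CG.All

/-!
# Project CG (helper459): the result
-/

set_option autoImplicit false
set_option linter.all false

open Polynomial NumberField Filter
open scoped Classical IntermediateField

namespace Pool.Agent.H459.CG.Res

/-- The number of the ideal classes of `L` whose square is trivial. -/
noncomputable def tor (L : Type) [Field L] [NumberField L] : ℕ :=
  Nat.card {c : ClassGroup (𝓞 L) // c ^ 2 = 1}

/-- The monic polynomials of degree `n` over the integers of `F` without term of degree `n - 1` of height at most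
`B`: the conjugates of the coefficient of `X ^ j` are at most `B ^ (n - j)` in absolute value. -/
def Box (F : Type) [Field F] [NumberField F] (n B : ℕ) : Set (𝓞 F)[X] :=
  {f | f.Monic ∧ f.natDegree = n ∧ f.coeff (n - 1) = 0 ∧
    ∀ j < n, ∀ σ : F →+* ℂ, ‖σ (f.coeff j : F)‖ ≤ (B : ℝ) ^ (n - j)}

/-- `L` is an extension of `F` of degree `deg f` generated by a root of `f`. -/
def RootField {F : Type} [Field F] [NumberField F] (f : (𝓞 F)[X]) (L : Type) [Field L] [NumberField L]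
    [Algebra F L] : Prop :=
  Module.finrank F L = f.natDegree ∧ ∃ θ : L, F⟮θ⟯ = ⊤ ∧ aeval θ (f.map (algebraMap (𝓞 F) F)) = 0

/-- The bounded moments and the tail. -/
def Moments (F : Type) [Field F] [NumberField F] (n : ℕ) : Prop :=
  ∀ s : ℝ, 0 < s → s < 1 → ∃ (C : ℝ) (B₀ : ℕ), ∀ B ≥ B₀,
    (Box F n B).Finite ∧ (Box F n B).Nonempty ∧
    (∀ (T : Finset (𝓞 F)[X]) (L : (𝓞 F)[X] → Type) [∀ f, Field (L f)] [∀ f, NumberField (L f)]
      [∀ f, Algebra F (L f)], (∀ f ∈ T, f ∈ Box F n B ∧ RootField f (L f)) →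
      ∑ f ∈ T, (tor (L f) : ℝ) ^ s ≤ C * ((Box F n B).ncard : ℝ)) ∧
    ∀ R : ℝ, 0 < R → ({f ∈ Box F n B | ¬ (Irreducible (f.map (algebraMap (𝓞 F) F)) ∧
      ∀ (L : Type) [Field L] [NumberField L] [Algebra F L], RootField f L → (tor L : ℝ) < R)}.ncard : ℝ) ≤
      C * (R ^ (-s) + (B : ℝ) ^ (-((n : ℝ) - 1) * (Module.finrank ℚ F : ℝ))) *
        ((Box F n B).ncard : ℝ)

/-- The bound of the conjecture for almost all polynomials. -/
def Almost (F : Type) [Field F] [NumberField F] (n : ℕ) : Prop :=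
  ∀ ε η : ℝ, 0 < η → η < ε → η ≤ 1 / 2 → ∃ (C : ℝ) (B₀ : ℕ), ∀ B ≥ B₀,
    ({f ∈ Box F n B | ¬ (Irreducible (f.map (algebraMap (𝓞 F) F)) ∧
      ∀ (L : Type) [Field L] [NumberField L] [Algebra F L], RootField f L →
        (tor L : ℝ) ≤ |(discr L : ℝ)| ^ ε)}.ncard : ℝ) ≤ C * (B : ℝ) ^ (-η) * ((Box F n B).ncard : ℝ)

/-- All permutations of the embeddings of `L` over `F` are given by automorphisms: the Galois group of the
Galois closure of `L / F` is the full symmetric group. -/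
def Sym {F : Type} [Field F] (L : IntermediateField F (AlgebraicClosure F)) : Prop :=
  ∀ π : Equiv.Perm (L →ₐ[F] AlgebraicClosure F),
    ∃ σ : AlgebraicClosure F ≃ₐ[F] AlgebraicClosure F, ∀ φ : L →ₐ[F] AlgebraicClosure F,
      σ.toAlgHom.comp φ = π φ

/-- The extensions of degree `N` of `F` with the property `P`, discriminant at most `X` in absolute value and at most
`A` classes with trivial square. -/
def Fields (F : Type) [Field F] [NumberField F] (N A : ℕ) (X : ℝ)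
    (P : IntermediateField F (AlgebraicClosure F) → Prop) : Set (IntermediateField F (AlgebraicClosure F)) :=
  {L | Module.finrank F L = N ∧ P L ∧ ∃ h : NumberField L, |(@discr L _ h : ℝ)| ≤ X ∧ @tor L _ h ≤ A}

/-- At least `c X ^ (1 / 2 + 1 / n)` of them. -/
def Many (F : Type) [Field F] [NumberField F] (N n : ℕ)
    (P : IntermediateField F (AlgebraicClosure F) → Prop) : Prop :=
  ∃ (A : ℕ) (c : ℝ), 0 < c ∧ ∀ᶠ X : ℝ in atTop, (Fields F N A X P).Finite ∧
    c * X ^ (1 / 2 + 1 / n : ℝ) ≤ ((Fields F N A X P).ncard : ℝ)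

open Pool.Agent.N783.PF (Ht IsGen fF dsc Bd)
open Pool.Agent.N352.PJ (dd pol dis)
open Pool.Agent.N352.PF (dg)

theorem box_eq {F : Type} [Field F] [NumberField F] (g B : ℕ) : Box F (2 * g + 1) B = HB F g B := by
  ext f
  constructor
  · rintro ⟨h1, h2, h3, h4⟩
    refine ⟨h1, h2, ?_, fun j hj σ => h4 j (by omega) σ⟩
    rwa [show 2 * g + 1 - 1 = 2 * g by omega] at h3
  · rintro ⟨h1, h2, h3, h4⟩
    refine ⟨h1, h2, ?_, fun j hj σ => h4 j (by omega) σ⟩
    rwa [show 2 * g + 1 - 1 = 2 * g by omega]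

theorem gd_of {F : Type} [Field F] [NumberField F] {g B : ℕ} {f : (𝓞 F)[X]} (hf : f ∈ Box F (2 * g + 1) B)
    {L : Type} [Field L] [NumberField L] [Algebra F L] (h : RootField f L) :
    ∃ θ : L, IsGen g f θ := by
  obtain ⟨h1, θ, h2, h3⟩ := h
  exact ⟨θ, isGen_of hf.1 hf.2.1 h3 h2 (by rw [h1, hf.2.1])⟩

theorem root_of {F : Type} [Field F] [NumberField F] {g : ℕ} {f : (𝓞 F)[X]}
    {L : Type} [Field L] [NumberField L] [Algebra F L] {θ : L} (h : IsGen g f θ) : RootField f L :=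
  ⟨by rw [h.rank, h.deg], θ, Pool.Agent.H459.UT.top_gen h, h.root⟩

theorem moments (hC : S_CLG) (F : Type) [Field F] [NumberField F] (g : ℕ) (hg : 1 ≤ g) :
    Moments F (2 * g + 1) := by
  intro s hs0 hs1
  obtain ⟨C₁, hC₁, h1⟩ := avg hC F g hg hs0 hs1
  obtain ⟨C₂, hC₂, h2⟩ := tail hC F g hg hs0 hs1
  obtain ⟨C₃, h3⟩ := red F g hg
  obtain ⟨C₄, hC₄, h4, h5⟩ := hb_card F g hg
  obtain ⟨d, hd⟩ : ∃ d, d = Module.finrank ℚ F := ⟨_, rfl⟩
  have hdg : dg F = d := by rw [hd]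
  rw [hdg] at h1 h2 h3 h4 h5
  rw [← hd]
  refine ⟨(C₁ + C₂ + C₃) * C₄, C₄, fun B hB => ?_⟩
  have hB1 : 1 ≤ B := hC₄.trans hB
  have hBr : (1 : ℝ) ≤ B := by exact_mod_cast hB1
  have hB0 : (0 : ℝ) < B := by linarith
  obtain ⟨hfin, -⟩ := h4 B hB1
  have hlow := h5 B hB
  have hpos : 0 < (HB F g B).ncard := by
    by_contra h0
    have h6 : (HB F g B).ncard = 0 := by omega
    rw [h6, mul_zero] at hlow
    have : 0 < B ^ (d * dd g) := by positivity
    omega
  obtain ⟨Y, hY⟩ : ∃ Y : ℝ, Y = (B : ℝ) ^ (d * dd g) := ⟨_, rfl⟩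
  have hY0 : 0 < Y := by rw [hY]; positivity
  have hlow' : Y ≤ C₄ * ((HB F g B).ncard : ℝ) := by
    rw [hY]
    exact_mod_cast hlow
  rw [box_eq]
  refine ⟨hfin, (Set.ncard_pos hfin).1 hpos, ?_, ?_⟩
  · intro T L _ _ _ hT
    have hgen : ∀ f : T, ∃ θ : L f.1, IsGen g f.1 θ := fun f => by
      obtain ⟨h6, h7⟩ := hT f.1 f.2
      rw [← box_eq] at h6
      exact gd_of h6 h7
    choose θ hθ using hgen
    have h6 := h1 B hB1 T (fun f hf => (hT f hf).1) fun f => ⟨L f.1, θ f, hθ f⟩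
    have h7 : ∑ f ∈ T, (tor (L f) : ℝ) ^ s = ∑ f : T, (cl2 (L f.1) : ℝ) ^ s := by
      rw [← Finset.sum_coe_sort T]
      rfl
    rw [h7]
    refine h6.trans ?_
    rw [← hY]
    calc C₁ * Y ≤ C₁ * (C₄ * ((HB F g B).ncard : ℝ)) := mul_le_mul_of_nonneg_left hlow' hC₁.le
      _ ≤ (C₁ + C₂ + C₃) * (C₄ * ((HB F g B).ncard : ℝ)) := by
          refine mul_le_mul_of_nonneg_right ?_ (by positivity)
          have : (0 : ℝ) ≤ C₃ := Nat.cast_nonneg _
          linarith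
      _ = _ := by ring
  · intro R hR
    obtain ⟨h6, h7⟩ := h2 B hB1
    obtain ⟨h8, h9⟩ := h3 B hB1
    have hsub : {f ∈ HB F g B | ¬ (Irreducible (f.map (algebraMap (𝓞 F) F)) ∧
        ∀ (L : Type) [Field L] [NumberField L] [Algebra F L], RootField f L → (tor L : ℝ) < R)} ⊆
        BadR F g B R ∪ {f : (𝓞 F)[X] | Ht g B f ∧ ¬ Irreducible (fF f)} := by
      rintro f ⟨hf1, hf2⟩
      by_cases hirr : Irreducible (f.map (algebraMap (𝓞 F) F))
      · left
        rw [not_and] at hf2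
        have h10 := hf2 hirr
        push Not at h10
        obtain ⟨L, _, _, _, hL, hR'⟩ := h10
        rw [← box_eq] at hf1
        obtain ⟨θ, hθ⟩ := gd_of hf1 hL
        rw [box_eq] at hf1
        exact ⟨hf1, ⟨L, θ, hθ⟩, hR'⟩
      · exact Or.inr ⟨hf1, hirr⟩
    have h10 := (Set.ncard_le_ncard hsub ((h6 R).union h8)).trans (Set.ncard_union_le _ _)
    have h11 : ({f ∈ HB F g B | ¬ (Irreducible (f.map (algebraMap (𝓞 F) F)) ∧
        ∀ (L : Type) [Field L] [NumberField L] [Algebra F L], RootField f L → (tor L : ℝ) < R)}.ncard : ℝ) ≤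
        ((BadR F g B R).ncard : ℝ) +
          ({f : (𝓞 F)[X] | Ht g B f ∧ ¬ Irreducible (fF f)}.ncard : ℝ) := by
      exact_mod_cast h10
    refine h11.trans ?_
    have t1 := h7 R hR
    rw [← hY] at t1
    obtain ⟨E, hE⟩ : ∃ E : ℝ, E = (B : ℝ) ^ (-(((2 * g + 1 : ℕ) : ℝ) - 1) * (d : ℝ)) := ⟨_, rfl⟩
    have hE0 : 0 < E := by rw [hE]; exact Real.rpow_pos_of_pos hB0 _
    have t2 : ({f : (𝓞 F)[X] | Ht g B f ∧ ¬ Irreducible (fF f)}.ncard : ℝ) ≤ C₃ * E * Y := by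
      have e1 : ({f : (𝓞 F)[X] | Ht g B f ∧ ¬ Irreducible (fF f)}.ncard : ℝ) *
          (B : ℝ) ^ (2 * g * d) ≤ C₃ * Y := by
        rw [hY]
        exact_mod_cast h9
      have hBp : (0 : ℝ) < (B : ℝ) ^ (2 * g * d) := by positivity
      rw [← le_div_iff₀ hBp] at e1
      refine e1.trans (le_of_eq ?_)
      have e2 : E = ((B : ℝ) ^ (2 * g * d))⁻¹ := by
        rw [hE, ← Real.rpow_natCast, ← Real.rpow_neg hB0.le]
        congr 1
        push_cast
        ring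
      rw [e2]
      field_simp
    rw [← hE]
    have hRs : 0 < R ^ (-s) := Real.rpow_pos_of_pos hR _
    have hC30 : (0 : ℝ) ≤ C₃ := Nat.cast_nonneg _
    calc ((BadR F g B R).ncard : ℝ) + ({f : (𝓞 F)[X] | Ht g B f ∧ ¬ Irreducible (fF f)}.ncard : ℝ)
        ≤ C₂ * R ^ (-s) * Y + C₃ * E * Y := add_le_add t1 t2
      _ = (C₂ * R ^ (-s) + C₃ * E) * Y := by ring
      _ ≤ ((C₁ + C₂ + C₃) * (R ^ (-s) + E)) * Y := by
          refine mul_le_mul_of_nonneg_right ?_ hY0.le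
          nlinarith [mul_nonneg hC₁.le hRs.le, mul_nonneg hC30 hRs.le, mul_nonneg hC₁.le hE0.le,
            mul_nonneg hC₂.le hE0.le]
      _ ≤ ((C₁ + C₂ + C₃) * (R ^ (-s) + E)) * (C₄ * ((HB F g B).ncard : ℝ)) := by
          refine mul_le_mul_of_nonneg_left hlow' (by positivity)
      _ = _ := by ring

theorem almost' (hC : S_CLG) (hS : S_SMD) (F : Type) [Field F] [NumberField F] (g : ℕ) (hg : 1 ≤ g) :
    Almost F (2 * g + 1) := by
  intro ε η hη hηε hη2
  obtain ⟨C₁, hC₁, h1⟩ := almost hC hS F g hg hη hηε hη2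
  obtain ⟨C₄, hC₄, h4, h5⟩ := hb_card F g hg
  refine ⟨C₁ * C₄, C₄, fun B hB => ?_⟩
  have hB1 : 1 ≤ B := hC₄.trans hB
  have hBr : (1 : ℝ) ≤ B := by exact_mod_cast hB1
  have hB0 : (0 : ℝ) < B := by linarith
  have hlow : ((B : ℝ)) ^ (dg F * dd g) ≤ C₄ * ((HB F g B).ncard : ℝ) := by
    exact_mod_cast h5 B hB
  obtain ⟨h6, h7⟩ := h1 B hB1
  rw [box_eq]
  have hsub : {f ∈ HB F g B | ¬ (Irreducible (f.map (algebraMap (𝓞 F) F)) ∧
      ∀ (L : Type) [Field L] [NumberField L] [Algebra F L], RootField f L →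
        (tor L : ℝ) ≤ |(discr L : ℝ)| ^ ε)} ⊆ ExE F g B ε := by
    rintro f ⟨hf1, hf2⟩
    refine ⟨hf1, ?_⟩
    by_cases hirr : Irreducible (f.map (algebraMap (𝓞 F) F))
    · right
      rw [not_and] at hf2
      have h10 := hf2 hirr
      push Not at h10
      obtain ⟨L, _, _, _, hL, hR'⟩ := h10
      rw [← box_eq] at hf1
      obtain ⟨θ, hθ⟩ := gd_of hf1 hL
      exact ⟨⟨L, θ, hθ⟩, hR'⟩
    · exact Or.inl hirr
  have h8 := Set.ncard_le_ncard hsub h6
  have h9 : ({f ∈ HB F g B | ¬ (Irreducible (f.map (algebraMap (𝓞 F) F)) ∧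
      ∀ (L : Type) [Field L] [NumberField L] [Algebra F L], RootField f L →
        (tor L : ℝ) ≤ |(discr L : ℝ)| ^ ε)}.ncard : ℝ) ≤ ((ExE F g B ε).ncard : ℝ) := by
    exact_mod_cast h8
  have hη0 : 0 < (B : ℝ) ^ (-η) := Real.rpow_pos_of_pos hB0 _
  refine h9.trans (h7.trans ?_)
  calc C₁ * (B : ℝ) ^ (-η) * (B : ℝ) ^ (dg F * dd g)
      ≤ C₁ * (B : ℝ) ^ (-η) * (C₄ * ((HB F g B).ncard : ℝ)) :=
        mul_le_mul_of_nonneg_left hlow (by positivity)
    _ = _ := by ring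

open Pool.Agent.Helper313LB Pool.Agent.Helper313SN in
theorem many_sym (hC : S_CLG) (F : Type) [Field F] [NumberField F] (g : ℕ) (hg : 1 ≤ g) :
    Many F (2 * g + 1) (2 * g + 1) Sym := by
  obtain ⟨A, c, hc, h⟩ := flds hC F (AlgebraicClosure F) g hg
  refine ⟨A, c, hc, ?_⟩
  filter_upwards [h] with X hX
  have hfin : (Fields F (2 * g + 1) A X Sym).Finite := by
    refine (finite_Fld F (AlgebraicClosure F) (n := 2 * g + 1) X).subset ?_
    rintro L ⟨h1, -, hnf, h2, -⟩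
    refine ⟨h1, hnf, ?_⟩
    push_cast
    exact h2
  refine ⟨hfin, hX.trans ?_⟩
  have h1 : {L ∈ FullFld F (AlgebraicClosure F) (2 * g + 1) X |
      ∃ h : NumberField L, @cl2 L _ h ≤ A}.ncard ≤ (Fields F (2 * g + 1) A X Sym).ncard := by
    refine Set.ncard_le_ncard ?_ hfin
    rintro L ⟨⟨h1, h2, hnf, h3⟩, hnf', h4⟩
    refine ⟨h1, h2, hnf, ?_, h4⟩
    have h5 := h3
    push_cast at h5
    exact h5
  exact_mod_cast h1

open Pool.Agent.Helper313LB Pool.Agent.Helper313SN in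
theorem many_all (hC : S_CLG) (F : Type) [Field F] [NumberField F] (N n : ℕ) (hn : 3 ≤ n)
    (hodd : Odd n) (hN : n ∣ N) (hN0 : N ≠ 0) : Many F N n (fun _ => True) := by
  obtain ⟨A, c, hc, h⟩ := absN hC F (AlgebraicClosure F) N n hn hodd hN hN0
  refine ⟨A, c, hc, ?_⟩
  have he : ∀ X : ℝ, Fields F N A X (fun _ => True) = FldA F (AlgebraicClosure F) N A X := by
    intro X
    ext L
    constructor
    · rintro ⟨h1, -, hnf, h2, h3⟩
      refine ⟨h1, hnf, ?_, h3⟩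
      push_cast
      exact h2
    · rintro ⟨h1, hnf, h2, h3⟩
      refine ⟨h1, trivial, hnf, ?_, h3⟩
      have h5 := h2
      push_cast at h5
      exact h5
  filter_upwards [h] with X hX
  rw [he]
  exact ⟨fldA_fin N A X, hX⟩

end Pool.Agent.H459.CG.Res
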